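import Mathlib

set_option autoImplicit false
open MeasureTheory Metric Filter
open scoped ComplexConjugate ENNReal Topology

/-! Norms over intervals. -/

namespace Pool.Agent.H7.PT

/-- the norm over an interval -/
noncomputable def nI (p a b : ℝ) (F : ℝ → ℂ) : ℝ := (∫ t in Set.Icc a b, ‖F t‖ ^ p) ^ (1 / p)

lemma int_nonneg (p a b : ℝ) (F : ℝ → ℂ) : 0 ≤ ∫ t in Set.Icc a b, ‖F t‖ ^ p :=
  integral_nonneg fun t => by positivity

lemma nI_nonneg (p a b : ℝ) (F : ℝ → ℂ) : 0 ≤ nI p a b F :=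
  Real.rpow_nonneg (int_nonneg p a b F) _

lemma nI_rpow {p : ℝ} (hp : 0 < p) (a b : ℝ) (F : ℝ → ℂ) :
    nI p a b F ^ p = ∫ t in Set.Icc a b, ‖F t‖ ^ p := by
  unfold nI
  rw [← Real.rpow_mul (int_nonneg p a b F), one_div_mul_cancel hp.ne', Real.rpow_one]

lemma cont_rpow {F : ℝ → ℂ} (hF : Continuous F) {p : ℝ} (hp : 0 ≤ p) :
    Continuous fun t => ‖F t‖ ^ p :=
  hF.norm.rpow_const fun _ => Or.inr hp

lemma intOn {f : ℝ → ℝ} (hf : Continuous f) (a b : ℝ) : IntegrableOn f (Set.Icc a b) :=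
  hf.continuousOn.integrableOn_compact isCompact_Icc

lemma cmulc {F : ℝ → ℂ} (c : ℂ) (hF : Continuous F) : Continuous (fun t => c * F t) :=
  continuous_const.mul hF

lemma addc {F G : ℝ → ℂ} (hF : Continuous F) (hG : Continuous G) :
    Continuous (fun t => F t + G t) := hF.add hG

lemma subc {F G : ℝ → ℂ} (hF : Continuous F) (hG : Continuous G) :
    Continuous (fun t => F t - G t) := hF.sub hG

lemma sumc {ι : Type*} (s : Finset ι) {F : ι → ℝ → ℂ} (hF : ∀ i ∈ s, Continuous (F i)) :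
    Continuous (fun t => ∑ i ∈ s, F i t) := continuous_finsetSum s hF

lemma nI_le_of {p : ℝ} (hp : 0 < p) {a b : ℝ} {F : ℝ → ℂ} {X : ℝ} (hX : 0 ≤ X)
    (h : ∫ t in Set.Icc a b, ‖F t‖ ^ p ≤ X ^ p) : nI p a b F ≤ X := by
  rw [← nI_rpow hp] at h
  exact (Real.rpow_le_rpow_iff (nI_nonneg _ _ _ _) hX hp).1 h

lemma nI_mono_set {p : ℝ} (hp : 0 < p) {a b a' b' : ℝ} {F : ℝ → ℂ} (hF : Continuous F)
    (h1 : a' ≤ a) (h2 : b ≤ b') : nI p a b F ≤ nI p a' b' F := by
  unfold nI
  refine Real.rpow_le_rpow (int_nonneg p a b F) ?_ (by positivity)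
  exact setIntegral_mono_set (intOn (cont_rpow hF hp.le) a' b')
    (Eventually.of_forall fun t => by positivity) (Set.Icc_subset_Icc h1 h2).eventuallyLE

lemma nI_mono {p : ℝ} (hp : 0 < p) {a b : ℝ} {F G : ℝ → ℂ} (hF : Continuous F)
    (hG : Continuous G) (h : ∀ t ∈ Set.Icc a b, ‖F t‖ ≤ ‖G t‖) : nI p a b F ≤ nI p a b G := by
  unfold nI
  refine Real.rpow_le_rpow (int_nonneg p a b F) ?_ (by positivity)
  refine setIntegral_mono_on (intOn (cont_rpow hF hp.le) a b) (intOn (cont_rpow hG hp.le) a b)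
    measurableSet_Icc fun t ht => ?_
  exact Real.rpow_le_rpow (norm_nonneg _) (h t ht) hp.le

lemma nI_congr {p a b : ℝ} {F G : ℝ → ℂ} (h : ∀ t ∈ Set.Icc a b, ‖F t‖ = ‖G t‖) :
    nI p a b F = nI p a b G := by
  unfold nI
  congr 1
  refine setIntegral_congr_fun measurableSet_Icc fun t ht => ?_
  simp only [h t ht]

lemma int_shift (g : ℝ → ℝ) (a b h : ℝ) :
    ∫ t in Set.Icc a b, g (t + h) = ∫ t in Set.Icc (a + h) (b + h), g t := by
  rcases le_total a b with hab | hab
  · rw [integral_Icc_eq_integral_Ioc, integral_Icc_eq_integral_Ioc,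
      ← intervalIntegral.integral_of_le hab, ← intervalIntegral.integral_of_le (by linarith),
      intervalIntegral.integral_comp_add_right]
  · rcases hab.eq_or_lt with rfl | hab
    · simp
    · rw [Set.Icc_eq_empty (not_le.2 hab), Set.Icc_eq_empty (not_le.2 (by linarith))]
      simp

lemma nI_shift (p a b h : ℝ) (F : ℝ → ℂ) :
    nI p a b (fun t => F (t + h)) = nI p (a + h) (b + h) F := by
  unfold nI
  rw [int_shift (fun t => ‖F t‖ ^ p)]

lemma nI_const {p : ℝ} (hp : 0 < p) {a b : ℝ} (hab : a ≤ b) (c : ℂ) :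
    nI p a b (fun _ => c) = ‖c‖ * (b - a) ^ (1 / p) := by
  unfold nI
  rw [setIntegral_const, smul_eq_mul]
  have h1 : volume.real (Set.Icc a b) = b - a := by
    rw [measureReal_def, Real.volume_Icc, ENNReal.toReal_ofReal (by linarith)]
  rw [h1, mul_comm, Real.mul_rpow (by positivity) (by linarith), ← Real.rpow_mul (norm_nonneg _),
    mul_one_div_cancel hp.ne', Real.rpow_one]

lemma nI_le_const {p : ℝ} (hp : 0 < p) {a b : ℝ} (hab : a ≤ b) {F : ℝ → ℂ} (hF : Continuous F)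
    {C : ℝ} (h : ∀ t ∈ Set.Icc a b, ‖F t‖ ≤ C) : nI p a b F ≤ C * (b - a) ^ (1 / p) := by
  have h0 : 0 ≤ C := (norm_nonneg _).trans (h a (Set.left_mem_Icc.2 hab))
  have h1 := nI_mono hp hF (continuous_const (y := (C : ℂ))) (a := a) (b := b) fun t ht => by
    rw [Complex.norm_real, Real.norm_of_nonneg h0]; exact h t ht
  rwa [nI_const hp hab, Complex.norm_real, Real.norm_of_nonneg h0] at h1

lemma nI_const_mul {p : ℝ} (hp : 0 < p) (a b : ℝ) (c : ℂ) (F : ℝ → ℂ) :
    nI p a b (fun t => c * F t) = ‖c‖ * nI p a b F := by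
  unfold nI
  simp_rw [norm_mul]
  have h1 : ∀ t, (‖c‖ * ‖F t‖) ^ p = ‖c‖ ^ p * ‖F t‖ ^ p := fun z =>
    Real.mul_rpow (norm_nonneg _) (norm_nonneg _)
  simp_rw [h1]
  rw [integral_const_mul, Real.mul_rpow (by positivity) (int_nonneg p a b F),
    ← Real.rpow_mul (norm_nonneg _), mul_one_div_cancel hp.ne', Real.rpow_one]

lemma memLp_of {F : ℝ → ℂ} (hF : Continuous F) (p : ℝ≥0∞) (a b : ℝ) :
    MemLp F p (volume.restrict (Set.Icc a b)) := by
  obtain ⟨B, hB⟩ := (isCompact_Icc (a := a) (b := b)).exists_bound_of_continuousOn hF.continuousOn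
  refine MemLp.of_bound hF.aestronglyMeasurable B ?_
  exact (ae_restrict_mem measurableSet_Icc).mono hB

lemma nI_eq {p : ℝ} (hp : 0 < p) (a b : ℝ) {F : ℝ → ℂ} (hF : Continuous F) :
    nI p a b F = (eLpNorm F (ENNReal.ofReal p) (volume.restrict (Set.Icc a b))).toReal := by
  have hM := memLp_of hF (ENNReal.ofReal p) a b
  rw [hM.eLpNorm_eq_integral_rpow_norm (by positivity) ENNReal.ofReal_ne_top,
    ENNReal.toReal_ofReal hp.le, ENNReal.toReal_ofReal]
  · unfold nI; rw [one_div]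
  · exact Real.rpow_nonneg (int_nonneg p a b F) _

lemma nI_add_le {p : ℝ} (hp : 1 ≤ p) (a b : ℝ) {F G : ℝ → ℂ} (hF : Continuous F)
    (hG : Continuous G) : nI p a b (fun t => F t + G t) ≤ nI p a b F + nI p a b G := by
  have hp0 : 0 < p := lt_of_lt_of_le one_pos hp
  have hm : ∀ G : ℝ → ℂ, Continuous G →
      MemLp G (ENNReal.ofReal p) (volume.restrict (Set.Icc a b)) := fun G hG =>
    memLp_of hG _ a b
  rw [nI_eq hp0 a b hF, nI_eq hp0 a b hG,
    nI_eq hp0 a b (show Continuous (fun z => F z + G z) from hF.add hG),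
    ← ENNReal.toReal_add (hm F hF).eLpNorm_lt_top.ne (hm G hG).eLpNorm_lt_top.ne]
  refine ENNReal.toReal_mono ?_ ?_
  · exact ENNReal.add_ne_top.2 ⟨(hm F hF).eLpNorm_lt_top.ne, (hm G hG).eLpNorm_lt_top.ne⟩
  · exact eLpNorm_add_le hF.aestronglyMeasurable hG.aestronglyMeasurable
      (by simpa using hp)

lemma nI_sub_le {p : ℝ} (hp : 1 ≤ p) (a b : ℝ) {F G : ℝ → ℂ} (hF : Continuous F)
    (hG : Continuous G) : nI p a b F ≤ nI p a b (fun t => F t - G t) + nI p a b G := by
  have h := nI_add_le hp a b (show Continuous (fun z => F z - G z) from hF.sub hG) hG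
  simp only [sub_add_cancel] at h
  exact h

lemma nI_neg {p a b : ℝ} (F : ℝ → ℂ) : nI p a b (fun t => - F t) = nI p a b F := by
  unfold nI; simp

lemma nI_sub_comm {p a b : ℝ} (F G : ℝ → ℂ) :
    nI p a b (fun t => F t - G t) = nI p a b (fun t => G t - F t) := by
  rw [← nI_neg]; simp

lemma nI_tri {p : ℝ} (hp : 1 ≤ p) (a b : ℝ) {F G H : ℝ → ℂ} (hF : Continuous F)
    (hG : Continuous G) (hH : Continuous H) :
    nI p a b (fun t => F t - H t) ≤ nI p a b (fun t => F t - G t) +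
      nI p a b (fun t => G t - H t) := by
  have h := nI_add_le hp a b (show Continuous (fun z => F z - G z) from hF.sub hG)
    (show Continuous (fun z => G z - H z) from hG.sub hH)
  simp only [sub_add_sub_cancel] at h
  exact h

lemma abs_nI_sub_le {p : ℝ} (hp : 1 ≤ p) (a b : ℝ) {F G : ℝ → ℂ} (hF : Continuous F)
    (hG : Continuous G) : |nI p a b F - nI p a b G| ≤ nI p a b (fun t => F t - G t) := by
  rw [abs_le]
  have h1 := nI_sub_le hp a b hF hG
  have h2 := nI_sub_le hp a b hG hF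
  rw [nI_sub_comm G F] at h2
  constructor <;> linarith

lemma nI_sum_le {p : ℝ} (hp : 1 ≤ p) (a b : ℝ) {ι : Type*} (s : Finset ι) (F : ι → ℝ → ℂ)
    (hF : ∀ i ∈ s, Continuous (F i)) :
    nI p a b (fun t => ∑ i ∈ s, F i t) ≤ ∑ i ∈ s, nI p a b (F i) := by
  classical
  have hp0 : 0 < p := lt_of_lt_of_le one_pos hp
  induction s using Finset.induction_on with
  | empty =>
    simp only [Finset.sum_empty]
    unfold nI
    simp [Real.zero_rpow hp0.ne', Real.zero_rpow (inv_ne_zero hp0.ne')]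
  | insert i s hi ih =>
    simp_rw [Finset.sum_insert hi]
    have hc : Continuous fun t => ∑ j ∈ s, F j t :=
      continuous_finsetSum s fun j hj => hF j (Finset.mem_insert_of_mem hj)
    refine (nI_add_le hp a b (hF i (Finset.mem_insert_self _ _)) hc).trans ?_
    have := ih fun j hj => hF j (Finset.mem_insert_of_mem hj)
    linarith

/-- splitting of the interval -/
lemma nI_split {p : ℝ} (hp : 1 ≤ p) {a b c : ℝ} (hab : a ≤ b) (hbc : b ≤ c) {F : ℝ → ℂ}
    (hF : Continuous F) : nI p a c F ≤ nI p a b F + nI p b c F := by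
  have hp0 : 0 < p := lt_of_lt_of_le one_pos hp
  have h1 := nI_nonneg p a b F
  have h2 := nI_nonneg p b c F
  refine nI_le_of hp0 (by positivity) ?_
  have h3 : ∫ t in Set.Icc a c, ‖F t‖ ^ p = (∫ t in Set.Icc a b, ‖F t‖ ^ p) +
      ∫ t in Set.Icc b c, ‖F t‖ ^ p := by
    have hc := cont_rpow hF hp0.le
    simp only [integral_Icc_eq_integral_Ioc]
    rw [← intervalIntegral.integral_of_le hab, ← intervalIntegral.integral_of_le hbc,
      ← intervalIntegral.integral_of_le (hab.trans hbc),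
      intervalIntegral.integral_add_adjacent_intervals (hc.intervalIntegrable _ _)
      (hc.intervalIntegrable _ _)]
  rw [h3, ← nI_rpow hp0 a b, ← nI_rpow hp0 b c]
  exact Real.add_rpow_le_rpow_add h1 h2 hp

end Pool.Agent.H7.PT
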