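import Pool.Agent.H7.PM.G1
import Pool.Agent.H7.PT.P10

set_option autoImplicit false
open MeasureTheory Metric Filter ProbabilityTheory
open scoped ComplexConjugate ENNReal Topology ContDiff

/-! The limit, the constant, and uniformity. -/

namespace Pool.Agent.H7.PT

open Pool.Agent.H7.PM (dl dl_pos dl_nonneg dl_tendsto DN continuous_DN mean_DN nrm SN)

theorem conv_of_approx' (A : ℝ → ℝ) (h : ∀ ε : ℝ, 0 < ε → ∃ B : ℝ → ℝ,
    (∃ l, Tendsto B atTop (𝓝 l)) ∧ ∀ᶠ T in atTop, |A T - B T| ≤ ε) :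
    ∃ l, Tendsto A atTop (𝓝 l) := by
  refine cauchy_map_iff_exists_tendsto.1 (Metric.cauchy_iff.2 ⟨inferInstance, fun ε hε => ?_⟩)
  obtain ⟨B, ⟨l, hl⟩, hB⟩ := h (ε / 8) (by positivity)
  have h1 := hl.eventually (Metric.ball_mem_nhds l (show 0 < ε / 8 by positivity))
  refine ⟨A '' {T | |A T - B T| ≤ ε / 8 ∧ B T ∈ Metric.ball l (ε / 8)},
    Filter.image_mem_map (hB.and h1), ?_⟩
  rintro x ⟨T, ⟨hT1, hT2⟩, rfl⟩ y ⟨T', ⟨hT1', hT2'⟩, rfl⟩
  rw [Metric.mem_ball, Real.dist_eq, abs_lt] at hT2 hT2'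
  rw [abs_le] at hT1 hT1'
  rw [Real.dist_eq, abs_lt]
  constructor <;> linarith [hT1.1, hT1.2, hT2.1, hT2.2, hT1'.1, hT1'.2, hT2'.1, hT2'.2]

lemma SS_pos {k : ℝ} (hk : 0 < k) {N : ℝ → ℕ} (hN : Adm N) : ∀ᶠ T in atTop, 0 < SS k N T := by
  filter_upwards [SS_ge hk hN, eventually_gt_atTop 0] with T h1 h2
  exact lt_of_lt_of_le (Real.rpow_pos_of_pos h2 _) h1

theorem DN_lim {k : ℝ} (hk : 1 < k) (hk4 : k ≤ 4) : ∃ l : ℝ, ∀ N : ℝ → ℕ, Adm N →
    Tendsto (fun T : ℝ => nI k 0 T (DN (N T)) / SS k N T) atTop (𝓝 l) := by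
  have hk0 : 0 < k := by linarith
  have happ := app_DN hk hk4
  have key : ∀ ε : ℝ, 0 < ε → ∃ l : ℝ, ∀ N : ℝ → ℕ, Adm N → ∃ B : ℝ → ℝ,
      Tendsto B atTop (𝓝 l) ∧ ∀ᶠ T in atTop, |nI k 0 T (DN (N T)) / SS k N T - B T| ≤ ε := by
    intro ε hε
    obtain ⟨n, w, a, H⟩ := happ ε hε
    obtain ⟨l, hl⟩ := cmb_lim hk hk4 w a
    refine ⟨l, fun N hN => ⟨_, hl N hN, ?_⟩⟩
    filter_upwards [H N hN, SS_pos hk0 hN,
      hN.delta.eventually (gt_mem_nhds (show (0 : ℝ) < 1 / 2 by norm_num))] with T h1 h2 h3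
    rw [← sub_div, abs_div, abs_of_pos h2, div_le_iff₀ h2]
    exact (abs_nI_sub_le hk.le 0 T (continuous_DN _) (cmb_cont w a h3)).trans h1
  have conv : ∀ N : ℝ → ℕ, Adm N → ∃ l : ℝ,
      Tendsto (fun T : ℝ => nI k 0 T (DN (N T)) / SS k N T) atTop (𝓝 l) := by
    intro N hN
    refine conv_of_approx' _ fun ε hε => ?_
    obtain ⟨l, hl⟩ := key ε hε
    obtain ⟨B, hB, hB'⟩ := hl N hN
    exact ⟨B, ⟨l, hB⟩, hB'⟩
  by_cases h0 : ∃ N0 : ℝ → ℕ, Adm N0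
  · obtain ⟨N0, hN0⟩ := h0
    obtain ⟨l, hl⟩ := conv N0 hN0
    refine ⟨l, fun N hN => ?_⟩
    obtain ⟨l', hl'⟩ := conv N hN
    have e : l' = l := by
      refine eq_of_forall_dist_le fun ε hε => ?_
      obtain ⟨l1, h1⟩ := key (ε / 2) (by positivity)
      obtain ⟨B, hB, hB'⟩ := h1 N hN
      obtain ⟨B0, hB0, hB0'⟩ := h1 N0 hN0
      have a1 : |l' - l1| ≤ ε / 2 := le_of_tendsto (hl'.sub hB).abs hB'
      have a2 : |l - l1| ≤ ε / 2 := le_of_tendsto (hl.sub hB0).abs hB0'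
      rw [Real.dist_eq]
      rw [abs_le] at *
      constructor <;> linarith [a1.1, a1.2, a2.1, a2.2]
    rwa [e] at hl'
  · exact ⟨0, fun N hN => absurd ⟨N, hN⟩ h0⟩

/-- slowly growing choices -/
lemma exists_slow (P : ℕ → ℝ → Prop) (h : ∀ n, ∀ᶠ T in atTop, P n T) :
    ∃ N : ℝ → ℕ, Tendsto N atTop atTop ∧ ∀ᶠ T in atTop, P (N T) T := by
  classical
  choose τ hτ using fun n => eventually_atTop.1 (h n)
  refine ⟨fun T => Nat.findGreatest (fun n => ∀ i ≤ n, τ i ≤ T) ⌊T⌋₊, ?_, ?_⟩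
  · rw [Filter.tendsto_atTop]
    intro M
    have h1 : ∀ᶠ T : ℝ in atTop, ∀ i ∈ Finset.range (M + 1), τ i ≤ T :=
      (Filter.eventually_all_finset _).2 fun i _ => eventually_ge_atTop (τ i)
    filter_upwards [h1, eventually_ge_atTop (M : ℝ)] with T h2 h3
    refine Nat.le_findGreatest (Nat.le_floor h3) fun i hi => ?_
    exact h2 i (Finset.mem_range.2 (by omega))
  · filter_upwards [eventually_ge_atTop (τ 0)] with T h2
    have h3 : ∀ i ≤ 0, τ i ≤ T := by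
      intro i hi
      have : i = 0 := by omega
      rw [this]
      exact h2
    have h4 := Nat.findGreatest_spec (P := fun n => ∀ i ≤ n, τ i ≤ T) (Nat.zero_le ⌊T⌋₊) h3
    exact hτ _ T (h4 _ le_rfl)

/-- the normalised means -/
noncomputable def mn (k : ℝ) (N : ℕ) (T : ℝ) : ℝ :=
  (1 / T * ∫ t in (0 : ℝ)..T, ‖DN N t‖ ^ k) / Real.log N ^ (k ^ 2 / 4)

lemma mn_eq {k : ℝ} (hk : 0 < k) {N : ℝ → ℕ} (hN : Adm N) : ∀ᶠ T in atTop,
    mn k (N T) T = (nI k 0 T (DN (N T)) / SS k N T) ^ k / 2 ^ (k ^ 2 / 4) := by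
  filter_upwards [hN.two, eventually_gt_atTop 0, hN.pos, hN.logpos] with T h1 h2 h3 h4
  rw [Real.div_rpow (nI_nonneg _ _ _ _) (SS_nonneg k N h2.le), nI_rpow hk, SS_rpow hk N h2.le]
  unfold mn
  rw [intervalIntegral.integral_of_le h2.le, ← integral_Icc_eq_integral_Ioc]
  have e1 : (2 * dl (N T)) ^ (-((k / 2) ^ 2)) =
      Real.log (N T) ^ (k ^ 2 / 4) / 2 ^ (k ^ 2 / 4) := by
    rw [Real.mul_rpow (by norm_num) h3.le]
    unfold dl
    have e2 : (k / 2) ^ 2 = k ^ 2 / 4 := by ring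
    rw [e2, one_div, Real.inv_rpow h4.le, Real.rpow_neg h4.le, inv_inv,
      Real.rpow_neg (by norm_num)]
    ring
  rw [e1]
  have h5 : 0 < Real.log (N T) ^ (k ^ 2 / 4) := Real.rpow_pos_of_pos h4 _
  have h6 : (0 : ℝ) < 2 ^ (k ^ 2 / 4) := by positivity
  field_simp

theorem main_seq {k : ℝ} (hk : 1 < k) : ∃ c : ℝ, 0 < c ∧
    Tendsto (fun N : ℕ => nrm k (SN N) ^ k / Real.log N ^ (k ^ 2 / 4)) atTop (𝓝 c) ∧
    (k ≤ 4 → ∀ N : ℝ → ℕ, Adm N → Tendsto (fun T : ℝ => mn k (N T) T) atTop (𝓝 c)) := by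
  have hk0 : 0 < k := by linarith
  obtain ⟨c, hc, hlim⟩ := Pool.Agent.H7.PM.main hk
  refine ⟨c, hc, hlim, fun hk4 => ?_⟩
  obtain ⟨l, hl⟩ := DN_lim hk hk4
  have hconv : ∀ N : ℝ → ℕ, Adm N →
      Tendsto (fun T : ℝ => mn k (N T) T) atTop (𝓝 (l ^ k / 2 ^ (k ^ 2 / 4))) := by
    intro N hN
    have h1 := ((hl N hN).rpow_const (p := k) (Or.inr hk0.le)).div_const (2 ^ (k ^ 2 / 4))
    refine h1.congr' ?_
    filter_upwards [mn_eq hk0 hN] with T hT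
    rw [hT]
  -- a slow choice
  obtain ⟨N, hN1, hN2⟩ := exists_slow (fun n T =>
      |(1 / T * ∫ t in (0 : ℝ)..T, ‖DN n t‖ ^ k) - nrm k (SN n) ^ k| ≤ 1 ∧
      |Real.log n / Real.log T| ≤ 1 / ((n : ℝ) + 1)) (by
    intro n
    have h1 := (Metric.tendsto_nhds.1 (mean_DN hk0 n)) 1 one_pos
    have h2 : Tendsto (fun T : ℝ => Real.log n / Real.log T) atTop (𝓝 0) :=
      Real.tendsto_log_atTop.const_div_atTop _
    have h3 := (Metric.tendsto_nhds.1 h2) (1 / ((n : ℝ) + 1)) (by positivity)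
    filter_upwards [h1, h3] with T h4 h5
    rw [Real.dist_eq] at h4 h5
    rw [sub_zero] at h5
    exact ⟨h4.le, h5.le⟩)
  have hNr : Tendsto (fun T => (N T : ℝ)) atTop atTop := tendsto_natCast_atTop_atTop.comp hN1
  have hAdm : Adm N := by
    refine ⟨hN1, ?_⟩
    have h1 : Tendsto (fun T : ℝ => 1 / ((N T : ℝ) + 1)) atTop (𝓝 0) :=
      (tendsto_atTop_add_const_right _ 1 hNr).const_div_atTop 1
    refine squeeze_zero_norm' ?_ h1
    filter_upwards [hN2] with T hT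
    exact hT.2
  have h1 := hconv N hAdm
  have h2 : Tendsto (fun T : ℝ => mn k (N T) T) atTop (𝓝 c) := by
    have h3 := hlim.comp hN1
    have hlog : Tendsto (fun T : ℝ => Real.log (N T) ^ (k ^ 2 / 4)) atTop atTop :=
      (tendsto_rpow_atTop (by positivity)).comp (Real.tendsto_log_atTop.comp hNr)
    have h4 : Tendsto (fun T : ℝ => 1 / Real.log (N T) ^ (k ^ 2 / 4)) atTop (𝓝 0) :=
      hlog.const_div_atTop 1
    have h5 : Tendsto (fun T : ℝ => mn k (N T) T -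
        nrm k (SN (N T)) ^ k / Real.log (N T) ^ (k ^ 2 / 4)) atTop (𝓝 0) := by
      refine squeeze_zero_norm' ?_ h4
      filter_upwards [hN2, hAdm.logpos] with T h6 h7
      have h8 : 0 < Real.log (N T) ^ (k ^ 2 / 4) := Real.rpow_pos_of_pos h7 _
      unfold mn
      rw [← sub_div, Real.norm_eq_abs, abs_div, abs_of_pos h8]
      exact div_le_div_of_nonneg_right h6.1 h8.le
    have h6 := h5.add h3
    rw [zero_add] at h6
    refine h6.congr fun T => ?_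
    simp only [Function.comp]
    ring
  have e := tendsto_nhds_unique h1 h2
  intro N' hN'
  rw [← e]
  exact hconv N' hN'

end Pool.Agent.H7.PT
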