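import Pool.Agent.H7.PT.P11

set_option autoImplicit false
open MeasureTheory Metric Filter ProbabilityTheory
open scoped ComplexConjugate ENNReal Topology ContDiff

/-! Uniformity in the length. -/

namespace Pool.Agent.H7.PT

lemma exists_adm : ∃ N : ℝ → ℕ, Adm N := by
  obtain ⟨N, hN1, hN2⟩ := exists_slow (fun n T => |Real.log n / Real.log T| ≤ 1 / ((n : ℝ) + 1)) (by
    intro n
    have h2 : Tendsto (fun T : ℝ => Real.log n / Real.log T) atTop (𝓝 0) :=
      Real.tendsto_log_atTop.const_div_atTop _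
    have h3 := (Metric.tendsto_nhds.1 h2) (1 / ((n : ℝ) + 1)) (by positivity)
    filter_upwards [h3] with T h5
    rw [Real.dist_eq, sub_zero] at h5
    exact h5.le)
  have hNr : Tendsto (fun T => (N T : ℝ)) atTop atTop := tendsto_natCast_atTop_atTop.comp hN1
  refine ⟨N, hN1, ?_⟩
  have h1 : Tendsto (fun T : ℝ => 1 / ((N T : ℝ) + 1)) atTop (𝓝 0) :=
    (tendsto_atTop_add_const_right _ 1 hNr).const_div_atTop 1
  refine squeeze_zero_norm' ?_ h1
  filter_upwards [hN2] with T hT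
  exact hT

theorem unif (f : ℕ → ℝ → ℝ) (c : ℝ)
    (h : ∀ N : ℝ → ℕ, Adm N → Tendsto (fun T => f (N T) T) atTop (𝓝 c)) :
    ∀ ε : ℝ, 0 < ε → ∃ θ : ℝ, 0 < θ ∧ ∃ N0 : ℕ, ∀ N : ℕ, N0 ≤ N → ∀ T : ℝ,
      (N : ℝ) ^ (1 / θ) ≤ T → |f N T - c| ≤ ε := by
  by_contra hcon
  push Not at hcon
  obtain ⟨ε, hε, hcon⟩ := hcon
  choose n hn τ hτ1 hτ2 using fun j : ℕ =>
    hcon (1 / ((j : ℝ) + 1)) (by positivity) (j + 2)
  have hn1 : ∀ j, (1 : ℝ) < n j := by
    intro j
    have := hn j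
    exact_mod_cast (by omega : 1 < n j)
  have hτ3 : ∀ j, (n j : ℝ) ^ ((j : ℝ) + 1) ≤ τ j := by
    intro j
    have := hτ1 j
    rwa [one_div_one_div] at this
  have hτ4 : ∀ j, (n j : ℝ) ≤ τ j := by
    intro j
    refine le_trans ?_ (hτ3 j)
    calc (n j : ℝ) = (n j : ℝ) ^ (1 : ℝ) := (Real.rpow_one _).symm
      _ ≤ _ := Real.rpow_le_rpow_of_exponent_le (hn1 j).le (by
        have : (0 : ℝ) ≤ j := Nat.cast_nonneg j
        linarith)
  have hτt : Tendsto τ atTop atTop := by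
    refine tendsto_atTop_mono (f := fun j : ℕ => (j : ℝ)) (fun j => ?_) tendsto_natCast_atTop_atTop
    refine le_trans ?_ (hτ4 j)
    have := hn j
    exact_mod_cast (by omega : j ≤ n j)
  obtain ⟨φ, hφ1, hφ2⟩ := strictMono_subseq_of_tendsto_atTop hτt
  obtain ⟨N', hN'⟩ := exists_adm
  have hinj : Function.Injective (τ ∘ φ) := hφ2.injective
  set N : ℝ → ℕ := Function.extend (τ ∘ φ) (n ∘ φ) N' with hN
  have hN1 : ∀ j, N ((τ ∘ φ) j) = n (φ j) := fun j => hinj.extend_apply _ _ _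
  have hφj : ∀ j, j ≤ φ j := fun j => hφ1.id_le j
  have hAdm : Adm N := by
    constructor
    · rw [Filter.tendsto_atTop]
      intro M
      filter_upwards [hN'.1.eventually_ge_atTop M, eventually_ge_atTop ((τ ∘ φ) M)] with T h1 h2
      by_cases h3 : ∃ j, (τ ∘ φ) j = T
      · obtain ⟨j, rfl⟩ := h3
        rw [hN1]
        have h4 : M ≤ j := hφ2.le_iff_le.1 h2
        have := hn (φ j)
        have := hφj j
        omega
      · rw [hN, Function.extend_apply' _ _ _ h3]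
        exact h1
    · rw [Metric.tendsto_nhds]
      intro ε' hε'
      obtain ⟨j0, hj0⟩ := exists_nat_one_div_lt hε'
      filter_upwards [(Metric.tendsto_nhds.1 hN'.2) ε' hε',
        eventually_ge_atTop ((τ ∘ φ) j0)] with T h1 h2
      by_cases h3 : ∃ j, (τ ∘ φ) j = T
      · obtain ⟨j, rfl⟩ := h3
        rw [hN1]
        have h4 : j0 ≤ j := hφ2.le_iff_le.1 h2
        have h5 := hφj j
        simp only [Function.comp]
        set i := φ j with hi
        have hl : 0 < Real.log (n i) := Real.log_pos (hn1 i)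
        have h6 : ((i : ℝ) + 1) * Real.log (n i) ≤ Real.log (τ i) := by
          rw [← Real.log_rpow (by linarith [hn1 i])]
          exact Real.log_le_log (Real.rpow_pos_of_pos (by linarith [hn1 i]) _) (hτ3 i)
        have h7 : 0 < Real.log (τ i) := lt_of_lt_of_le (by positivity) h6
        rw [Real.dist_eq, sub_zero, abs_of_pos (div_pos hl h7)]
        refine lt_of_le_of_lt ?_ hj0
        rw [div_le_div_iff₀ h7 (by positivity)]
        have h8 : (j0 : ℝ) ≤ i := by exact_mod_cast h4.trans h5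
        nlinarith
      · rw [hN, Function.extend_apply' _ _ _ h3]
        exact h1
  have h1 := (h N hAdm).comp (show Tendsto (τ ∘ φ) atTop atTop from
    hτt.comp hφ1.tendsto_atTop)
  have h2 := (Metric.tendsto_nhds.1 h1) ε hε
  obtain ⟨j, hj⟩ := h2.exists
  simp only [Function.comp] at hj
  have h3 := hN1 j
  simp only [Function.comp] at h3
  rw [h3, Real.dist_eq] at hj
  exact absurd hj (not_lt.2 (hτ2 (φ j)).le)

/-- **The theorem**: iterated limit, and uniform version for `k ≤ 4`. -/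
theorem main_unif {k : ℝ} (hk : 1 < k) : ∃ c : ℝ, 0 < c ∧
    Tendsto (fun N : ℕ => Pool.Agent.H7.PM.nrm k (Pool.Agent.H7.PM.SN N) ^ k /
      Real.log N ^ (k ^ 2 / 4)) atTop (𝓝 c) ∧
    (k ≤ 4 → ∀ ε : ℝ, 0 < ε → ∃ θ : ℝ, 0 < θ ∧ ∃ N0 : ℕ, ∀ N : ℕ, N0 ≤ N → ∀ T : ℝ,
      (N : ℝ) ^ (1 / θ) ≤ T → |mn k N T - c| ≤ ε) := by
  obtain ⟨c, hc, h1, h2⟩ := main_seq hk
  exact ⟨c, hc, h1, fun hk4 => unif (mn k) c (h2 hk4)⟩

end Pool.Agent.H7.PT
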