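import Pool.Agent.H7.PT.P12

set_option autoImplicit false
open MeasureTheory Metric Filter ProbabilityTheory
open scoped ComplexConjugate ENNReal Topology ContDiff

/-! Homogeneous functions of shifted partial sums. (`sup_le_sum`, `sum_le_sup`, `hom_mod` are taken from
`Pool.Agent.H60.LM.Hom`, by helper60.) -/

namespace Pool.Agent.H7.PT

open Pool.Agent.H7.PM (dl dl_pos dl_nonneg dl_tendsto DN continuous_DN mean_DN nrm SN)
open Pool.Agent.V11128.CXL

lemma sup_le_sum {m : ℕ} {k : ℝ} (hk : 0 < k) (z : Fin m → ℂ) : ‖z‖ ^ k ≤ ∑ j, ‖z j‖ ^ k := by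
  have hS : 0 ≤ ∑ j, ‖z j‖ ^ k := Finset.sum_nonneg fun j _ => Real.rpow_nonneg (norm_nonneg _) _
  have h4 : ‖z‖ ≤ (∑ j, ‖z j‖ ^ k) ^ (1 / k) := by
    rw [pi_norm_le_iff_of_nonneg (Real.rpow_nonneg hS _)]
    intro j
    have h5 : ‖z j‖ ^ k ≤ ∑ j, ‖z j‖ ^ k :=
      Finset.single_le_sum (f := fun j => ‖z j‖ ^ k) (fun i _ => Real.rpow_nonneg (norm_nonneg _) _) (Finset.mem_univ j)
    have h6 := Real.rpow_le_rpow (Real.rpow_nonneg (norm_nonneg _) _) h5 (show 0 ≤ 1 / k by positivity)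
    rwa [← Real.rpow_mul (norm_nonneg _), mul_one_div_cancel hk.ne', Real.rpow_one] at h6
  have h5 := Real.rpow_le_rpow (norm_nonneg z) h4 hk.le
  rwa [← Real.rpow_mul hS, one_div_mul_cancel hk.ne', Real.rpow_one] at h5

lemma sum_le_sup {m : ℕ} {k : ℝ} (hk : 0 < k) (z : Fin m → ℂ) : ∑ j, ‖z j‖ ^ k ≤ m * ‖z‖ ^ k := by
  calc ∑ j, ‖z j‖ ^ k ≤ ∑ _j : Fin m, ‖z‖ ^ k :=
        Finset.sum_le_sum fun j _ => Real.rpow_le_rpow (norm_nonneg _) (norm_le_pi_norm z j) hk.le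
    _ = m * ‖z‖ ^ k := by rw [Finset.sum_const, Finset.card_univ, Fintype.card_fin, nsmul_eq_mul]

theorem hom_mod {m : ℕ} {k : ℝ} (hk : 0 < k) {Φ : (Fin m → ℂ) → ℝ} (hc : Continuous Φ)
    (hh : Pool.Agent.V11128.CXL.Hom k Φ) {η : ℝ} (hη : 0 < η) :
    ∃ C : ℝ, 0 < C ∧ ∀ z w : Fin m → ℂ, |Φ z - Φ w| ≤ η * (∑ j, ‖w j‖ ^ k) + C * ∑ j, ‖z j - w j‖ ^ k := by
  obtain ⟨C0, hC0, hbd⟩ := Pool.Agent.V11128.CXL.hom_bound hk hc hh
  have huc := (isCompact_closedBall (0 : Fin m → ℂ) 2).uniformContinuousOn_of_continuous hc.continuousOn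
  rw [Metric.uniformContinuousOn_iff_le] at huc
  obtain ⟨ρ0, hρ0, huc⟩ := huc η hη
  set ρ := min ρ0 1 with hρ
  have hρp : 0 < ρ := lt_min hρ0 one_pos
  have hρ1 : ρ ≤ 1 := min_le_right _ _
  refine ⟨C0 * (m + 1) * ((1 + 1 / ρ) ^ k + (1 / ρ) ^ k) + C0 + 1, by positivity, fun z w => ?_⟩
  have hSw : 0 ≤ ∑ j, ‖w j‖ ^ k := Finset.sum_nonneg fun j _ => Real.rpow_nonneg (norm_nonneg _) _
  have hSd : 0 ≤ ∑ j, ‖z j - w j‖ ^ k := Finset.sum_nonneg fun j _ => Real.rpow_nonneg (norm_nonneg _) _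
  have hMp : 0 ≤ C0 * (m + 1) * ((1 + 1 / ρ) ^ k + (1 / ρ) ^ k) := by positivity
  rcases eq_or_ne w 0 with hw | hw
  · have h0 : Φ w = 0 := by
      have h1 := hh 0 w
      rw [norm_zero, Real.zero_rpow hk.ne', zero_mul] at h1
      rw [← h1, hw]
      congr 1
      funext j; simp
    rw [h0, sub_zero]
    have h1 := hbd z
    have h2 : ∑ j, ‖z j - w j‖ ^ k = ∑ j, ‖z j‖ ^ k := by rw [hw]; simp
    rw [h2] at hSd ⊢
    nlinarith [mul_nonneg hη.le hSw, mul_nonneg hMp hSd]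
  · have hr : 0 < ‖w‖ := norm_pos_iff.2 hw
    set r := ‖w‖ with hrdef
    have hrc : ((r : ℝ) : ℂ) ≠ 0 := by exact_mod_cast hr.ne'
    rcases lt_or_ge ‖z - w‖ (ρ * r) with hd | hd
    · have hscale : ∀ v : Fin m → ℂ, Φ v = r ^ k * Φ (fun j => ((r : ℝ) : ℂ)⁻¹ * v j) := by
        intro v
        have h1 := hh ((r : ℝ) : ℂ) (fun j => ((r : ℝ) : ℂ)⁻¹ * v j)
        have e : (fun j => ((r : ℝ) : ℂ) * (((r : ℝ) : ℂ)⁻¹ * v j)) = v := by
          funext j
          rw [← mul_assoc, mul_inv_cancel₀ hrc, one_mul]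
        rw [e, Complex.norm_real, Real.norm_eq_abs, abs_of_pos hr] at h1
        exact h1
      have hnorm : ∀ v : Fin m → ℂ, ‖(fun j => ((r : ℝ) : ℂ)⁻¹ * v j)‖ = r⁻¹ * ‖v‖ := by
        intro v
        have : (fun j => ((r : ℝ) : ℂ)⁻¹ * v j) = ((r : ℝ) : ℂ)⁻¹ • v := by
          funext j; simp
        rw [this, norm_smul, norm_inv, Complex.norm_real, Real.norm_eq_abs, abs_of_pos hr]
      have hw1 : ‖(fun j => ((r : ℝ) : ℂ)⁻¹ * w j)‖ = 1 := by
        rw [hnorm, ← hrdef, inv_mul_cancel₀ hr.ne']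
      have hzw : ‖(fun j => ((r : ℝ) : ℂ)⁻¹ * z j) - (fun j => ((r : ℝ) : ℂ)⁻¹ * w j)‖ ≤ ρ := by
        have e : (fun j => ((r : ℝ) : ℂ)⁻¹ * z j) - (fun j => ((r : ℝ) : ℂ)⁻¹ * w j) =
            fun j => ((r : ℝ) : ℂ)⁻¹ * (z - w) j := by
          funext j; simp; ring
        rw [e, hnorm, inv_mul_le_iff₀ hr]
        linarith
      have h1 := huc (fun j => ((r : ℝ) : ℂ)⁻¹ * z j) (by
          rw [Metric.mem_closedBall, dist_zero_right]
          have := norm_le_norm_add_norm_sub' (fun j => ((r : ℝ) : ℂ)⁻¹ * z j) (fun j => ((r : ℝ) : ℂ)⁻¹ * w j)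
          linarith)
        (fun j => ((r : ℝ) : ℂ)⁻¹ * w j) (by
          rw [Metric.mem_closedBall, dist_zero_right, hw1]; norm_num)
        (by rw [dist_eq_norm]; exact hzw.trans (min_le_left _ _))
      rw [Real.dist_eq] at h1
      have h2 : |Φ z - Φ w| ≤ η * r ^ k := by
        rw [hscale z, hscale w, ← mul_sub, abs_mul, abs_of_nonneg (by positivity), mul_comm]
        exact mul_le_mul_of_nonneg_right h1 (by positivity)
      have h3 : r ^ k ≤ ∑ j, ‖w j‖ ^ k := sup_le_sum hk w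
      have h4 : η * r ^ k ≤ η * ∑ j, ‖w j‖ ^ k := mul_le_mul_of_nonneg_left h3 hη.le
      have h5 : 0 ≤ (C0 * (m + 1) * ((1 + 1 / ρ) ^ k + (1 / ρ) ^ k) + C0 + 1) * ∑ j, ‖z j - w j‖ ^ k := by positivity
      linarith
    · have h1 := hbd z
      have h2 := hbd w
      have h3 := sum_le_sup hk z
      have h4 := sum_le_sup hk w
      set D := ‖z - w‖ with hD
      have hD0 : 0 ≤ D := norm_nonneg _
      have hrD : r ≤ 1 / ρ * D := by
        rw [one_div, ← div_eq_inv_mul, le_div_iff₀ hρp]; linarith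
      have hzD : ‖z‖ ≤ (1 + 1 / ρ) * D := by
        have := norm_le_norm_add_norm_sub' z w
        linarith
      have h5 : ‖z‖ ^ k ≤ (1 + 1 / ρ) ^ k * D ^ k := by
        rw [← Real.mul_rpow (by positivity) hD0]
        exact Real.rpow_le_rpow (norm_nonneg _) hzD hk.le
      have h6 : r ^ k ≤ (1 / ρ) ^ k * D ^ k := by
        rw [← Real.mul_rpow (by positivity) hD0]
        exact Real.rpow_le_rpow hr.le hrD hk.le
      have h7 : D ^ k ≤ ∑ j, ‖z j - w j‖ ^ k := sup_le_sum hk (z - w)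
      have h8 : |Φ z - Φ w| ≤ C0 * (m * ((1 + 1 / ρ) ^ k * D ^ k)) + C0 * (m * ((1 / ρ) ^ k * D ^ k)) := by
        have hm : (0 : ℝ) ≤ m := Nat.cast_nonneg m
        calc |Φ z - Φ w| ≤ |Φ z| + |Φ w| := abs_sub _ _
          _ ≤ C0 * (m * ‖z‖ ^ k) + C0 * (m * r ^ k) :=
              add_le_add (h1.trans (mul_le_mul_of_nonneg_left h3 hC0)) (h2.trans (mul_le_mul_of_nonneg_left h4 hC0))
          _ ≤ _ := by gcongr
      have h9 : C0 * (m * ((1 + 1 / ρ) ^ k * D ^ k)) + C0 * (m * ((1 / ρ) ^ k * D ^ k)) ≤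
          C0 * (m + 1) * ((1 + 1 / ρ) ^ k + (1 / ρ) ^ k) * D ^ k := by
        have : 0 ≤ C0 * ((1 + 1 / ρ) ^ k + (1 / ρ) ^ k) * D ^ k := by positivity
        nlinarith
      have h10 : C0 * (m + 1) * ((1 + 1 / ρ) ^ k + (1 / ρ) ^ k) * D ^ k ≤
          C0 * (m + 1) * ((1 + 1 / ρ) ^ k + (1 / ρ) ^ k) * ∑ j, ‖z j - w j‖ ^ k :=
        mul_le_mul_of_nonneg_left h7 hMp
      nlinarith [mul_nonneg hη.le hSw, mul_nonneg hC0 hSd]


/-- approximation in the mean for all admissible lengths -/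
lemma two_seq (A : (ℝ → ℕ) → ℝ → ℝ) (key : ∀ ε : ℝ, 0 < ε → ∃ l : ℝ, ∀ N : ℝ → ℕ, Adm N →
    ∃ B : ℝ → ℝ, Tendsto B atTop (𝓝 l) ∧ ∀ᶠ T in atTop, |A N T - B T| ≤ ε) :
    ∃ l : ℝ, ∀ N : ℝ → ℕ, Adm N → Tendsto (A N) atTop (𝓝 l) := by
  have conv : ∀ N : ℝ → ℕ, Adm N → ∃ l : ℝ, Tendsto (A N) atTop (𝓝 l) := by
    intro N hN
    refine conv_of_approx' _ fun ε hε => ?_
    obtain ⟨l, hl⟩ := key ε hε
    obtain ⟨B, hB, hB'⟩ := hl N hN
    exact ⟨B, ⟨l, hB⟩, hB'⟩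
  obtain ⟨N0, hN0⟩ := exists_adm
  obtain ⟨l, hl⟩ := conv N0 hN0
  refine ⟨l, fun N hN => ?_⟩
  obtain ⟨l', hl'⟩ := conv N hN
  have e : l' = l := by
    refine eq_of_forall_dist_le fun ε hε => ?_
    obtain ⟨l1, h1⟩ := key (ε / 2) (by positivity)
    obtain ⟨B, hB, hB'⟩ := h1 N hN
    obtain ⟨B0, hB0, hB0'⟩ := h1 N0 hN0
    have a1 : |l' - l1| ≤ ε / 2 := le_of_tendsto (hl'.sub hB).abs hB'
    have a2 : |l - l1| ≤ ε / 2 := le_of_tendsto (hl.sub hB0).abs hB0'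
    rw [Real.dist_eq]
    rw [abs_le] at *
    constructor <;> linarith [a1.1, a1.2, a2.1, a2.2]
  rwa [e] at hl'

/-- delayed choices are admissible -/
lemma Adm.delay {N : ℝ → ℕ} (h : Adm N) : Adm (fun T => N (T - 1)) := by
  have h0 : Tendsto (fun T : ℝ => T - 1) atTop atTop := tendsto_atTop_add_const_right _ (-1) tendsto_id
  refine ⟨h.1.comp h0, ?_⟩
  have h1 := h.2.comp h0
  refine squeeze_zero_norm' ?_ h1
  filter_upwards [(h.1.comp h0).eventually_ge_atTop 2, eventually_gt_atTop 3] with T h2 h3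
  have h4 : 0 < Real.log (N (T - 1)) := Real.log_pos (by
    simp only [Function.comp] at h2
    exact_mod_cast h2)
  have h5 : 0 < Real.log (T - 1) := Real.log_pos (by linarith)
  have h6 : Real.log (T - 1) ≤ Real.log T := Real.log_le_log (by linarith) (by linarith)
  have h7 : 0 < Real.log T := by linarith
  simp only [Function.comp]
  rw [Real.norm_of_nonneg (div_nonneg h4.le h7.le)]
  exact div_le_div_of_nonneg_left h4.le h5 h6

lemma ev_shift {P : ℝ → Prop} (h : ∀ᶠ T in atTop, P T) : ∀ᶠ T in atTop, P (T + 1) :=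
  (tendsto_atTop_add_const_right atTop (1 : ℝ) tendsto_id).eventually h

lemma SS_delay {k : ℝ} (hk : 1 < k) (N : ℝ → ℕ) {T : ℝ} (hT : 1 ≤ T) :
    SS k (fun T => N (T - 1)) (T + 1) ≤ 2 * SS k N T := by
  have hk0 : 0 < k := by linarith
  have hX : 0 ≤ (2 * dl (N T)) ^ (-((k / 2) ^ 2)) := Real.rpow_nonneg (by
    have := dl_nonneg (N T); positivity) _
  unfold SS
  simp only [add_sub_cancel_right]
  have h1 : (T + 1) * (2 * dl (N T)) ^ (-((k / 2) ^ 2)) ≤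
      2 * (T * (2 * dl (N T)) ^ (-((k / 2) ^ 2))) := by
    nlinarith
  refine (Real.rpow_le_rpow (by positivity) h1 (by positivity)).trans ?_
  rw [Real.mul_rpow (by norm_num) (by positivity)]
  refine mul_le_mul_of_nonneg_right ?_ (by positivity)
  calc (2 : ℝ) ^ (1 / k) ≤ 2 ^ (1 : ℝ) := Real.rpow_le_rpow_of_exponent_le (by norm_num) (by
        rw [div_le_one hk0]; exact hk.le)
    _ = 2 := Real.rpow_one 2

/-- shifting a function to the right costs nothing -/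
lemma shift_le {k : ℝ} (hk : 1 < k) {N : ℝ → ℕ} (hN : Adm N) {F : ℕ → ℝ → ℂ}
    (hF : ∀ n, dl n < 1 / 2 → Continuous (F n)) {u C : ℝ} (hu : 0 ≤ u) (hC : 0 ≤ C)
    (h : ∀ N : ℝ → ℕ, Adm N → ∀ᶠ T in atTop, nI k 0 T (F (N T)) ≤ C * SS k N T) :
    ∀ᶠ T in atTop, nI k 0 T (fun t => F (N T) (t + u * dl (N T))) ≤ 2 * C * SS k N T := by
  have hk0 : 0 < k := by linarith
  have h1 := ev_shift (h _ hN.delay)
  have h2 : Tendsto (fun T => u * dl (N T)) atTop (𝓝 0) := by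
    have := hN.delta.const_mul u
    rwa [mul_zero] at this
  filter_upwards [h1, h2.eventually (gt_mem_nhds one_pos), hN.delta.eventually
    (gt_mem_nhds (show (0 : ℝ) < 1 / 2 by norm_num)), eventually_ge_atTop 1] with T h3 h4 h5 h6
  have e : T + 1 - 1 = T := by ring
  rw [e] at h3
  rw [nI_shift k 0 T (u * dl (N T)) (F (N T))]
  have h7 : 0 ≤ u * dl (N T) := mul_nonneg hu (dl_nonneg _)
  calc nI k (0 + u * dl (N T)) (T + u * dl (N T)) (F (N T)) ≤ nI k 0 (T + 1) (F (N T)) :=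
        nI_mono_set hk0 (hF _ h5) (by linarith) (by linarith)
    _ ≤ C * SS k (fun T => N (T - 1)) (T + 1) := h3
    _ ≤ C * (2 * SS k N T) := mul_le_mul_of_nonneg_left (SS_delay hk N h6) hC
    _ = _ := by ring

lemma cmb_shift {n : ℕ} (w : Fin n → ℂ) (a : Fin n → ℝ) (u δ t : ℝ) :
    cmb w a δ (t + u * δ) = cmb w (fun j => a j + u) δ t := by
  unfold cmb
  exact Finset.sum_congr rfl fun j _ => by rw [zc_shift]

/-- boundedness of the moments of the partial sums -/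
lemma DN_up {k : ℝ} (hk : 1 < k) (hk4 : k ≤ 4) : ∃ C : ℝ, 0 < C ∧ ∀ N : ℝ → ℕ, Adm N →
    ∀ᶠ T in atTop, nI k 0 T (DN (N T)) ≤ C * SS k N T := by
  obtain ⟨l, hl⟩ := DN_lim hk hk4
  refine ⟨|l| + 1, by positivity, fun N hN => ?_⟩
  filter_upwards [(hl N hN).eventually (gt_mem_nhds (show l < |l| + 1 by
    have := le_abs_self l; linarith)), SS_pos (by linarith : 0 < k) hN] with T h1 h2
  rw [div_lt_iff₀ h2] at h1
  exact h1.le

/-- the integrals of a homogeneous function -/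
lemma int_hom_sub {m : ℕ} {k η C : ℝ} (hk : 0 < k) {Φ : (Fin m → ℂ) → ℝ} (hc : Continuous Φ)
    (H : ∀ z w : Fin m → ℂ, |Φ z - Φ w| ≤ η * (∑ j, ‖w j‖ ^ k) + C * ∑ j, ‖z j - w j‖ ^ k)
    {X Y : Fin m → ℝ → ℂ} (hX : ∀ j, Continuous (X j)) (hY : ∀ j, Continuous (Y j)) (T : ℝ) :
    |(∫ t in Set.Icc 0 T, Φ (fun j => Y j t)) - ∫ t in Set.Icc 0 T, Φ (fun j => X j t)| ≤
      η * (∑ j, nI k 0 T (X j) ^ k) + C * ∑ j, nI k 0 T (fun t => Y j t - X j t) ^ k := by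
  have cX : Continuous fun t => Φ (fun j => X j t) := hc.comp (continuous_pi hX)
  have cY : Continuous fun t => Φ (fun j => Y j t) := hc.comp (continuous_pi hY)
  have c1 : ∀ j, Continuous fun t => ‖X j t‖ ^ k := fun j => cont_rpow (hX j) hk.le
  have c2 : ∀ j, Continuous fun t => ‖Y j t - X j t‖ ^ k := fun j =>
    cont_rpow ((hY j).sub (hX j)) hk.le
  rw [← integral_sub (intOn cY 0 T) (intOn cX 0 T)]
  refine (abs_integral_le_integral_abs).trans ?_
  have h1 : ∫ t in Set.Icc 0 T, |Φ (fun j => Y j t) - Φ (fun j => X j t)| ≤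
      ∫ t in Set.Icc 0 T, (η * (∑ j, ‖X j t‖ ^ k) + C * ∑ j, ‖Y j t - X j t‖ ^ k) := by
    refine setIntegral_mono_on (intOn (cY.sub cX).abs 0 T) (intOn ?_ 0 T) measurableSet_Icc
      fun t _ => H _ _
    exact (continuous_const.mul (continuous_finsetSum _ fun j _ => c1 j)).add
      (continuous_const.mul (continuous_finsetSum _ fun j _ => c2 j))
  refine h1.trans (le_of_eq ?_)
  have i1 : IntegrableOn (fun t => η * ∑ j, ‖X j t‖ ^ k) (Set.Icc 0 T) :=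
    intOn (continuous_const.mul (continuous_finsetSum _ fun j _ => c1 j)) 0 T
  have i2 : IntegrableOn (fun t => C * ∑ j, ‖Y j t - X j t‖ ^ k) (Set.Icc 0 T) :=
    intOn (continuous_const.mul (continuous_finsetSum _ fun j _ => c2 j)) 0 T
  rw [integral_add i1 i2,
    integral_const_mul, integral_const_mul, integral_finsetSum _ fun j _ => intOn (c1 j) 0 T,
    integral_finsetSum _ fun j _ => intOn (c2 j) 0 T]
  simp_rw [nI_rpow hk]

theorem hom_seq {k : ℝ} (hk : 1 < k) (hk4 : k ≤ 4) {m : ℕ} {u : Fin m → ℝ} (hu : ∀ j, 0 ≤ u j)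
    {Φ : (Fin m → ℂ) → ℝ} (hc : Continuous Φ) (hh : Hom k Φ) : ∃ l : ℝ, ∀ N : ℝ → ℕ, Adm N →
    Tendsto (fun T : ℝ => (2 * dl (N T)) ^ ((k / 2) ^ 2) / T *
      ∫ t in Set.Icc 0 T, Φ (fun j => DN (N T) (t + u j * dl (N T)))) atTop (𝓝 l) := by
  have hk0 : 0 < k := by linarith
  obtain ⟨C0, hC0, hup⟩ := DN_up hk hk4
  have happ := app_DN hk hk4
  refine two_seq (fun N T => (2 * dl (N T)) ^ ((k / 2) ^ 2) / T *
      ∫ t in Set.Icc 0 T, Φ (fun j => DN (N T) (t + u j * dl (N T)))) fun ε hε => ?_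
  -- parameters
  set η : ℝ := ε / (2 * (m * (2 * C0) ^ k + 1)) with hη
  have hη0 : 0 < η := by positivity
  obtain ⟨K, hK, H⟩ := hom_mod hk0 hc hh hη0
  set ε1 : ℝ := (ε / (2 * (K * m + 1))) ^ (1 / k) / 2 with hε1
  have hε10 : 0 < ε1 := by positivity
  have hε1k : (2 * ε1) ^ k = ε / (2 * (K * m + 1)) := by
    rw [hε1, mul_div_cancel₀ _ (two_ne_zero' ℝ), ← Real.rpow_mul (by positivity),
      one_div_mul_cancel hk0.ne', Real.rpow_one]
  obtain ⟨n, w, a, Hn⟩ := happ ε1 hε10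
  -- the limit for the combinations
  set e := (finProdFinEquiv : Fin m × Fin n ≃ Fin (m * n)) with he
  set a' : Fin (m * n) → ℝ := fun q => a (e.symm q).2 + u (e.symm q).1 with ha'
  set Ψ : (Fin (m * n) → ℂ) → ℝ := fun z => Φ (fun j => ∑ i, w i * z (e (j, i))) with hΨ
  have hΨc : Continuous Ψ := hc.comp (continuous_pi fun j =>
    continuous_finsetSum _ fun i _ => continuous_const.mul (continuous_apply _))
  have hΨh : Hom k Ψ := by
    intro l z
    have h1 := hh l (fun j => ∑ i, w i * z (e (j, i)))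
    simp only [hΨ]
    rw [← h1]
    congr 1
    funext j
    rw [Finset.mul_sum]
    exact Finset.sum_congr rfl fun i _ => by ring
  obtain ⟨l, hl⟩ := hom_lim hk0 hk4 a' Ψ hΨc hΨh
  refine ⟨l, fun N hN => ⟨_, hl _ hN.delta hN.L, ?_⟩⟩
  have g1 : ∀ j : Fin m, ∀ᶠ T in atTop,
      nI k 0 T (fun t => DN (N T) (t + u j * dl (N T))) ≤ 2 * C0 * SS k N T := fun j =>
    shift_le hk hN (F := DN) (fun n _ => continuous_DN n) (hu j) hC0.le hup
  have g2 : ∀ j : Fin m, ∀ᶠ T in atTop,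
      nI k 0 T (fun t => DN (N T) (t + u j * dl (N T)) - cmb w (fun i => a i + u j) (dl (N T)) t) ≤
        2 * ε1 * SS k N T := fun j => by
    have h1 := shift_le hk hN (F := fun n t => DN n t - cmb w a (dl n) t)
      (fun n hn => (continuous_DN n).sub (cmb_cont w a hn)) (hu j) hε10.le Hn
    filter_upwards [h1] with T h2
    simp_rw [cmb_shift] at h2
    exact h2
  filter_upwards [eventually_all.2 g1, eventually_all.2 g2, SS_pos hk0 hN, hN.pos,
    hN.delta.eventually (gt_mem_nhds (show (0 : ℝ) < 1 / 2 by norm_num)),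
    eventually_gt_atTop 0] with T h1 h2 h3 h4 h5 h6
  have e1 : (fun t => Ψ (fun q => zc (dl (N T)) (a' q) t)) =
      fun t => Φ (fun j => cmb w (fun i => a i + u j) (dl (N T)) t) := by
    funext t
    simp only [hΨ, ha', Equiv.symm_apply_apply]
    rfl
  rw [e1, ← mul_sub, abs_mul, abs_sub_comm]
  have h7 := int_hom_sub hk0 hc H (X := fun j t => DN (N T) (t + u j * dl (N T)))
    (Y := fun j t => cmb w (fun i => a i + u j) (dl (N T)) t)
    (fun j => (continuous_DN _).comp (continuous_id.add continuous_const))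
    (fun j => cmb_cont w _ h5) T
  have hS0 := h3.le
  have h8 : ∑ j : Fin m, nI k 0 T (fun t => DN (N T) (t + u j * dl (N T))) ^ k ≤
      m * ((2 * C0) ^ k * SS k N T ^ k) := by
    calc _ ≤ ∑ _j : Fin m, (2 * C0) ^ k * SS k N T ^ k := by
          refine Finset.sum_le_sum fun j _ => ?_
          rw [← Real.mul_rpow (by positivity) hS0]
          exact Real.rpow_le_rpow (nI_nonneg _ _ _ _) (h1 j) hk0.le
      _ = _ := by rw [Finset.sum_const, Finset.card_univ, Fintype.card_fin, nsmul_eq_mul]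
  have h9 : ∑ j : Fin m, nI k 0 T (fun t => cmb w (fun i => a i + u j) (dl (N T)) t -
      DN (N T) (t + u j * dl (N T))) ^ k ≤ m * ((2 * ε1) ^ k * SS k N T ^ k) := by
    calc _ ≤ ∑ _j : Fin m, (2 * ε1) ^ k * SS k N T ^ k := by
          refine Finset.sum_le_sum fun j _ => ?_
          rw [← Real.mul_rpow (by positivity) hS0, nI_sub_comm]
          exact Real.rpow_le_rpow (nI_nonneg _ _ _ _) (h2 j) hk0.le
      _ = _ := by rw [Finset.sum_const, Finset.card_univ, Fintype.card_fin, nsmul_eq_mul]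
  have h10 : |(∫ t in Set.Icc 0 T, Φ (fun j => cmb w (fun i => a i + u j) (dl (N T)) t)) -
      ∫ t in Set.Icc 0 T, Φ (fun j => DN (N T) (t + u j * dl (N T)))| ≤ ε * SS k N T ^ k := by
    refine h7.trans ?_
    have hSk : 0 ≤ SS k N T ^ k := Real.rpow_nonneg hS0 _
    have a1 := mul_le_mul_of_nonneg_left h8 hη0.le
    have a2 := mul_le_mul_of_nonneg_left h9 hK.le
    rw [hε1k] at a2
    have a3 : η * (m * ((2 * C0) ^ k * SS k N T ^ k)) ≤ ε / 2 * SS k N T ^ k := by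
      rw [← mul_assoc, ← mul_assoc]
      refine mul_le_mul_of_nonneg_right ?_ hSk
      rw [hη, div_mul_eq_mul_div, div_mul_eq_mul_div, div_le_div_iff₀ (by positivity) (by norm_num)]
      have : 0 ≤ (m : ℝ) * (2 * C0) ^ k := by positivity
      nlinarith
    have a4 : K * (m * (ε / (2 * (K * m + 1)) * SS k N T ^ k)) ≤ ε / 2 * SS k N T ^ k := by
      rw [← mul_assoc, ← mul_assoc]
      refine mul_le_mul_of_nonneg_right ?_ hSk
      rw [mul_div_assoc', div_le_div_iff₀ (by positivity) (by norm_num)]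
      have : 0 ≤ K * m := by positivity
      nlinarith
    linarith
  rw [SS_rpow hk0 N h6.le] at h10
  have hp : 0 < (2 * dl (N T)) ^ ((k / 2) ^ 2) := Real.rpow_pos_of_pos (by positivity) _
  rw [abs_of_pos (div_pos hp h6), abs_sub_comm]
  rw [abs_sub_comm] at h10
  rw [Real.rpow_neg (by positivity)] at h10
  calc (2 * dl (N T)) ^ ((k / 2) ^ 2) / T * _ ≤
        (2 * dl (N T)) ^ ((k / 2) ^ 2) / T * (ε * (T * ((2 * dl (N T)) ^ ((k / 2) ^ 2))⁻¹)) :=
        mul_le_mul_of_nonneg_left h10 (by positivity)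
    _ = ε := by field_simp

/-- the normalised means of a homogeneous function of shifted partial sums -/
noncomputable def mh (k : ℝ) {m : ℕ} (u : Fin m → ℝ) (Φ : (Fin m → ℂ) → ℝ) (N : ℕ) (T : ℝ) : ℝ :=
  (1 / T * ∫ t in (0 : ℝ)..T, Φ (fun j => DN N (t + u j / Real.log N))) /
    Real.log N ^ (k ^ 2 / 4)

theorem hom_unif {k : ℝ} (hk : 1 < k) (hk4 : k ≤ 4) {m : ℕ} {u : Fin m → ℝ} (hu : ∀ j, 0 ≤ u j)
    {Φ : (Fin m → ℂ) → ℝ} (hc : Continuous Φ) (hh : Hom k Φ) : ∃ c : ℝ, ∀ ε : ℝ, 0 < ε →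
    ∃ θ : ℝ, 0 < θ ∧ ∃ N0 : ℕ, ∀ N : ℕ, N0 ≤ N → ∀ T : ℝ,
      (N : ℝ) ^ (1 / θ) ≤ T → |mh k u Φ N T - c| ≤ ε := by
  obtain ⟨l, hl⟩ := hom_seq hk hk4 hu hc hh
  refine ⟨l / 2 ^ (k ^ 2 / 4), unif (mh k u Φ) _ fun N hN => ?_⟩
  refine ((hl N hN).div_const _).congr' ?_
  filter_upwards [hN.two, eventually_gt_atTop 0, hN.pos, hN.logpos] with T h1 h2 h3 h4
  unfold mh
  rw [intervalIntegral.integral_of_le h2.le, ← integral_Icc_eq_integral_Ioc]
  have e0 : ∀ j t, t + u j / Real.log (N T) = t + u j * dl (N T) := fun j t => by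
    unfold dl; ring
  simp_rw [e0]
  have e1 : (2 * dl (N T)) ^ ((k / 2) ^ 2) =
      2 ^ (k ^ 2 / 4) / Real.log (N T) ^ (k ^ 2 / 4) := by
    rw [Real.mul_rpow (by norm_num) h3.le]
    unfold dl
    have e2 : (k / 2) ^ 2 = k ^ 2 / 4 := by ring
    rw [e2, one_div, Real.inv_rpow h4.le]
    ring
  rw [e1]
  have h5 : 0 < Real.log (N T) ^ (k ^ 2 / 4) := Real.rpow_pos_of_pos h4 _
  have h6 : (0 : ℝ) < 2 ^ (k ^ 2 / 4) := by positivity
  generalize (∫ t in Set.Icc 0 T, Φ fun j => DN (N T) (t + u j * dl (N T))) = I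
  field_simp

end Pool.Agent.H7.PT
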