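import Pool.Agent.H7.PT.P13
import Pool.Agent.H7.PU.U7

set_option autoImplicit false
open MeasureTheory Metric Filter ProbabilityTheory
open scoped ComplexConjugate ENNReal Topology ContDiff

/-! The constant. -/

namespace Pool.Agent.H7.PT

open Pool.Agent.H7.PM (dl dl_pos dl_nonneg dl_tendsto DN continuous_DN mean_DN nrm SN nrm_rpow DPol)
open Pool.Agent.H7.PU (Lm SF aS main_f)

lemma SF_one : SF (1 : ℕ →* ℂ) = SN := by
  funext N z
  unfold SF SN DPol
  exact Finset.sum_congr rfl fun n _ => by simp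

/-- the uniform theorem with the constant of the pseudomoments -/
theorem main_const {k : ℝ} (hk : 1 < k) (hk4 : k ≤ 4) {c : ℝ} (hL : Lm k (SF (1 : ℕ →* ℂ)) c) :
    ∀ ε : ℝ, 0 < ε → ∃ θ : ℝ, 0 < θ ∧ ∃ N0 : ℕ, ∀ N : ℕ, N0 ≤ N → ∀ T : ℝ,
      (N : ℝ) ^ (1 / θ) ≤ T → |mn k N T - c| ≤ ε := by
  obtain ⟨c', -, h1, h2⟩ := main_unif hk
  have e : c' = c := by
    refine tendsto_nhds_unique h1 ?_
    unfold Lm at hL
    rw [SF_one] at hL
    refine hL.congr fun N => ?_
    rw [nrm_rpow (by linarith)]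
    rfl
  rw [← e]
  exact h2 hk4

end Pool.Agent.H7.PT
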