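import Pool.Agent.H7.PT.P13

set_option autoImplicit false
open MeasureTheory Metric Filter ProbabilityTheory
open scoped ComplexConjugate ENNReal Topology ContDiff

/-! The remainder of the smooth approximation on a longer interval. -/

namespace Pool.Agent.H7.PT

open Pool.Agent.H7.PM (dl dl_pos dl_nonneg dl_tendsto log_dl stf nat_cpow yn yn_pos yn_le_one
  yn_ge_iff DPol DN fJ fa bp bp_re EE_c approx_fJ continuous_DN)
open Pool.Agent.V11128.CXL

lemma err_small2 {k : ℝ} (hk : 1 < k) {N : ℝ → ℕ} (hN : Adm N) {ε : ℝ} (hε : 0 < ε) :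
    ∀ᶠ T in atTop, 1000 * ((N T ^ 2 : ℕ) : ℝ) ^ 2 / Real.sqrt T *
      (T + Real.sqrt T - (0 - Real.sqrt T) + Real.sqrt T) ^ (1 / k) ≤ ε * SS k N T := by
  filter_upwards [err_small hk hN (show 0 < ε / 4 by positivity), eventually_ge_atTop 1]
    with T h1 h2
  have hT0 : 0 < T := by linarith
  have hk1 : 1 / k ≤ 1 := by rw [div_le_one (by linarith)]; exact hk.le
  have hk2 : 0 ≤ 1 / k := by have : 0 < k := by linarith
                             positivity
  have hs0 : 0 < Real.sqrt T := Real.sqrt_pos.2 hT0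
  have h3 : (T + Real.sqrt T - (0 - Real.sqrt T) + Real.sqrt T) ^ (1 / k) ≤
      4 * (T - 0 + Real.sqrt T) ^ (1 / k) := by
    calc _ ≤ (4 * (T - 0 + Real.sqrt T)) ^ (1 / k) :=
          Real.rpow_le_rpow (by linarith) (by linarith) hk2
      _ = 4 ^ (1 / k) * (T - 0 + Real.sqrt T) ^ (1 / k) :=
          Real.mul_rpow (by norm_num) (by linarith)
      _ ≤ 4 ^ (1 : ℝ) * (T - 0 + Real.sqrt T) ^ (1 / k) := by
          refine mul_le_mul_of_nonneg_right ?_ (Real.rpow_nonneg (by linarith) _)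
          exact Real.rpow_le_rpow_of_exponent_le (by norm_num) hk1
      _ = _ := by rw [Real.rpow_one]
  have h4 : 0 ≤ 1000 * ((N T ^ 2 : ℕ) : ℝ) ^ 2 / Real.sqrt T := by positivity
  have h5 := mul_le_mul_of_nonneg_left h3 h4
  linarith

/-- the part close to the cut is small -/
lemma wc_small2 {k : ℝ} (hk : 1 < k) {N : ℝ → ℕ} (hN : Adm N) {J : ℕ} (hJ : 1 ≤ J) (L : ℝ)
    {η : ℝ} (hη : 0 < η)
    (h0 : ∀ᶠ T in atTop, nI k (-(T + 1) / 2) (3 / 2 * T) (fun t => (((1 / (J : ℝ)) *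
        ∑ m : Fin J, ‖VV (gw 0) (N T) (t + (m : ℕ) * L * dl (N T))‖ : ℝ) : ℂ)) ≤ η * SS k N T)
    (h1 : ∀ᶠ T in atTop, nI k (-(T + 1) / 2) (3 / 2 * T) (fun t => (((1 / (J : ℝ)) *
        ∑ m : Fin J, ‖VV (gw 1) (N T) (t + (m : ℕ) * (2 * L) * dl (N T))‖ : ℝ) : ℂ)) ≤
        η * SS k N T) :
    ∀ᶠ T in atTop, nI k (0 - Real.sqrt T - Real.sqrt T) (T + Real.sqrt T + Real.sqrt T)
      (QP (Finset.Icc 1 (N T ^ 2)) (wc (fun m : Fin J => (m : ℕ) * L) (N T))) ≤
      (2 * Real.exp 1 + Real.exp 2) * (η * SS k N T) := by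
  have hk0 : 0 < k := by linarith
  filter_upwards [h0, h1, eventually_ge_atTop 16] with T h2 h3 h4
  set u : Fin J → ℝ := fun m => (m : ℕ) * L with hu
  have hT0 : 0 < T := by linarith
  have hs1 : Real.sqrt T ≤ T / 4 := by
    rw [Real.sqrt_le_left (by positivity)]
    nlinarith
  refine (nI_mono_set hk0 (continuous_QP _ _) (a' := -(T + 1) / 2) (b' := 3 / 2 * T)
    (by linarith) (by linarith)).trans ?_
  set A : ℝ → ℝ := fun t => (1 / (J : ℝ)) *
    ∑ m : Fin J, ‖VV (gw 0) (N T) (t + (m : ℕ) * L * dl (N T))‖ with hA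
  set B : ℝ → ℝ := fun t => (1 / (J : ℝ)) *
    ∑ m : Fin J, ‖VV (gw 1) (N T) (t + (m : ℕ) * (2 * L) * dl (N T))‖ with hB
  have hAc : Continuous A := continuous_const.mul (continuous_finsetSum _ fun m _ =>
    ((VV_cont _ _).comp (continuous_id.add continuous_const)).norm)
  have hBc : Continuous B := continuous_const.mul (continuous_finsetSum _ fun m _ =>
    ((VV_cont _ _).comp (continuous_id.add continuous_const)).norm)
  have hA0 : ∀ t, 0 ≤ A t := fun t => by positivity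
  have hB0 : ∀ t, 0 ≤ B t := fun t => by positivity
  have hpt : ∀ t, ‖QP (Finset.Icc 1 (N T ^ 2)) (wc u (N T)) t‖ ≤
      2 * Real.exp 1 * A t + Real.exp 2 * B t := by
    intro t
    rw [QP_wc, Finset.sum_sub_distrib, mul_sub]
    refine (norm_sub_le _ _).trans (add_le_add ?_ ?_)
    · refine (sum_le_of_mul hJ _ (2 * Real.exp 1) (fun m => ?_) _).trans ?_
      · rw [norm_mul, Complex.norm_exp, bp_re]
        simp
      · exact le_rfl
    · refine (sum_le_of_mul hJ _ (Real.exp 2) (fun m => ?_) _).trans ?_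
      · rw [Complex.norm_exp, bp_re]
      · refine mul_le_mul_of_nonneg_left ?_ (Real.exp_pos 2).le
        refine le_of_eq ?_
        simp only [hB]
        congr 1
        refine Finset.sum_congr rfl fun m _ => ?_
        simp only [hu]
        congr 3
        ring
  have hc1 : Continuous fun t => (2 * Real.exp 1 : ℂ) * (A t : ℂ) :=
    continuous_const.mul (Complex.continuous_ofReal.comp hAc)
  have hc2 : Continuous fun t => (Real.exp 2 : ℂ) * (B t : ℂ) :=
    continuous_const.mul (Complex.continuous_ofReal.comp hBc)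
  have e1 : ∀ t, ((2 * Real.exp 1 : ℂ) * (A t : ℂ) + (Real.exp 2 : ℂ) * (B t : ℂ)) =
      ((2 * Real.exp 1 * A t + Real.exp 2 * B t : ℝ) : ℂ) := by
    intro t
    push_cast
    rfl
  have m1 := nI_mono hk0 (a := -(T + 1) / 2) (b := 3 / 2 * T)
    (F := QP (Finset.Icc 1 (N T ^ 2)) (wc u (N T))) (continuous_QP _ _)
    (addc hc1 hc2) fun t _ => by
      have h5 : 0 ≤ 2 * Real.exp 1 * A t + Real.exp 2 * B t := by
        have := hA0 t
        have := hB0 t
        have := Real.exp_pos 1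
        have := Real.exp_pos 2
        positivity
      rw [e1, Complex.norm_real, Real.norm_of_nonneg h5]
      exact hpt t
  have m2 := nI_add_le hk.le (-(T + 1) / 2) (3 / 2 * T) hc1 hc2
  rw [nI_const_mul hk0, nI_const_mul hk0] at m2
  have n1 : ‖(2 * Real.exp 1 : ℂ)‖ = 2 * Real.exp 1 := by
    rw [norm_mul, Complex.norm_real, Real.norm_of_nonneg (Real.exp_pos 1).le]
    simp
  have n2 : ‖(Real.exp 2 : ℂ)‖ = Real.exp 2 := by
    rw [Complex.norm_real, Real.norm_of_nonneg (Real.exp_pos 2).le]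
  rw [n1, n2] at m2
  have e3 : 0 ≤ 2 * Real.exp 1 := by positivity
  have e4 := (Real.exp_pos 2).le
  have m3 := mul_le_mul_of_nonneg_left h2 e3
  have m4 := mul_le_mul_of_nonneg_left h3 e4
  calc _ ≤ _ := m1
    _ ≤ _ := m2
    _ ≤ 2 * Real.exp 1 * (η * SS k N T) + Real.exp 2 * (η * SS k N T) := add_le_add m3 m4
    _ = _ := by ring

/-- the coefficients of the difference between the sharp sum and its smooth approximation -/
noncomputable def rr {d : ℕ} (h : Fin (d + 1) → ℂ) (N n : ℕ) : ℂ :=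
  (if n ≤ N then (n : ℂ) ^ (-(1 / 2) : ℂ) else 0) -
    ∑ j : Fin (d + 1), h j * ((yn N n : ℂ) ^ (j : ℕ) * bc N n)

theorem raw {k : ℝ} (hk : 1 < k) (hk4 : k ≤ 4) {ε : ℝ} (hε : 0 < ε) :
    ∃ (d : ℕ) (h : Fin (d + 1) → ℂ), ∀ N : ℝ → ℕ, Adm N → ∀ᶠ T in atTop,
      nI k (0 - Real.sqrt T) (T + Real.sqrt T) (QP (Finset.Icc 1 (N T ^ 2)) (rr h (N T))) ≤
        ε * SS k N T := by
  have hk0 : 0 < k := by linarith
  obtain ⟨C1, hC1, H1⟩ := multT k hk
  obtain ⟨C2, hC2, H2⟩ := rieszT k hk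
  obtain ⟨C0, hC0, H0⟩ := VV_up hk hk4 0
  set W : ℝ := 2 * Real.exp 1 + Real.exp 2 with hW
  have hW0 : 0 < W := by have := Real.exp_pos 1; have := Real.exp_pos 2; positivity
  -- parameters
  set η : ℝ := ε / (4 * (C2 + 1) * W) with hη
  have hη0 : 0 < η := by positivity
  obtain ⟨n0, w0, a0, Q0⟩ := avg_small hk hk4 0 hη0
  obtain ⟨n1, w1, a1, Q1⟩ := avg_small hk hk4 1 hη0
  have hw0 : 0 ≤ ∑ i, ‖w0 i‖ := Finset.sum_nonneg fun i _ => norm_nonneg _
  have hw1 : 0 ≤ ∑ i, ‖w1 i‖ := Finset.sum_nonneg fun i _ => norm_nonneg _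
  set η' : ℝ := η / (2 * (∑ i, ‖w0 i‖ + ∑ i, ‖w1 i‖ + 1)) with hη'
  have hη'0 : 0 < η' := by positivity
  have hb0 : (∑ i, ‖w0 i‖) * η' ≤ η / 2 := by
    rw [hη', mul_div_assoc', div_le_div_iff₀ (by positivity) (by norm_num)]
    nlinarith
  have hb1 : (∑ i, ‖w1 i‖) * η' ≤ η / 2 := by
    rw [hη', mul_div_assoc', div_le_div_iff₀ (by positivity) (by norm_num)]
    nlinarith
  obtain ⟨J, hJ, L, hL, HD⟩ := decor' hk hk4 hη'0
  have R0 := Q0 η' hη'0 hb0 J hJ L fun i N hN => HD (a0 i) L (le_abs_self L) N hN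
  have R1 := Q1 η' hη'0 hb1 J hJ (2 * L) fun i N hN => HD (a1 i) (2 * L)
    (by rw [abs_of_pos (by positivity)]; linarith) N hN
  set u : Fin J → ℝ := fun m => (m : ℕ) * L with hu
  set ε1 : ℝ := min 1 (ε / (4 * (1 + C1) * (C0 + 1))) with hε1
  have hε10 : 0 < ε1 := lt_min one_pos (by positivity)
  have hε11 : ε1 ≤ 1 := min_le_left _ _
  have hε12 : ε1 ≤ ε / (4 * (1 + C1) * (C0 + 1)) := min_le_right _ _
  obtain ⟨d, h, hd⟩ := approx_fJ (fun m => bp 1 (u m)) ε1 hε10
  refine ⟨d, h, fun N hN => ?_⟩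
  set ε2 : ℝ := ε / (4 * (W + 1)) with hε2
  have hε20 : 0 < ε2 := by positivity
  filter_upwards [wc_small2 hk hN hJ L hη0 (R0 N hN) (R1 N hN), H0 N hN, err_small2 hk hN hε20,
    hN.two, eventually_ge_atTop 16] with T g1 g2 g3 g4 g5
  have hT0 : 0 < T := by linarith
  have hS := SS_nonneg k N hT0.le
  have hN1 : 1 ≤ N T := by omega
  set K := N T ^ 2 with hK
  have hK1 : 1 ≤ K := Nat.one_le_pow _ _ (by omega)
  have hNK : N T ≤ K := by rw [hK]; nlinarith
  have hs1 : Real.sqrt T ≤ T / 4 := by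
    rw [Real.sqrt_le_left (by positivity)]
    nlinarith
  have hs2 : 1 ≤ Real.sqrt T := by
    rw [Real.one_le_sqrt]; linarith
  set S := Finset.Icc 1 K with hSdef
  have hn0 : ∀ n ∈ S, n ≠ 0 := fun n hn => by have := (Finset.mem_Icc.1 hn).1; omega
  set g : ℝ → ℂ := fun y => (if y ≤ Real.exp (-1) then 0 else fJ (fun m => bp 1 (u m)) y) -
    ∑ j, h j * (y : ℂ) ^ (j : ℕ) with hg
  set c1 : ℕ → ℂ := fun n => g (yn (N T) n) with hc1
  set F1 : ℝ → ℂ := QP S (fun n => c1 n * bc (N T) n) with hF1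
  set F2 : ℝ → ℂ := QP S (fun n => if n ≤ N T then wc u (N T) n else 0) with hF2
  have hid : ∀ t, QP S (rr h (N T)) t = F1 t + F2 t := by
    intro t
    rw [hF1, hF2, ← QP_add]
    refine QP_congr (fun n hn => ?_) t
    unfold rr
    rw [key_id' hJ u g4 n (hn0 n hn)]
    simp only [hc1, hg]
    have e2 : ∑ j : Fin (d + 1), h j * ((yn (N T) n : ℂ) ^ (j : ℕ) * bc (N T) n) =
        (∑ j : Fin (d + 1), h j * (yn (N T) n : ℂ) ^ (j : ℕ)) * bc (N T) n := by
      rw [Finset.sum_mul]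
      exact Finset.sum_congr rfl fun j _ => by ring
    rw [e2]
    ring
  have hfun : QP S (rr h (N T)) = fun t => F1 t + F2 t := funext hid
  rw [hfun]
  refine (nI_add_le hk.le _ _ (continuous_QP _ _) (continuous_QP _ _)).trans ?_
  -- the first part
  have hbV : ∀ t, QP S (bc (N T)) t = VV (gw 0) (N T) t := by
    intro t
    rw [VV_eq]
    exact QP_congr (fun n _ => by rw [pow_zero, one_mul]) t
  have hxy : 0 - Real.sqrt T ≤ T + Real.sqrt T := by linarith
  have p1 : nI k (0 - Real.sqrt T) (T + Real.sqrt T) F1 ≤ (ε1 + C1 * ε1) * (C0 * SS k N T) + ε1 * (ε2 * SS k N T) := by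
    have h2 := H1 K hK1 (bc (N T)) c1 (fun n hn => norm_bc (N T) n (hn0 n hn)) ε1 ε1
      (fun n => (hd 0 _ le_rfl (yn_pos _ _).le (yn_le_one _ _)).1) (by
        have h3 : ∀ n ∈ Finset.range K, ‖c1 (n + 1) - c1 n‖ ≤
            ε1 * (yn (N T) n - yn (N T) (n + 1)) := by
          intro n _
          rw [norm_sub_rev]
          exact (hd _ _ (yn_pos _ _).le (yn_succ _ _) (yn_le_one _ _)).2
        refine (Finset.sum_le_sum h3).trans ?_
        rw [← Finset.mul_sum, Finset.sum_range_sub']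
        have := yn_le_one (N T) 0
        have := yn_pos (N T) K
        nlinarith) (0 - Real.sqrt T) (T + Real.sqrt T) (Real.sqrt T) hxy hs2
    have h4 : nI k (0 - Real.sqrt T - Real.sqrt T) (T + Real.sqrt T + Real.sqrt T)
        (QP S (bc (N T))) ≤ C0 * SS k N T := by
      have e : QP S (bc (N T)) = VV (gw 0) (N T) := funext hbV
      rw [e]
      exact (nI_mono_set hk0 (VV_cont _ _) (by linarith) (by linarith)).trans g2
    refine h2.trans (add_le_add ?_ ?_)
    · exact mul_le_mul_of_nonneg_left h4 (by positivity)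
    · exact mul_le_mul_of_nonneg_left g3 hε10.le
  -- the second part
  have p2 : nI k (0 - Real.sqrt T) (T + Real.sqrt T) F2 ≤ C2 * (W * (η * SS k N T)) + W * (ε2 * SS k N T) := by
    have hWc : (W : ℂ) ≠ 0 := by exact_mod_cast hW0.ne'
    have hnW : ‖(W : ℂ)‖ = W := by rw [Complex.norm_real, Real.norm_of_nonneg hW0.le]
    have h2 := H2 K (N T) hK1 hNK (fun n => (W : ℂ)⁻¹ * wc u (N T) n) (fun n hn => by
      rw [norm_mul, norm_inv, hnW, inv_mul_le_iff₀ hW0, mul_one]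
      exact norm_wc hJ u (N T) n (hn0 n hn)) (0 - Real.sqrt T) (T + Real.sqrt T) (Real.sqrt T)
        hxy hs2
    have e3 : F2 = fun t => (W : ℂ) * QP S
        (fun n => if n ≤ N T then (W : ℂ)⁻¹ * wc u (N T) n else 0) t := by
      funext t
      rw [hF2, ← QP_smul]
      refine QP_congr (fun n _ => ?_) t
      split_ifs
      · field_simp
      · simp
    have e4 : QP S (fun n => (W : ℂ)⁻¹ * wc u (N T) n) =
        fun t => (W : ℂ)⁻¹ * QP S (wc u (N T)) t := by
      funext t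
      rw [QP_smul]
    rw [e3, nI_const_mul hk0, hnW]
    rw [e4, nI_const_mul hk0, norm_inv, hnW] at h2
    have h5 : W⁻¹ * nI k (0 - Real.sqrt T - Real.sqrt T) (T + Real.sqrt T + Real.sqrt T)
        (QP S (wc u (N T))) ≤
        W⁻¹ * (W * (η * SS k N T)) := mul_le_mul_of_nonneg_left g1 (by positivity)
    have h6 := mul_le_mul_of_nonneg_left h5 hC2
    calc W * nI k (0 - Real.sqrt T) (T + Real.sqrt T) (QP S (fun n => if n ≤ N T then (W : ℂ)⁻¹ * wc u (N T) n else 0)) ≤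
          W * (C2 * (W⁻¹ * (W * (η * SS k N T))) + ε2 * SS k N T) :=
          mul_le_mul_of_nonneg_left (h2.trans (add_le_add h6 g3)) hW0.le
      _ = _ := by field_simp
  -- conclusion
  have q1 : (ε1 + C1 * ε1) * C0 ≤ ε / 4 := by
    have h7 : ε1 * (4 * (1 + C1) * (C0 + 1)) ≤ ε := (le_div_iff₀ (by positivity)).1 hε12
    nlinarith [mul_nonneg hε10.le (show (0 : ℝ) ≤ 1 + C1 by positivity)]
  have q2 : ε1 * ε2 ≤ ε / 4 := by
    have h8 : ε2 ≤ ε / 4 := by
      rw [hε2, div_le_div_iff₀ (by positivity) (by norm_num)]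
      nlinarith
    nlinarith
  have q3 : C2 * (W * η) ≤ ε / 4 := by
    rw [hη]
    have : C2 * (W * (ε / (4 * (C2 + 1) * W))) = (C2 * ε) / (4 * (C2 + 1)) := by field_simp
    rw [this, div_le_div_iff₀ (by positivity) (by norm_num)]
    nlinarith
  have q4 : W * ε2 ≤ ε / 4 := by
    rw [hε2, mul_div_assoc', div_le_div_iff₀ (by positivity) (by norm_num)]
    nlinarith
  have r1 := mul_le_mul_of_nonneg_right q1 hS
  have r2 := mul_le_mul_of_nonneg_right q2 hS
  have r3 := mul_le_mul_of_nonneg_right q3 hS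
  have r4 := mul_le_mul_of_nonneg_right q4 hS
  nlinarith

end Pool.Agent.H7.PT
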