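import Pool.Agent.H7.PT.P16

set_option autoImplicit false
open MeasureTheory Metric Filter ProbabilityTheory
open scoped ComplexConjugate ENNReal Topology ContDiff

/-! Multipliers; lengths `N^b`. -/

namespace Pool.Agent.H7.PT

open Pool.Agent.H7.PM (dl dl_pos dl_nonneg dl_tendsto log_dl stf nat_cpow yn yn_pos yn_le_one
  yn_ge_iff DPol DN fJ fa bp bp_re EE_c approx_fJ continuous_DN)
open Pool.Agent.V11128.CXL

lemma norm_rr {d : ℕ} (h : Fin (d + 1) → ℂ) (N n : ℕ) (hn : n ≠ 0) :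
    ‖rr h N n‖ ≤ 1 + ∑ j, ‖h j‖ := by
  unfold rr
  have hn1 : (1 : ℝ) ≤ n := by exact_mod_cast Nat.one_le_iff_ne_zero.2 hn
  refine (norm_sub_le _ _).trans (add_le_add ?_ ?_)
  · split_ifs
    · rw [← Complex.ofReal_natCast, Complex.norm_cpow_eq_rpow_re_of_pos (by linarith)]
      exact Real.rpow_le_one_of_one_le_of_nonpos hn1 (by norm_num)
    · simp
  · refine (norm_sum_le _ _).trans (Finset.sum_le_sum fun j _ => ?_)
    have hb := norm_bc N n hn
    have hy : ‖(yn N n : ℂ)‖ ≤ 1 := by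
      rw [Complex.norm_real, Real.norm_of_nonneg (yn_pos N n).le]; exact yn_le_one N n
    rw [norm_mul, norm_mul, norm_pow]
    have h1 : ‖(yn N n : ℂ)‖ ^ (j : ℕ) ≤ 1 := pow_le_one₀ (norm_nonneg _) hy
    have h2 : ‖(yn N n : ℂ)‖ ^ (j : ℕ) * ‖bc N n‖ ≤ 1 := mul_le_one₀ h1 (norm_nonneg _) hb
    exact mul_le_of_le_one_right (norm_nonneg _) h2

/-- multipliers of bounded variation, applied to the remainder -/
theorem mul_raw {k : ℝ} (hk : 1 < k) (hk4 : k ≤ 4) {A A' ε : ℝ} (hA : 0 ≤ A) (hA' : 0 ≤ A')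
    (hε : 0 < ε) : ∃ (d : ℕ) (h : Fin (d + 1) → ℂ), ∀ (N : ℝ → ℕ) (p : ℝ → ℕ → ℂ), Adm N →
      (∀ T n, ‖p T n‖ ≤ A) →
      (∀ᶠ T in atTop, ∑ n ∈ Finset.range (N T ^ 2), ‖p T (n + 1) - p T n‖ ≤ A') →
      ∀ᶠ T in atTop, nI k 0 T (QP (Finset.Icc 1 (N T ^ 2)) (fun n => p T n * rr h (N T) n)) ≤
        ε * SS k N T := by
  have hk0 : 0 < k := by linarith
  obtain ⟨C1, hC1, H1⟩ := multT k hk
  have hε1 : 0 < ε / (2 * (A + C1 * A' + 1)) := by positivity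
  obtain ⟨d, h, H⟩ := raw hk hk4 hε1
  set B : ℝ := 1 + ∑ j, ‖h j‖ with hB
  have hB0 : 0 < B := by
    have : 0 ≤ ∑ j, ‖h j‖ := Finset.sum_nonneg fun j _ => norm_nonneg _
    linarith
  have hBc : (B : ℂ) ≠ 0 := by exact_mod_cast hB0.ne'
  have hnB : ‖(B : ℂ)‖ = B := by rw [Complex.norm_real, Real.norm_of_nonneg hB0.le]
  refine ⟨d, h, fun N p hN hp hv => ?_⟩
  have hε2 : 0 < ε / (2 * (B * A' + 1)) := by positivity
  filter_upwards [H N hN, hv, err_small hk hN hε2, hN.two, eventually_ge_atTop 1]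
    with T g1 g2 g3 g4 g5
  have hT0 : 0 < T := by linarith
  have hS := SS_nonneg k N hT0.le
  have hK1 : 1 ≤ N T ^ 2 := Nat.one_le_pow _ _ (by omega)
  have hs2 : 1 ≤ Real.sqrt T := by
    rw [Real.one_le_sqrt]; linarith
  have h1 := H1 (N T ^ 2) hK1 (fun n => (B : ℂ)⁻¹ * rr h (N T) n) (p T) (fun n hn => by
      rw [norm_mul, norm_inv, hnB, inv_mul_le_iff₀ hB0, mul_one]
      exact norm_rr h (N T) n (by have := (Finset.mem_Icc.1 hn).1; omega))
    A A' (hp T) g2 0 T (Real.sqrt T) hT0.le hs2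
  have e1 : QP (Finset.Icc 1 (N T ^ 2)) (fun n => p T n * rr h (N T) n) = fun t =>
      (B : ℂ) * QP (Finset.Icc 1 (N T ^ 2)) (fun n => p T n * ((B : ℂ)⁻¹ * rr h (N T) n)) t := by
    funext t
    rw [← QP_smul]
    refine QP_congr (fun n _ => ?_) t
    field_simp
  have e2 : QP (Finset.Icc 1 (N T ^ 2)) (fun n => (B : ℂ)⁻¹ * rr h (N T) n) = fun t =>
      (B : ℂ)⁻¹ * QP (Finset.Icc 1 (N T ^ 2)) (rr h (N T)) t := by
    funext t
    rw [QP_smul]
  rw [e1, nI_const_mul hk0, hnB]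
  rw [e2, nI_const_mul hk0, norm_inv, hnB] at h1
  have hAC : 0 ≤ A + C1 * A' := by positivity
  have h2 : B * nI k 0 T (QP (Finset.Icc 1 (N T ^ 2))
      (fun n => p T n * ((B : ℂ)⁻¹ * rr h (N T) n))) ≤
      (A + C1 * A') * nI k (0 - Real.sqrt T) (T + Real.sqrt T)
        (QP (Finset.Icc 1 (N T ^ 2)) (rr h (N T))) + B * A' *
        (1000 * ((N T ^ 2 : ℕ) : ℝ) ^ 2 / Real.sqrt T * (T - 0 + Real.sqrt T) ^ (1 / k)) := by
    calc _ ≤ B * _ := mul_le_mul_of_nonneg_left h1 hB0.le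
      _ = _ := by field_simp
  refine h2.trans ?_
  have h3 := mul_le_mul_of_nonneg_left g1 hAC
  have h4 := mul_le_mul_of_nonneg_left g3 (show 0 ≤ B * A' by positivity)
  have h5 : (A + C1 * A') * (ε / (2 * (A + C1 * A' + 1)) * SS k N T) ≤ ε / 2 * SS k N T := by
    rw [← mul_assoc]
    refine mul_le_mul_of_nonneg_right ?_ hS
    rw [mul_div_assoc', div_le_div_iff₀ (by positivity) (by norm_num)]
    nlinarith
  have h6 : B * A' * (ε / (2 * (B * A' + 1)) * SS k N T) ≤ ε / 2 * SS k N T := by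
    rw [← mul_assoc]
    refine mul_le_mul_of_nonneg_right ?_ hS
    rw [mul_div_assoc', div_le_div_iff₀ (by positivity) (by norm_num)]
    have : 0 ≤ B * A' := by positivity
    nlinarith
  linarith

/-! ### Lengths -/

/-- the length `N^b` -/
noncomputable def fl (b : ℝ) (N : ℕ) : ℕ := ⌊(N : ℝ) ^ b⌋₊

lemma rpow_tendsto {b : ℝ} (hb : 0 < b) : Tendsto (fun N : ℕ => (N : ℝ) ^ b) atTop atTop :=
  (tendsto_rpow_atTop hb).comp tendsto_natCast_atTop_atTop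

lemma fl_tendsto {b : ℝ} (hb : 0 < b) : Tendsto (fl b) atTop atTop :=
  tendsto_nat_floor_atTop.comp (rpow_tendsto hb)

lemma fl_log_ratio {b : ℝ} (hb : 0 < b) :
    Tendsto (fun N : ℕ => Real.log (fl b N) / Real.log N) atTop (𝓝 b) := by
  have h1 : Tendsto (fun N : ℕ => (fl b N : ℝ) / (N : ℝ) ^ b) atTop (𝓝 1) :=
    (tendsto_nat_floor_div_atTop (R := ℝ)).comp (rpow_tendsto hb)
  have h2 : Tendsto (fun N : ℕ => Real.log ((fl b N : ℝ) / (N : ℝ) ^ b)) atTop (𝓝 0) := by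
    have := h1.log one_ne_zero
    rwa [Real.log_one] at this
  have h3 : Tendsto (fun N : ℕ => (Real.log N)⁻¹) atTop (𝓝 0) :=
    (Real.tendsto_log_atTop.comp tendsto_natCast_atTop_atTop).inv_tendsto_atTop
  have h4 := (h2.mul h3).const_add b
  rw [mul_zero, add_zero] at h4
  refine h4.congr' ?_
  filter_upwards [eventually_ge_atTop 2, (fl_tendsto hb).eventually_ge_atTop 1] with N hN hf
  have hN0 : (0 : ℝ) < N := by exact_mod_cast (by omega : 0 < N)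
  have hl : 0 < Real.log N := Real.log_pos (by exact_mod_cast (by omega : 1 < N))
  have hf0 : (0 : ℝ) < fl b N := by exact_mod_cast (by omega : 0 < fl b N)
  rw [Real.log_div hf0.ne' (by positivity), Real.log_rpow hN0]
  field_simp
  ring

lemma fl_dl_ratio {b : ℝ} (hb : 0 < b) :
    Tendsto (fun N : ℕ => dl (fl b N) / dl N) atTop (𝓝 (1 / b)) := by
  have h := (fl_log_ratio hb).inv₀ hb.ne'
  rw [one_div]
  refine h.congr fun N => ?_
  unfold dl
  rw [inv_div, one_div, one_div, div_inv_eq_mul, mul_comm, div_eq_mul_inv]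

lemma Adm.fl {N : ℝ → ℕ} (hN : Adm N) {b : ℝ} (hb : 0 < b) : Adm (fun T => fl b (N T)) := by
  refine ⟨(fl_tendsto hb).comp hN.1, ?_⟩
  have h1 := ((fl_log_ratio hb).comp hN.1).mul hN.2
  rw [mul_zero] at h1
  refine h1.congr' ?_
  filter_upwards [hN.logpos] with T hT
  simp only [Function.comp]
  field_simp

lemma fl_le {b : ℝ} (N : ℕ) : (fl b N : ℝ) ≤ (N : ℝ) ^ b :=
  Nat.floor_le (Real.rpow_nonneg (Nat.cast_nonneg N) b)

lemma fl_sq_le {b : ℝ} (hb2 : b ≤ 1 / 2) {N : ℕ} (hN : 1 ≤ N) :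
    fl b N ^ 2 ≤ N := by
  have hN1 : (1 : ℝ) ≤ N := by exact_mod_cast hN
  have h1 : ((fl b N : ℝ)) ^ 2 ≤ N := by
    calc ((fl b N : ℝ)) ^ 2 ≤ ((N : ℝ) ^ b) ^ 2 := by
          have := fl_le (b := b) N
          gcongr
      _ = (N : ℝ) ^ (b * 2) := by
          rw [← Real.rpow_natCast, ← Real.rpow_mul (by linarith)]
          norm_num
      _ ≤ (N : ℝ) ^ (1 : ℝ) := Real.rpow_le_rpow_of_exponent_le hN1 (by linarith)
      _ = N := Real.rpow_one _
  exact_mod_cast h1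

lemma dl_le_fl {b : ℝ} (hb2 : b ≤ 1 / 2) {N : ℕ} (hN : 1 ≤ N) (hf : 2 ≤ fl b N) :
    2 * dl N ≤ dl (fl b N) := by
  have h1 := fl_sq_le hb2 hN
  have hf1 : (1 : ℝ) < fl b N := by exact_mod_cast (by omega : 1 < fl b N)
  have h2 : 2 * Real.log (fl b N) ≤ Real.log N := by
    have h3 : Real.log ((fl b N : ℝ) ^ 2) ≤ Real.log N :=
      Real.log_le_log (by positivity) (by exact_mod_cast h1)
    rwa [Real.log_pow, Nat.cast_ofNat] at h3
  have h3 := Real.log_pos hf1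
  unfold dl
  rw [mul_one_div, div_le_div_iff₀ (by linarith) h3]
  linarith

lemma SS_fl_le {k : ℝ} (hk : 0 < k) {b : ℝ} (hb2 : b ≤ 1 / 2) (N : ℝ → ℕ) {T : ℝ}
    (hT : 0 ≤ T) (hN : 2 ≤ N T) (hf : 2 ≤ fl b (N T)) :
    SS k (fun T => fl b (N T)) T ≤ SS k N T := by
  have h1 := dl_le_fl hb2 (by omega) hf
  have h2 := dl_pos hN
  unfold SS
  refine Real.rpow_le_rpow (mul_nonneg hT (Real.rpow_nonneg (by
    have := dl_nonneg (fl b (N T)); positivity) _)) ?_ (by positivity)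
  refine mul_le_mul_of_nonneg_left ?_ hT
  exact Real.rpow_le_rpow_of_nonpos (by positivity) (by linarith)
    (by have := sq_nonneg (k / 2); linarith)

/-! ### Variation -/

lemma tv_lip {P : ℝ → ℂ} {L : ℝ} (hP : ∀ x y, ‖P x - P y‖ ≤ L * |x - y|) (δ : ℝ) (hδ : 0 ≤ δ)
    {K : ℕ} : ∑ n ∈ Finset.range K,
      ‖P (δ * Real.log ((n + 1 : ℕ) : ℝ)) - P (δ * Real.log (n : ℝ))‖ ≤
        L * (δ * Real.log K) := by
  have hmono : ∀ n : ℕ, Real.log (n : ℝ) ≤ Real.log ((n + 1 : ℕ) : ℝ) := by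
    intro n
    rcases Nat.eq_zero_or_pos n with rfl | hn
    · simp
    · exact Real.log_le_log (by exact_mod_cast hn) (by push_cast; linarith)
  have h1 : ∀ n ∈ Finset.range K, ‖P (δ * Real.log ((n + 1 : ℕ) : ℝ)) -
      P (δ * Real.log (n : ℝ))‖ ≤
      L * (δ * Real.log ((n + 1 : ℕ) : ℝ) - δ * Real.log (n : ℝ)) := by
    intro n _
    refine (hP _ _).trans (le_of_eq ?_)
    rw [abs_of_nonneg]
    rw [← mul_sub]
    exact mul_nonneg hδ (sub_nonneg.2 (hmono n))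
  refine (Finset.sum_le_sum h1).trans (le_of_eq ?_)
  rw [← Finset.mul_sum, Finset.sum_range_sub (fun n : ℕ => δ * Real.log (n : ℝ))]
  simp

end Pool.Agent.H7.PT
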