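import Pool.Agent.H7.PT.P17

set_option autoImplicit false
open MeasureTheory Metric Filter ProbabilityTheory
open scoped ComplexConjugate ENNReal Topology ContDiff

/-! Weighted sums of length `N^b`. -/

namespace Pool.Agent.H7.PT

open Pool.Agent.H7.PM (dl dl_pos dl_nonneg dl_tendsto log_dl stf nat_cpow yn yn_pos yn_le_one
  yn_ge_iff DPol DN fJ fa bp bp_re EE_c approx_fJ continuous_DN)
open Pool.Agent.V11128.CXL

lemma app_VG {k : ℝ} (hk : 1 < k) (hk4 : k ≤ 4) {g : ℝ → ℂ} (hg : ContDiff ℝ ∞ g)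
    (hs : HasCompactSupport g) (hg2 : ∀ x, 2 ≤ x → g x = 0) : App k (VV g) := by
  intro ε hε
  obtain ⟨n, w, a, H⟩ := approx_V hk hk4 hg hs hg2 hε
  refine ⟨n, w, a, fun N hN => ?_⟩
  filter_upwards [H N hN, eventually_ge_atTop 0,
    hN.delta.eventually (gt_mem_nhds (show (0 : ℝ) < 1 / 2 by norm_num))] with T h1 h2 h3
  exact (nI_mono_set (by linarith) ((VV_cont _ _).sub (cmb_cont w a h3)) (by linarith)
    (by linarith)).trans h1

/-- second differences -/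
lemma E_diff {f f' : ℝ → ℂ} (hf : ∀ x, HasDerivAt f (f' x) x) {M1 M2 Λ : ℝ}
    (h1 : ∀ x, ‖f' x‖ ≤ M1) (h2 : ∀ x y, ‖f' x - f' y‖ ≤ M2 * |x - y|) (hM2 : 0 ≤ M2)
    {x y l μ : ℝ} (hx : 0 ≤ x) (hxy : x ≤ y) (hx2 : x ≤ 2) (hl : l ∈ Set.Icc 0 Λ)
    (hμ : μ ∈ Set.Icc 0 Λ) :
    ‖(f (l * y) - f (l * x)) - (f (μ * y) - f (μ * x))‖ ≤
      (M1 + 2 * Λ * M2) * (y - x) * |l - μ| := by
  have hM1 : 0 ≤ M1 := (norm_nonneg _).trans (h1 0)
  have hd : ∀ s ∈ Set.Icc 0 Λ, HasDerivWithinAt (fun s : ℝ => f (s * y) - f (s * x))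
      ((y : ℂ) * f' (s * y) - (x : ℂ) * f' (s * x)) (Set.Icc 0 Λ) s := by
    intro s _
    have e1 : HasDerivAt (fun s : ℝ => s * y) y s := by
      simpa using (hasDerivAt_id s).mul_const y
    have e2 : HasDerivAt (fun s : ℝ => s * x) x s := by
      simpa using (hasDerivAt_id s).mul_const x
    have e3 := (hf (s * y)).scomp s e1
    have e4 := (hf (s * x)).scomp s e2
    rw [Complex.real_smul] at e3 e4
    exact (e3.sub e4).hasDerivWithinAt
  have hb : ∀ s ∈ Set.Icc 0 Λ, ‖(y : ℂ) * f' (s * y) - (x : ℂ) * f' (s * x)‖ ≤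
      (M1 + 2 * Λ * M2) * (y - x) := by
    intro s hs
    have e1 : (y : ℂ) * f' (s * y) - (x : ℂ) * f' (s * x) =
        ((y - x : ℝ) : ℂ) * f' (s * y) + (x : ℂ) * (f' (s * y) - f' (s * x)) := by
      push_cast; ring
    rw [e1]
    refine (norm_add_le _ _).trans ?_
    rw [norm_mul, norm_mul, Complex.norm_real, Complex.norm_real,
      Real.norm_of_nonneg (sub_nonneg.2 hxy), Real.norm_of_nonneg hx]
    have e2 : ‖f' (s * y) - f' (s * x)‖ ≤ M2 * (Λ * (y - x)) := by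
      refine (h2 _ _).trans ?_
      rw [← mul_sub, abs_mul, abs_of_nonneg hs.1, abs_of_nonneg (sub_nonneg.2 hxy)]
      exact mul_le_mul_of_nonneg_left
        (mul_le_mul_of_nonneg_right hs.2 (sub_nonneg.2 hxy)) hM2
    have hΛ : 0 ≤ Λ := hs.1.trans hs.2
    have e3 : 0 ≤ M2 * (Λ * (y - x)) := by
      have := sub_nonneg.2 hxy
      positivity
    have e4 : x * ‖f' (s * y) - f' (s * x)‖ ≤ 2 * (M2 * (Λ * (y - x))) :=
      mul_le_mul hx2 e2 (norm_nonneg _) (by norm_num)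
    have e5 : (y - x) * ‖f' (s * y)‖ ≤ (y - x) * M1 :=
      mul_le_mul_of_nonneg_left (h1 _) (sub_nonneg.2 hxy)
    calc _ ≤ (y - x) * M1 + 2 * (M2 * (Λ * (y - x))) := add_le_add e5 e4
      _ = _ := by ring
  have h := (convex_Icc (0 : ℝ) Λ).norm_image_sub_le_of_norm_hasDerivWithin_le hd hb hμ hl
  rw [Real.norm_eq_abs] at h
  have e : (f (l * y) - f (l * x)) - (f (μ * y) - f (μ * x)) =
      (fun s : ℝ => f (s * y) - f (s * x)) l - (fun s : ℝ => f (s * y) - f (s * x)) μ := rfl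
  rw [e]
  exact h

/-- smooth functions of compact support -/
lemma smooth_data {f : ℝ → ℂ} (hf : ContDiff ℝ ∞ f) (hs : HasCompactSupport f) :
    ∃ M0 M1 M2 : ℝ, 0 ≤ M0 ∧ 0 ≤ M1 ∧ 0 ≤ M2 ∧ (∀ x, ‖f x‖ ≤ M0) ∧ (∀ x, ‖deriv f x‖ ≤ M1) ∧
      (∀ x y, ‖f x - f y‖ ≤ M1 * |x - y|) ∧ ∀ x y, ‖deriv f x - deriv f y‖ ≤ M2 * |x - y| := by
  have hd : ContDiff ℝ ∞ (deriv f) := by
    have := (contDiff_infty_iff_deriv.1 hf).2
    exact this
  have hd2 : ContDiff ℝ ∞ (deriv (deriv f)) := (contDiff_infty_iff_deriv.1 hd).2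
  obtain ⟨M0, hM0⟩ := hf.continuous.bounded_above_of_compact_support hs
  obtain ⟨M1, hM1⟩ := hd.continuous.bounded_above_of_compact_support hs.deriv
  obtain ⟨M2, hM2⟩ := hd2.continuous.bounded_above_of_compact_support hs.deriv.deriv
  have lip : ∀ (g : ℝ → ℂ) (M : ℝ), Differentiable ℝ g → (∀ x, ‖deriv g x‖ ≤ M) →
      ∀ x y, ‖g x - g y‖ ≤ M * |x - y| := by
    intro g M hg hM x y
    have h := convex_univ.norm_image_sub_le_of_norm_deriv_le (f := g) (C := M)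
      (s := Set.univ) (x := y) (y := x) (fun z _ => hg z) (fun z _ => hM z)
      (Set.mem_univ _) (Set.mem_univ _)
    rwa [Real.norm_eq_abs] at h
  exact ⟨M0, M1, M2, (norm_nonneg _).trans (hM0 0), (norm_nonneg _).trans (hM1 0),
    (norm_nonneg _).trans (hM2 0), hM0, hM1, lip f M1 (hf.differentiable (by simp)) hM1,
    lip (deriv f) M2 (hd.differentiable (by simp)) hM2⟩

/-- the smooth parts -/
noncomputable def UU (b : ℝ) (P : ℝ → ℂ) (j N : ℕ) (t : ℝ) : ℂ :=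
  QP (Finset.Icc 1 (fl b N ^ 2)) (fun n => P (dl N * Real.log n) *
    ((yn (fl b N) n : ℂ) ^ j * bc (fl b N) n)) t

/-- the multiplier between the smooth parts for the two lengths -/
noncomputable def mm (b : ℝ) (P : ℝ → ℂ) (j N n : ℕ) : ℂ :=
  P (dl N * Real.log n) * Complex.exp ((dl N * Real.log n : ℝ) : ℂ) *
    (gw (j + 1) (dl (fl b N) / dl N * (dl N * Real.log n)) - gw (j + 1) (1 / b * (dl N * Real.log n)))

lemma log_le_of_sq {b : ℝ} {N n : ℕ} (hf : 2 ≤ fl b N) (hn : fl b N ^ 2 ≤ n) :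
    2 ≤ dl (fl b N) * Real.log n := by
  have hf1 : (1 : ℝ) < fl b N := by exact_mod_cast (by omega : 1 < fl b N)
  have h3 := Real.log_pos hf1
  have h2 : 2 * Real.log (fl b N) ≤ Real.log n := by
    have h3 : Real.log ((fl b N : ℝ) ^ 2) ≤ Real.log n :=
      Real.log_le_log (by positivity) (by exact_mod_cast hn)
    rwa [Real.log_pow, Nat.cast_ofNat] at h3
  unfold dl
  rw [one_div, ← div_eq_inv_mul, le_div_iff₀ h3]
  exact h2

lemma bc_zero {b : ℝ} {N n : ℕ} (hf : 2 ≤ fl b N) (hn : fl b N ^ 2 ≤ n) : bc (fl b N) n = 0 := by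
  unfold bc
  rw [chi_zero (log_le_of_sq hf hn)]
  simp

/-- the identity between the coefficients -/
lemma UU_id {b : ℝ} (hb : 0 < b) (hb2 : b ≤ 1 / 2) (P : ℝ → ℂ) (j : ℕ) {N : ℕ} (hN : 2 ≤ N)
    (hf : 2 ≤ fl b N) (t : ℝ) :
    UU b P j N t - VV (fun x => P x * Complex.exp (x : ℂ) * gw (j + 1) (1 / b * x)) N t =
      QP (Finset.Icc 1 (N ^ 2)) (fun n => mm b P j N n * bc N n) t := by
  have hN1 : 1 ≤ N := by omega
  have hsq := fl_sq_le hb2 hN1
  have hdN := dl_pos hN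
  have hsub : Finset.Icc 1 (fl b N ^ 2) ⊆ Finset.Icc 1 (N ^ 2) :=
    Finset.Icc_subset_Icc_right (hsq.trans (by nlinarith))
  have e1 : UU b P j N t = QP (Finset.Icc 1 (N ^ 2)) (fun n => P (dl N * Real.log n) *
      ((yn (fl b N) n : ℂ) ^ j * bc (fl b N) n)) t := by
    unfold UU
    rw [QP_eq, QP_eq]
    refine Finset.sum_subset hsub fun n hn hn' => ?_
    have : fl b N ^ 2 ≤ n := by
      by_contra hc
      exact hn' (Finset.mem_Icc.2 ⟨(Finset.mem_Icc.1 hn).1, by omega⟩)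
    rw [bc_zero hf this]
    simp
  rw [e1, QP_eq, QP_eq]
  unfold VV
  rw [← Finset.sum_sub_distrib]
  refine Finset.sum_congr rfl fun n hn => ?_
  have hn0 : n ≠ 0 := by have := (Finset.mem_Icc.1 hn).1; omega
  have hn1 : 1 ≤ n := by omega
  have hnc : (n : ℂ) ≠ 0 := by exact_mod_cast hn0
  have hn1r : (1 : ℝ) ≤ n := by exact_mod_cast hn1
  have hlog : 0 ≤ Real.log n := Real.log_nonneg hn1r
  rw [sp_zero, neg_add, Complex.cpow_add _ _ hnc]
  set z := (n : ℂ) ^ (-(t * Complex.I)) with hz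
  set x := dl N * Real.log n with hx
  have hx0 : 0 ≤ x := mul_nonneg hdN.le hlog
  set B := (n : ℂ) ^ (-(1 / 2 + (dl N : ℂ))) with hB
  -- the coefficient of the first sum
  have ey : dl (fl b N) / dl N * x = dl (fl b N) * Real.log n := by
    rw [hx]; field_simp
  have e2 : (yn (fl b N) n : ℂ) ^ j * bc (fl b N) n = Complex.exp (x : ℂ) *
      gw (j + 1) (dl (fl b N) / dl N * x) * B := by
    rw [ey]
    unfold bc gw
    rw [yn_eq _ n hn0, hB, nat_cpow n hn0, nat_cpow n hn0, Complex.ofReal_exp,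
      ← Complex.exp_nat_mul]
    have e3 : Complex.exp (((j : ℕ) : ℂ) * ((-(dl (fl b N) * Real.log n) : ℝ) : ℂ)) *
        (((chi (dl (fl b N) * Real.log n) : ℝ) : ℂ) *
          Complex.exp ((Real.log n : ℂ) * -(1 / 2 + (dl (fl b N) : ℂ)))) =
        ((chi (dl (fl b N) * Real.log n) : ℝ) : ℂ) *
        (Complex.exp (((j : ℕ) : ℂ) * ((-(dl (fl b N) * Real.log n) : ℝ) : ℂ)) *
          Complex.exp ((Real.log n : ℂ) * -(1 / 2 + (dl (fl b N) : ℂ)))) := by ring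
    have e4 : Complex.exp (x : ℂ) * (((chi (dl (fl b N) * Real.log n) : ℝ) : ℂ) *
        Complex.exp (-(((j + 1 : ℕ) : ℂ) * ((dl (fl b N) * Real.log n : ℝ) : ℂ)))) *
          Complex.exp ((Real.log n : ℂ) * -(1 / 2 + (dl N : ℂ))) =
        ((chi (dl (fl b N) * Real.log n) : ℝ) : ℂ) *
        (Complex.exp (x : ℂ) * Complex.exp (-(((j + 1 : ℕ) : ℂ) *
          ((dl (fl b N) * Real.log n : ℝ) : ℂ))) *
          Complex.exp ((Real.log n : ℂ) * -(1 / 2 + (dl N : ℂ)))) := by ring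
    rw [e3, e4, ← Complex.exp_add, ← Complex.exp_add, ← Complex.exp_add]
    congr 2
    rw [hx]
    push_cast
    ring
  have e5 : P x * ((yn (fl b N) n : ℂ) ^ j * bc (fl b N) n) * z -
      P x * Complex.exp (x : ℂ) * gw (j + 1) (1 / b * x) * (B * z) =
      P x * Complex.exp (x : ℂ) * (gw (j + 1) (dl (fl b N) / dl N * x) -
        gw (j + 1) (1 / b * x)) * (B * z) := by
    rw [e2]; ring
  rw [e5]
  unfold mm bc
  rw [← hx, ← hB]
  rcases le_or_gt x 1 with h1 | h1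
  · rw [chi_one hx0 h1]
    push_cast
    ring
  · have g1 : 2 ≤ 1 / b * x := by
      have : 2 ≤ 1 / b := by
        rw [le_div_iff₀ hb]; linarith
      nlinarith
    have g2 : 2 ≤ dl (fl b N) / dl N * x := by
      have h2 := dl_le_fl hb2 hN1 hf
      have : 2 ≤ dl (fl b N) / dl N := by
        rw [le_div_iff₀ hdN]; linarith
      nlinarith
    rw [gw_zero _ _ g1, gw_zero _ _ g2]
    simp

end Pool.Agent.H7.PT
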