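import Pool.Agent.H7.PT.P18

set_option autoImplicit false
open MeasureTheory Metric Filter ProbabilityTheory
open scoped ComplexConjugate ENNReal Topology ContDiff

/-! Weighted sums of length `N^b` are approximated by combinations of shifted zeta values. -/

namespace Pool.Agent.H7.PT

open Pool.Agent.H7.PM (dl dl_pos dl_nonneg dl_tendsto log_dl stf nat_cpow yn yn_pos yn_le_one
  yn_ge_iff DPol DN fJ fa bp bp_re EE_c approx_fJ continuous_DN)
open Pool.Agent.V11128.CXL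

lemma mm_bounds {b : ℝ} (hb : 0 < b) (hb2 : b ≤ 1 / 2) {P : ℝ → ℂ} (hP : ContDiff ℝ ∞ P)
    (hPs : HasCompactSupport P) (j : ℕ) :
    ∃ c1 c2 : ℝ, 0 ≤ c1 ∧ 0 ≤ c2 ∧ ∀ N : ℕ, 2 ≤ N → 2 ≤ fl b N →
      dl (fl b N) / dl N ≤ 2 / b →
      (∀ n, ‖mm b P j N n‖ ≤ c1 * |dl (fl b N) / dl N - 1 / b|) ∧
      ∑ n ∈ Finset.range (N ^ 2), ‖mm b P j N (n + 1) - mm b P j N n‖ ≤
        c2 * |dl (fl b N) / dl N - 1 / b| := by
  set Q : ℝ → ℂ := fun x => P x * Complex.exp (x : ℂ) with hQ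
  have hQd : ContDiff ℝ ∞ Q := hP.mul (Complex.ofRealCLM.contDiff.cexp)
  have hQs : HasCompactSupport Q := hPs.mul_right
  obtain ⟨q0, q1, -, hq0, hq1, -, Q0, -, Q1, -⟩ := smooth_data hQd hQs
  set f := gw (j + 1) with hf
  obtain ⟨-, m1, m2, -, hm1, hm2, -, D1, D1', D2⟩ := smooth_data (gw_smooth (j + 1)) (gw_supp (j + 1))
  have hfd : ∀ x, HasDerivAt f (deriv f x) x := fun x =>
    ((gw_smooth (j + 1)).differentiable (by simp) x).hasDerivAt
  set Λ : ℝ := 2 / b with hΛ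
  have hΛ0 : 0 ≤ Λ := by positivity
  refine ⟨q0 * (2 * m1), 2 * (q0 * (m1 + 2 * Λ * m2) + q1 * (2 * m1)), by positivity,
    by positivity, fun N hN hfl hle => ?_⟩
  set l := dl (fl b N) / dl N with hl
  set μ := 1 / b with hμ
  have hN1 : 1 ≤ N := by omega
  have hdN := dl_pos hN
  have hμ2 : 2 ≤ μ := by
    rw [hμ, le_div_iff₀ hb]; linarith
  have hl2 : 2 ≤ l := by
    have h2 := dl_le_fl hb2 hN1 hfl
    rw [hl, le_div_iff₀ hdN]; linarith
  have hμΛ : μ ≤ Λ := by
    rw [hμ, hΛ]; gcongr; norm_num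
  set E : ℝ → ℂ := fun x => f (l * x) - f (μ * x) with hE
  have hE1 : ∀ x, 0 ≤ x → ‖E x‖ ≤ 2 * m1 * |l - μ| := by
    intro x hx
    rcases le_or_gt x 2 with h | h
    · have h3 := D1' (l * x) (μ * x)
      rw [← sub_mul, abs_mul, abs_of_nonneg hx] at h3
      refine h3.trans ?_
      have h4 : |l - μ| * x ≤ |l - μ| * 2 := mul_le_mul_of_nonneg_left h (abs_nonneg _)
      calc m1 * (|l - μ| * x) ≤ m1 * (|l - μ| * 2) := mul_le_mul_of_nonneg_left h4 hm1
        _ = _ := by ring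
    · have e1 : f (l * x) = 0 := gw_zero _ _ (by nlinarith)
      have e2 : f (μ * x) = 0 := gw_zero _ _ (by nlinarith)
      simp only [hE]
      rw [e1, e2, sub_zero, norm_zero]
      positivity
  have hx0 : ∀ n : ℕ, 0 ≤ dl N * Real.log n := fun n =>
    mul_nonneg hdN.le (Real.log_natCast_nonneg n)
  have hmm : ∀ n, mm b P j N n = Q (dl N * Real.log n) * E (dl N * Real.log n) := fun n => rfl
  constructor
  · intro n
    rw [hmm, norm_mul]
    calc ‖Q (dl N * Real.log n)‖ * ‖E (dl N * Real.log n)‖ ≤ q0 * (2 * m1 * |l - μ|) :=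
          mul_le_mul (Q0 _) (hE1 _ (hx0 n)) (norm_nonneg _) hq0
      _ = _ := by ring
  · have hmono : ∀ n : ℕ, Real.log (n : ℝ) ≤ Real.log ((n + 1 : ℕ) : ℝ) := by
      intro n
      rcases Nat.eq_zero_or_pos n with rfl | hn
      · simp
      · exact Real.log_le_log (by exact_mod_cast hn) (by push_cast; linarith)
    have hlN : dl N * Real.log ((N ^ 2 : ℕ) : ℝ) = 2 := by
      have h3 : 0 < Real.log (N : ℝ) := Real.log_pos (by exact_mod_cast (by omega : 1 < N))
      push_cast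
      rw [Real.log_pow]
      unfold dl
      push_cast
      field_simp
    have hstep : ∀ n ∈ Finset.range (N ^ 2), ‖mm b P j N (n + 1) - mm b P j N n‖ ≤
        ((q0 * (m1 + 2 * Λ * m2) + q1 * (2 * m1)) * |l - μ|) *
          (dl N * Real.log ((n + 1 : ℕ) : ℝ) - dl N * Real.log (n : ℝ)) := by
      intro n hn
      rw [hmm, hmm]
      set x := dl N * Real.log (n : ℝ) with hx
      set y := dl N * Real.log ((n + 1 : ℕ) : ℝ) with hy
      have hxy : x ≤ y := mul_le_mul_of_nonneg_left (hmono n) hdN.le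
      have hy2 : y ≤ 2 := by
        rw [← hlN, hy]
        refine mul_le_mul_of_nonneg_left (Real.log_le_log ?_ ?_) hdN.le
        · exact_mod_cast Nat.succ_pos n
        · exact_mod_cast Finset.mem_range.1 hn
      have e1 : Q y * E y - Q x * E x = Q y * ((f (l * y) - f (l * x)) - (f (μ * y) - f (μ * x))) +
          (Q y - Q x) * E x := by
        simp only [hE]
        ring
      rw [e1]
      refine (norm_add_le _ _).trans ?_
      rw [norm_mul (Q y), norm_mul (Q y - Q x)]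
      have h3 := E_diff hfd D1 D2 hm2 (hx0 n) hxy (hxy.trans hy2) (l := l) (μ := μ) (Λ := Λ)
        ⟨by linarith, hle⟩ ⟨by linarith, hμΛ⟩
      have h4 : ‖Q y‖ * ‖(f (l * y) - f (l * x)) - (f (μ * y) - f (μ * x))‖ ≤
          q0 * ((m1 + 2 * Λ * m2) * (y - x) * |l - μ|) :=
        mul_le_mul (Q0 y) h3 (norm_nonneg _) hq0
      have h5 : ‖Q y - Q x‖ ≤ q1 * (y - x) := by
        have := Q1 y x
        rwa [abs_of_nonneg (sub_nonneg.2 hxy)] at this
      have h6 : ‖Q y - Q x‖ * ‖E x‖ ≤ q1 * (y - x) * (2 * m1 * |l - μ|) :=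
        mul_le_mul h5 (hE1 x (hx0 n)) (norm_nonneg _)
          (mul_nonneg hq1 (sub_nonneg.2 hxy))
      calc _ ≤ q0 * ((m1 + 2 * Λ * m2) * (y - x) * |l - μ|) +
            q1 * (y - x) * (2 * m1 * |l - μ|) := add_le_add h4 h6
        _ = _ := by ring
    refine (Finset.sum_le_sum hstep).trans (le_of_eq ?_)
    rw [← Finset.mul_sum, Finset.sum_range_sub (fun n : ℕ => dl N * Real.log (n : ℝ)), hlN]
    simp
    ring

theorem app_UU {k : ℝ} (hk : 1 < k) (hk4 : k ≤ 4) {b : ℝ} (hb : 0 < b) (hb2 : b ≤ 1 / 2)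
    {P : ℝ → ℂ} (hP : ContDiff ℝ ∞ P) (hPs : HasCompactSupport P) (j : ℕ) :
    App k (UU b P j) := by
  refine app_of hk (fun N => continuous_QP _ _) fun ε hε => ?_
  have hk0 : 0 < k := by linarith
  set G : ℝ → ℂ := fun x => P x * Complex.exp (x : ℂ) * gw (j + 1) (1 / b * x) with hG
  have hGd : ContDiff ℝ ∞ G := by
    refine (hP.mul (Complex.ofRealCLM.contDiff.cexp)).mul ?_
    exact (gw_smooth (j + 1)).comp (contDiff_const.mul contDiff_id)
  have hGs : HasCompactSupport G := (hPs.mul_right).mul_right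
  have hG2 : ∀ x, 2 ≤ x → G x = 0 := by
    intro x hx
    have : 2 ≤ 1 / b * x := by
      have : 2 ≤ 1 / b := by
        rw [le_div_iff₀ hb]; linarith
      nlinarith
    simp only [hG]
    rw [gw_zero _ _ this, mul_zero]
  refine ⟨VV G, app_VG hk hk4 hGd hGs hG2, VV_cont G, fun N hN => ?_⟩
  obtain ⟨C1, hC1, H1⟩ := multT k hk
  obtain ⟨C0, hC0, H0⟩ := VV_up hk hk4 0
  obtain ⟨c1, c2, hc1, hc2, HM⟩ := mm_bounds hb hb2 hP hPs j
  have hratio : Tendsto (fun T => dl (fl b (N T)) / dl (N T)) atTop (𝓝 (1 / b)) :=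
    (fl_dl_ratio hb).comp hN.1
  have hD : Tendsto (fun T => ((c1 + C1 * c2) * C0 + c2) *
      |dl (fl b (N T)) / dl (N T) - 1 / b|) atTop (𝓝 0) := by
    have h1 := (hratio.sub_const (1 / b)).abs
    rw [sub_self, abs_zero] at h1
    have h2 := h1.const_mul ((c1 + C1 * c2) * C0 + c2)
    rwa [mul_zero] at h2
  have hlt : 1 / b < 2 / b := by gcongr; norm_num
  filter_upwards [H0 N hN, err_small hk hN one_pos, hN.two,
    (hN.fl hb).two, eventually_ge_atTop 4, hratio.eventually (gt_mem_nhds hlt),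
    hD.eventually (gt_mem_nhds hε)] with T g2 g3 g4 g5 g6 g7 g8
  have hT0 : 0 < T := by linarith
  have hS := SS_nonneg k N hT0.le
  obtain ⟨B1, B2⟩ := HM (N T) g4 g5 g7.le
  set D := |dl (fl b (N T)) / dl (N T) - 1 / b| with hDdef
  have hD0 : 0 ≤ D := abs_nonneg _
  have hs1 : Real.sqrt T ≤ T / 2 := by
    rw [Real.sqrt_le_left (by positivity)]
    nlinarith
  have hs2 : 1 ≤ Real.sqrt T := by
    rw [Real.one_le_sqrt]; linarith
  have hK1 : 1 ≤ N T ^ 2 := Nat.one_le_pow _ _ (by omega)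
  have efun : (fun t => UU b P j (N T) t - VV G (N T) t) =
      QP (Finset.Icc 1 (N T ^ 2)) (fun n => mm b P j (N T) n * bc (N T) n) :=
    funext fun t => UU_id hb hb2 P j g4 g5 t
  rw [efun]
  have h2 := H1 (N T ^ 2) hK1 (bc (N T)) (mm b P j (N T))
    (fun n hn => norm_bc (N T) n (by have := (Finset.mem_Icc.1 hn).1; omega))
    (c1 * D) (c2 * D) B1 B2 0 T (Real.sqrt T) hT0.le hs2
  have h4 : nI k (0 - Real.sqrt T) (T + Real.sqrt T) (QP (Finset.Icc 1 (N T ^ 2)) (bc (N T))) ≤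
      C0 * SS k N T := by
    have e : QP (Finset.Icc 1 (N T ^ 2)) (bc (N T)) = VV (gw 0) (N T) := by
      funext t
      rw [VV_eq]
      exact QP_congr (fun n _ => by rw [pow_zero, one_mul]) t
    rw [e]
    exact (nI_mono_set hk0 (VV_cont _ _) (by linarith) (by linarith)).trans g2
  have hcc : 0 ≤ c1 * D + C1 * (c2 * D) := by positivity
  have h5 := mul_le_mul_of_nonneg_left h4 hcc
  have h6 := mul_le_mul_of_nonneg_left g3 (show 0 ≤ c2 * D by positivity)
  refine (h2.trans (add_le_add h5 h6)).trans ?_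
  calc _ = (((c1 + C1 * c2) * C0 + c2) * D) * SS k N T := by ring
    _ ≤ ε * SS k N T := mul_le_mul_of_nonneg_right g8.le hS

/-- the weighted sums -/
noncomputable def WS (b : ℝ) (P : ℝ → ℂ) (N : ℕ) (t : ℝ) : ℂ :=
  ∑ n ∈ Finset.Icc 1 (fl b N), P (dl N * Real.log n) *
    (n : ℂ) ^ (-(1 / 2 + t * Complex.I) : ℂ)

lemma WS_cont (b : ℝ) (P : ℝ → ℂ) (N : ℕ) : Continuous (WS b P N) := by
  unfold WS
  refine continuous_finsetSum _ fun n hn => ?_
  have hn0 : (n : ℂ) ≠ 0 := by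
    exact_mod_cast (by have := (Finset.mem_Icc.1 hn).1; omega : n ≠ 0)
  refine continuous_const.mul (Continuous.const_cpow ?_ (Or.inl hn0))
  fun_prop

lemma WS_QP {b : ℝ} (P : ℝ → ℂ) {N : ℕ} (hf : 1 ≤ fl b N) (t : ℝ) :
    WS b P N t = QP (Finset.Icc 1 (fl b N ^ 2)) (fun n => P (dl N * Real.log n) *
      (if n ≤ fl b N then (n : ℂ) ^ (-(1 / 2) : ℂ) else 0)) t := by
  rw [QP_eq]
  unfold WS
  have hsub : Finset.Icc 1 (fl b N) ⊆ Finset.Icc 1 (fl b N ^ 2) :=
    Finset.Icc_subset_Icc_right (by nlinarith)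
  rw [← Finset.sum_subset hsub]
  · refine Finset.sum_congr rfl fun n hn => ?_
    have hn0 : n ≠ 0 := by have := (Finset.mem_Icc.1 hn).1; omega
    have hnc : (n : ℂ) ≠ 0 := by exact_mod_cast hn0
    rw [if_pos (Finset.mem_Icc.1 hn).2, mul_assoc, ← Complex.cpow_add _ _ hnc]
    congr 2
    ring
  · intro n hn hn'
    have : ¬ n ≤ fl b N := fun h => hn' (Finset.mem_Icc.2 ⟨(Finset.mem_Icc.1 hn).1, h⟩)
    rw [if_neg this]
    simp

theorem app_WS {k : ℝ} (hk : 1 < k) (hk4 : k ≤ 4) {b : ℝ} (hb : 0 < b) (hb2 : b ≤ 1 / 2)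
    {P : ℝ → ℂ} (hP : ContDiff ℝ ∞ P) (hPs : HasCompactSupport P) : App k (WS b P) := by
  refine app_of hk (WS_cont b P) fun ε hε => ?_
  have hk0 : 0 < k := by linarith
  obtain ⟨p0, p1, -, hp0, hp1, -, P0, -, P1, -⟩ := smooth_data hP hPs
  obtain ⟨d, h, H⟩ := mul_raw hk hk4 hp0 hp1 hε
  refine ⟨fun N t => ∑ j : Fin (d + 1), h j * UU b P (j : ℕ) N t,
    app_lin hk Finset.univ h (V := fun j N t => UU b P (j : ℕ) N t)
      (fun j N => continuous_QP _ _) (fun j => app_UU hk hk4 hb hb2 hP hPs (j : ℕ)),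
    fun N => continuous_finsetSum _ fun j _ => continuous_const.mul (continuous_QP _ _),
    fun N hN => ?_⟩
  have hN' := hN.fl hb
  have H' := H (fun T => fl b (N T)) (fun T n => P (dl (N T) * Real.log n)) hN'
    (fun T n => P0 _) (by
      filter_upwards [hN.two, hN'.two] with T g1 g2
      have h1 := tv_lip (P := P) (L := p1) P1 (dl (N T)) (dl_nonneg _) (K := fl b (N T) ^ 2)
      refine h1.trans ?_
      have h2 := fl_sq_le hb2 (show 1 ≤ N T by omega)
      have hl : 0 < Real.log (N T : ℝ) := Real.log_pos (by exact_mod_cast (by omega : 1 < N T))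
      have h3 : dl (N T) * Real.log ((fl b (N T) ^ 2 : ℕ) : ℝ) ≤ 1 := by
        have h4 : Real.log ((fl b (N T) ^ 2 : ℕ) : ℝ) ≤ Real.log (N T : ℝ) :=
          Real.log_le_log (by
            have : 0 < fl b (N T) ^ 2 := Nat.pow_pos (by omega)
            exact_mod_cast this) (by exact_mod_cast h2)
        unfold dl
        rw [one_div, ← div_eq_inv_mul, div_le_one hl]
        exact h4
      calc p1 * _ ≤ p1 * 1 := mul_le_mul_of_nonneg_left h3 hp1
        _ = p1 := mul_one _)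
  filter_upwards [H', hN.two, hN'.two, eventually_ge_atTop 0] with T g1 g2 g3 g4
  have hsS := SS_fl_le hk0 hb2 N g4 g2 g3
  have e : (fun t => WS b P (N T) t - ∑ j : Fin (d + 1), h j * UU b P (j : ℕ) (N T) t) =
      QP (Finset.Icc 1 (fl b (N T) ^ 2)) (fun n => P (dl (N T) * Real.log n) *
        rr h (fl b (N T)) n) := by
    funext t
    have e1 : ∑ j : Fin (d + 1), h j * UU b P (j : ℕ) (N T) t =
        QP (Finset.Icc 1 (fl b (N T) ^ 2)) (fun n => ∑ j : Fin (d + 1), h j *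
          (P (dl (N T) * Real.log n) * ((yn (fl b (N T)) n : ℂ) ^ (j : ℕ) * bc (fl b (N T)) n))) t := by
      rw [QP_sum]
      refine Finset.sum_congr rfl fun j _ => ?_
      rw [QP_smul]
      rfl
    rw [e1, WS_QP P (by omega), ← QP_sub]
    refine QP_congr (fun n _ => ?_) t
    unfold rr
    rw [mul_sub, Finset.mul_sum]
    congr 1
    exact Finset.sum_congr rfl fun j _ => by ring
  rw [e]
  exact g1.trans (mul_le_mul_of_nonneg_left hsS hε.le)

end Pool.Agent.H7.PT
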