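import Pool.Agent.H7.PM.A4
import Pool.Agent.H7.PT.P1

set_option autoImplicit false
open MeasureTheory Metric Filter
open scoped ComplexConjugate ENNReal Topology

/-! The projection theorem of M. Riesz on intervals. -/

namespace Pool.Agent.H7.PT

open Pool.Agent.Helper873.OneVar Pool.Agent.Helper873.Product Pool.Agent.Helper873.Alg
  Pool.Agent.Helper873.Monomial Pool.Agent.Helper873.Embed Pool.Agent.Helper873.Mean
open Pool.Agent.W188.GP
open Pool.Agent.H7.PM

/-- Dirichlet polynomials -/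
noncomputable def QP (S : Finset ℕ) (c : ℕ → ℂ) (t : ℝ) : ℂ := DPol S c (zt t)

lemma continuous_QP (S : Finset ℕ) (c : ℕ → ℂ) : Continuous (QP S c) :=
  (continuous_DPol S c).comp continuous_zt

lemma cont_bst (S : Finset ℕ) (c : ℕ → ℂ) (N : ℕ) (η : ℝ) (l : ℤ) :
    Continuous fun t => bs S c N η (zt t) l := (continuous_bs S c N η l).comp continuous_zt

lemma norm_bst (S : Finset ℕ) (hS : 0 ∉ S) (c : ℕ → ℂ) (N : ℕ) (η : ℝ) (t : ℝ) (l : ℤ) :
    ‖bs S c N η (zt t) l‖ = ‖QP S c (t + l * η)‖ := by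
  rw [norm_bs S hS, zt_add]
  rfl

lemma riesz_auxT (p h : ℝ) (hp : 1 < p) (h0 : 0 ≤ h) (hh : HB p h) (S : Finset ℕ) (hS : 0 ∉ S)
    (c : ℕ → ℂ) (N : ℕ) (η : ℝ) (hη : 0 < η) (hη1 : ∀ n ∈ S, |η * th N n| ≤ 1) (M : ℕ)
    (hM : 1 ≤ M) (a b : ℝ) (hab : a ≤ b) :
    Real.pi * nI p a b (QP S (fun n => c n * if n ≤ N then -1 else 1)) ≤
      2 * h * nI p (a - 3 * (M * η)) (b + 3 * (M * η)) (QP S c) +
        er S c N η M * (b - a + 2 * (M * η)) ^ (1 / p) := by
  have hp0 : 0 < p := by linarith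
  have hMη : 0 < (M : ℝ) * η := by
    have : (0 : ℝ) < M := by exact_mod_cast hM
    positivity
  set Q := QP S (fun n => c n * if n ≤ N then -1 else 1) with hQ
  set a' := a - M * η with ha'
  set b' := b + M * η with hb'
  have hab' : a' ≤ b' := by linarith
  have hlen : b' - a' = b - a + 2 * (M * η) := by rw [ha', hb']; ring
  rw [← hlen]
  set ε := er S c N η M * (b' - a') ^ (1 / p) with hε
  have hε0 : 0 ≤ ε := mul_nonneg (er_nonneg _ _ _ _ _) (Real.rpow_nonneg (by linarith) _)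
  set X := nI p (a - 3 * (M * η)) (b + 3 * (M * η)) (QP S c) with hX
  have hX0 : 0 ≤ X := nI_nonneg _ _ _ _
  rcases le_total (Real.pi * nI p a b Q - ε) 0 with hneg | hpos
  · have : 0 ≤ 2 * h * X := by positivity
    linarith
  have hcH : ∀ m : ℤ, Continuous fun t : ℝ =>
      HT (Finset.Icc (-(2 * M : ℤ)) (2 * M)) (bs S c N η (zt t)) m := by
    intro m
    unfold HT
    exact continuous_finsetSum _ fun l _ => (cont_bst S c N η l).mul continuous_const
  have hterm : ∀ m ∈ Finset.Icc (-(M : ℤ)) M, (Real.pi * nI p a b Q - ε) ^ p ≤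
      ∫ t in Set.Icc a' b', ‖HT (Finset.Icc (-(2 * M : ℤ)) (2 * M)) (bs S c N η (zt t)) m‖ ^ p := by
    intro m hm
    have hm' : |m| ≤ M := abs_le.2 (Finset.mem_Icc.1 hm)
    have hmr : |(m : ℝ)| ≤ M := by exact_mod_cast hm'
    obtain ⟨hm1, hm2⟩ := abs_le.1 hmr
    rw [← nI_rpow hp0]
    refine Real.rpow_le_rpow hpos ?_ hp0.le
    have h1 : Real.pi * nI p a b Q ≤ nI p a' b' (fun t => (Real.pi * Complex.I) *
        bs S (fun n => c n * if n ≤ N then -1 else 1) N η (zt t) m) := by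
      rw [nI_const_mul hp0, norm_mul, Complex.norm_I, mul_one, Complex.norm_real,
        Real.norm_of_nonneg Real.pi_pos.le]
      refine mul_le_mul_of_nonneg_left ?_ Real.pi_pos.le
      have e1 : nI p a' b' (fun t => bs S (fun n => c n * if n ≤ N then -1 else 1) N η (zt t) m) =
          nI p a' b' (fun t => Q (t + m * η)) := nI_congr fun t _ => norm_bst S hS _ N η t m
      rw [e1, nI_shift p a' b' (m * η) Q]
      refine nI_mono_set hp0 (continuous_QP _ _) ?_ ?_
      · have : (m : ℝ) * η ≤ M * η := mul_le_mul_of_nonneg_right hm2 hη.le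
        rw [ha']; linarith
      · have : -(M : ℝ) * η ≤ m * η := mul_le_mul_of_nonneg_right hm1 hη.le
        rw [hb']; linarith
    have h2 := nI_sub_le hp.le a' b' (F := fun t => (Real.pi * Complex.I) *
        bs S (fun n => c n * if n ≤ N then -1 else 1) N η (zt t) m)
        (continuous_const.mul (cont_bst S _ N η m)) (hcH m)
    have h3 := nI_le_const hp0 hab' (F := fun t => (Real.pi * Complex.I) *
        bs S (fun n => c n * if n ≤ N then -1 else 1) N η (zt t) m -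
        HT (Finset.Icc (-(2 * M : ℤ)) (2 * M)) (bs S c N η (zt t)) m)
        ((continuous_const.mul (cont_bst S _ N η m)).sub (hcH m))
        (fun t _ => HT_close S hS c N η hη hη1 (zt t) M hM m hm')
    linarith
  have hl : ∀ l ∈ Finset.Icc (-(2 * M : ℤ)) (2 * M),
      ∫ t in Set.Icc a' b', ‖bs S c N η (zt t) l‖ ^ p ≤ X ^ p := by
    intro l hl
    obtain ⟨hl1, hl2⟩ := Finset.mem_Icc.1 hl
    have hl1' : -(2 * (M : ℝ)) ≤ l := by exact_mod_cast hl1
    have hl2' : (l : ℝ) ≤ 2 * M := by exact_mod_cast hl2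
    rw [← nI_rpow hp0]
    refine Real.rpow_le_rpow (nI_nonneg _ _ _ _) ?_ hp0.le
    have e1 : nI p a' b' (fun t => bs S c N η (zt t) l) =
        nI p a' b' (fun t => QP S c (t + l * η)) := nI_congr fun t _ => norm_bst S hS _ N η t l
    rw [e1, nI_shift p a' b' (l * η)]
    refine nI_mono_set hp0 (continuous_QP _ _) ?_ ?_
    · have : -(2 * (M : ℝ)) * η ≤ l * η := mul_le_mul_of_nonneg_right hl1' hη.le
      rw [ha']; linarith
    · have : (l : ℝ) * η ≤ 2 * M * η := mul_le_mul_of_nonneg_right hl2' hη.le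
      rw [hb']; linarith
  have hsum : ((2 * M + 1 : ℕ) : ℝ) * (Real.pi * nI p a b Q - ε) ^ p ≤
      h ^ p * (((4 * M + 1 : ℕ) : ℝ) * X ^ p) := by
    have hcard : (Finset.Icc (-(M : ℤ)) M).card = 2 * M + 1 := by
      rw [Int.card_Icc]; omega
    have hcard2 : (Finset.Icc (-(2 * M : ℤ)) (2 * M)).card = 4 * M + 1 := by
      rw [Int.card_Icc]; omega
    calc ((2 * M + 1 : ℕ) : ℝ) * (Real.pi * nI p a b Q - ε) ^ p
        = ∑ _m ∈ Finset.Icc (-(M : ℤ)) M, (Real.pi * nI p a b Q - ε) ^ p := by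
          rw [Finset.sum_const, hcard, nsmul_eq_mul]
      _ ≤ ∑ m ∈ Finset.Icc (-(M : ℤ)) M, ∫ t in Set.Icc a' b',
          ‖HT (Finset.Icc (-(2 * M : ℤ)) (2 * M)) (bs S c N η (zt t)) m‖ ^ p :=
          Finset.sum_le_sum hterm
      _ = ∫ t in Set.Icc a' b', ∑ m ∈ Finset.Icc (-(M : ℤ)) M,
          ‖HT (Finset.Icc (-(2 * M : ℤ)) (2 * M)) (bs S c N η (zt t)) m‖ ^ p := by
          rw [integral_finsetSum]
          intro m _
          exact intOn (cont_rpow (hcH m) hp0.le) _ _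
      _ ≤ ∫ t in Set.Icc a' b', h ^ p * ∑ l ∈ Finset.Icc (-(2 * M : ℤ)) (2 * M),
          ‖bs S c N η (zt t) l‖ ^ p := by
          refine setIntegral_mono ?_ ?_ fun t => hh _ _ _
          · exact intOn (continuous_finsetSum _ fun m _ => cont_rpow (hcH m) hp0.le) _ _
          · exact intOn (continuous_const.mul (continuous_finsetSum _ fun l _ =>
              cont_rpow (cont_bst S c N η l) hp0.le)) _ _
      _ = h ^ p * ∑ l ∈ Finset.Icc (-(2 * M : ℤ)) (2 * M),
          ∫ t in Set.Icc a' b', ‖bs S c N η (zt t) l‖ ^ p := by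
          rw [integral_const_mul, integral_finsetSum]
          intro l _
          exact intOn (cont_rpow (cont_bst S c N η l) hp0.le) _ _
      _ ≤ h ^ p * (((4 * M + 1 : ℕ) : ℝ) * X ^ p) := by
          refine mul_le_mul_of_nonneg_left ?_ (by positivity)
          refine (Finset.sum_le_sum hl).trans ?_
          rw [Finset.sum_const, hcard2, nsmul_eq_mul]
  have h5 : (Real.pi * nI p a b Q - ε) ^ p ≤ (2 * h * X) ^ p := by
    rw [Real.mul_rpow (by positivity) hX0, Real.mul_rpow (by positivity) h0]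
    have h2p : (2 : ℝ) ≤ 2 ^ p := by
      calc (2 : ℝ) = 2 ^ (1 : ℝ) := by rw [Real.rpow_one]
        _ ≤ 2 ^ p := Real.rpow_le_rpow_of_exponent_le (by norm_num) hp.le
    have hX1 : 0 ≤ h ^ p * X ^ p := by positivity
    have hM0 : (0 : ℝ) < ((2 * M + 1 : ℕ) : ℝ) := by positivity
    have h6 : ((4 * M + 1 : ℕ) : ℝ) ≤ 2 * ((2 * M + 1 : ℕ) : ℝ) := by push_cast; linarith
    have h7 : ((2 * M + 1 : ℕ) : ℝ) * (Real.pi * nI p a b Q - ε) ^ p ≤
        ((2 * M + 1 : ℕ) : ℝ) * (2 * (h ^ p * X ^ p)) := by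
      calc _ ≤ h ^ p * (((4 * M + 1 : ℕ) : ℝ) * X ^ p) := hsum
        _ = ((4 * M + 1 : ℕ) : ℝ) * (h ^ p * X ^ p) := by ring
        _ ≤ 2 * ((2 * M + 1 : ℕ) : ℝ) * (h ^ p * X ^ p) :=
          mul_le_mul_of_nonneg_right h6 hX1
        _ = _ := by ring
    have h8 := le_of_mul_le_mul_left h7 hM0
    calc (Real.pi * nI p a b Q - ε) ^ p ≤ 2 * (h ^ p * X ^ p) := h8
      _ ≤ 2 ^ p * (h ^ p * X ^ p) := mul_le_mul_of_nonneg_right h2p hX1
      _ = _ := by ring
  have h9 := (Real.rpow_le_rpow_iff hpos (by positivity) hp0).1 h5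
  linarith

lemma norm_one_sub_exp (φ : ℝ) (h : |φ| ≤ 1) :
    |φ| / 2 ≤ ‖1 - Complex.exp ((φ : ℂ) * Complex.I)‖ := by
  have h1 : |Real.sin φ| ≤ ‖1 - Complex.exp ((φ : ℂ) * Complex.I)‖ := by
    have h2 := Complex.abs_im_le_norm (1 - Complex.exp ((φ : ℂ) * Complex.I))
    rw [Complex.sub_im, Complex.one_im, Complex.exp_ofReal_mul_I_im, zero_sub, abs_neg] at h2
    exact h2
  refine le_trans ?_ h1
  have h3 : ∀ x : ℝ, 0 ≤ x → x ≤ 1 → x / 2 ≤ Real.sin x := by
    intro x hx hx1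
    have h4 := Real.mul_le_sin hx (by linarith [Real.pi_gt_three])
    refine le_trans ?_ h4
    have h5 : (1 : ℝ) / 2 ≤ 2 / Real.pi := by
      rw [div_le_div_iff₀ (by norm_num) Real.pi_pos]
      linarith [Real.pi_le_four]
    calc x / 2 = 1 / 2 * x := by ring
      _ ≤ _ := mul_le_mul_of_nonneg_right h5 hx
  rcases le_total 0 φ with h0 | h0
  · rw [abs_of_nonneg h0] at h ⊢
    exact (h3 φ h0 h).trans (le_abs_self _)
  · rw [abs_of_nonpos h0] at h ⊢
    have := h3 (-φ) (by linarith) h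
    rw [Real.sin_neg] at this
    exact this.trans (neg_le_abs _)

lemma th_bounds (K N n : ℕ) (hK : 1 ≤ K) (hn : n ≠ 0) (hnK : n ≤ K) (hNK : N ≤ K) :
    1 / (8 * (K : ℝ)) ≤ |th N n| ∧ |th N n| ≤ 2 * K := by
  have hn0 : (1 : ℝ) ≤ n := by exact_mod_cast Nat.one_le_iff_ne_zero.2 hn
  have hK0 : (1 : ℝ) ≤ K := by exact_mod_cast hK
  have hnK' : (n : ℝ) ≤ K := by exact_mod_cast hnK
  have hNK' : (N : ℝ) ≤ K := by exact_mod_cast hNK
  have hN0 : (0 : ℝ) ≤ N := Nat.cast_nonneg N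
  unfold th
  constructor
  · by_cases h : n ≤ N
    · have h1 : (n : ℝ) ≤ N := by exact_mod_cast h
      have h2 : Real.log n - Real.log ((N : ℝ) + 1 / 2) ≤ -(1 / (8 * K)) := by
        rw [← Real.log_div (by positivity) (by positivity)]
        have h3 : (n : ℝ) / (N + 1 / 2) ≤ 1 - 1 / (8 * K) := by
          rw [div_le_iff₀ (by positivity)]
          have h4 : 1 / (8 * (K : ℝ)) * (N + 1 / 2) ≤ 1 / 2 := by
            rw [div_mul_eq_mul_div, one_mul, div_le_iff₀ (by positivity)]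
            linarith
          nlinarith
        have h5 : (0 : ℝ) < n / (N + 1 / 2) := by positivity
        have h6 := Real.log_le_sub_one_of_pos h5
        linarith
      rw [abs_of_nonpos (by have : (0 : ℝ) < 1 / (8 * K) := by positivity
                            linarith)]
      linarith
    · have h1 : (N : ℝ) + 1 ≤ n := by exact_mod_cast (by omega : N + 1 ≤ n)
      have h2 : 1 / (8 * K) ≤ Real.log n - Real.log ((N : ℝ) + 1 / 2) := by
        have h3 : ((N : ℝ) + 1 / 2) / n ≤ 1 - 1 / (8 * K) := by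
          rw [div_le_iff₀ (by positivity)]
          have h4 : 1 / (8 * (K : ℝ)) * n ≤ 1 / 2 := by
            rw [div_mul_eq_mul_div, one_mul, div_le_iff₀ (by positivity)]
            linarith
          nlinarith
        have h5 : (0 : ℝ) < ((N : ℝ) + 1 / 2) / n := by positivity
        have h6 := Real.log_le_sub_one_of_pos h5
        rw [Real.log_div (by positivity) (by positivity)] at h6
        linarith
      exact h2.trans (le_abs_self _)
  · rw [abs_le]
    have h1 : Real.log n ≤ K := (Real.log_le_sub_one_of_pos (by linarith)).trans (by linarith)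
    have h2 : 0 ≤ Real.log n := Real.log_nonneg hn0
    have h3 : Real.log ((N : ℝ) + 1 / 2) ≤ K := by
      have := Real.log_le_sub_one_of_pos (show (0 : ℝ) < N + 1 / 2 by positivity)
      linarith
    have h4 : -1 ≤ Real.log ((N : ℝ) + 1 / 2) := by
      have h5 : Real.log (1 / 2) ≤ Real.log ((N : ℝ) + 1 / 2) :=
        Real.log_le_log (by norm_num) (by linarith)
      rw [one_div, Real.log_inv] at h5
      have := Real.log_two_lt_d9
      linarith
    constructor <;> linarith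

lemma er_bound (K N M : ℕ) (hK : 1 ≤ K) (hNK : N ≤ K) (hM : 1 ≤ M) (S : Finset ℕ)
    (hS : S ⊆ Finset.Icc 1 K) (c : ℕ → ℂ) (hc : ∀ n ∈ S, ‖c n‖ ≤ 1) (η : ℝ) (hη : 0 < η)
    (hη1 : η * (2 * K) ≤ 1) :
    er S c N η M ≤ K * (η * (2 * K) + 64 * K / (M * η)) := by
  have hK0 : (1 : ℝ) ≤ K := by exact_mod_cast hK
  have hM0 : (0 : ℝ) < M := by exact_mod_cast hM
  unfold er
  have hb : ∀ n ∈ S, ‖c n‖ * (|η * th N n| +
      4 / (‖1 - Complex.exp (((η * th N n : ℝ) : ℂ) * Complex.I)‖ * M)) ≤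
      η * (2 * K) + 64 * K / (M * η) := by
    intro n hn
    obtain ⟨h1, h2⟩ := Finset.mem_Icc.1 (hS hn)
    obtain ⟨h3, h4⟩ := th_bounds K N n hK (by omega) h2 hNK
    have h5 : |η * th N n| ≤ η * (2 * K) := by
      rw [abs_mul, abs_of_pos hη]
      exact mul_le_mul_of_nonneg_left h4 hη.le
    have h6 : η * (1 / (8 * K)) ≤ |η * th N n| := by
      rw [abs_mul, abs_of_pos hη]
      exact mul_le_mul_of_nonneg_left h3 hη.le
    have h7 := norm_one_sub_exp (η * th N n) (h5.trans hη1)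
    have h8 : η / (16 * K) ≤ ‖1 - Complex.exp (((η * th N n : ℝ) : ℂ) * Complex.I)‖ := by
      refine le_trans ?_ h7
      have e : η / (16 * K) = η * (1 / (8 * K)) / 2 := by field_simp; norm_num
      rw [e]
      linarith
    have h9 : 4 / (‖1 - Complex.exp (((η * th N n : ℝ) : ℂ) * Complex.I)‖ * M) ≤
        64 * K / (M * η) := by
      calc _ ≤ 4 / (η / (16 * K) * M) := by gcongr
        _ = _ := by field_simp; norm_num
    have h10 : 0 ≤ |η * th N n| +
      4 / (‖1 - Complex.exp (((η * th N n : ℝ) : ℂ) * Complex.I)‖ * M) := by positivity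
    calc _ ≤ 1 * (|η * th N n| +
      4 / (‖1 - Complex.exp (((η * th N n : ℝ) : ℂ) * Complex.I)‖ * M)) :=
          mul_le_mul_of_nonneg_right (hc n hn) h10
      _ ≤ _ := by rw [one_mul]; linarith
  refine (Finset.sum_le_sum hb).trans ?_
  rw [Finset.sum_const, nsmul_eq_mul]
  refine mul_le_mul_of_nonneg_right ?_ (by positivity)
  have := Finset.card_le_card hS
  rw [Nat.card_Icc] at this
  exact_mod_cast (by omega : S.card ≤ K)

/-- **M. Riesz on intervals** -/
theorem rieszT (p : ℝ) (hp : 1 < p) : ∃ C : ℝ, 0 ≤ C ∧ ∀ (K N : ℕ), 1 ≤ K → N ≤ K →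
    ∀ (c : ℕ → ℂ), (∀ n ∈ Finset.Icc 1 K, ‖c n‖ ≤ 1) → ∀ (a b H : ℝ), a ≤ b → 1 ≤ H →
    nI p a b (QP (Finset.Icc 1 K) (fun n => if n ≤ N then c n else 0)) ≤
      C * nI p (a - H) (b + H) (QP (Finset.Icc 1 K) c) +
        1000 * (K : ℝ) ^ 2 / H * (b - a + H) ^ (1 / p) := by
  obtain ⟨h, h0, hh⟩ := hil p hp
  have hp0 : 0 < p := by linarith
  refine ⟨1 + h, by linarith, fun K N hK hNK c hc a b H hab hH => ?_⟩
  have hK0 : (1 : ℝ) ≤ K := by exact_mod_cast hK
  have hH0 : 0 < H := by linarith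
  -- choice of η and M
  set η : ℝ := 1 / (4 * (K : ℝ) * H) with hη
  have hη0 : 0 < η := by positivity
  have hη1 : η * (2 * K) ≤ 1 / H := by
    have e : η * (2 * K) = 1 / H * (1 / 2) := by rw [hη]; field_simp; norm_num
    rw [e]
    have : 0 < 1 / H := by positivity
    linarith
  have hη2 : η * (2 * K) ≤ 1 := hη1.trans ((div_le_one hH0).2 hH)
  set M : ℕ := ⌊H / (3 * η)⌋₊ with hM
  have hx : 1 ≤ H / (3 * η) / 1 := by
    rw [div_one, le_div_iff₀ (by positivity), one_mul]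
    have : η ≤ 1 / 4 := by
      rw [hη]
      apply one_div_le_one_div_of_le (by norm_num)
      nlinarith
    linarith
  rw [div_one] at hx
  have hM1 : 1 ≤ M := (Nat.one_le_floor_iff _).2 hx
  have hMle : (M : ℝ) ≤ H / (3 * η) := Nat.floor_le (by positivity)
  have hMge : H / (3 * η) < M + 1 := Nat.lt_floor_add_one _
  have hM0 : (0 : ℝ) < M := by exact_mod_cast hM1
  have hM1' : (1 : ℝ) ≤ M := by exact_mod_cast hM1
  have h3 : 3 * (M * η) ≤ H := by
    rw [le_div_iff₀ (by positivity)] at hMle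
    linarith
  have h4 : H ≤ 6 * (M * η) := by
    rw [div_lt_iff₀ (by positivity)] at hMge
    nlinarith
  have hS0 : 0 ∉ Finset.Icc 1 K := by simp
  have hth : ∀ n ∈ Finset.Icc 1 K, |η * th N n| ≤ 1 := by
    intro n hn
    obtain ⟨a1, a2⟩ := Finset.mem_Icc.1 hn
    have h5 := (th_bounds K N n hK (by omega) a2 hNK).2
    rw [abs_mul, abs_of_pos hη0]
    exact (mul_le_mul_of_nonneg_left h5 hη0.le).trans hη2
  have key := riesz_auxT p h hp h0 hh (Finset.Icc 1 K) hS0 c N η hη0 hth M hM1 a b hab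
  have her := er_bound K N M hK hNK hM1 (Finset.Icc 1 K) le_rfl c hc η hη0 hη2
  set X := nI p (a - H) (b + H) (QP (Finset.Icc 1 K) c) with hX
  set Q := nI p a b (QP (Finset.Icc 1 K) (fun n => c n * if n ≤ N then -1 else 1)) with hQ
  have hX0 : 0 ≤ X := nI_nonneg _ _ _ _
  have hQ0 : 0 ≤ Q := nI_nonneg _ _ _ _
  have k1 : nI p (a - 3 * (M * η)) (b + 3 * (M * η)) (QP (Finset.Icc 1 K) c) ≤ X :=
    nI_mono_set hp0 (continuous_QP _ _) (by linarith) (by linarith)
  have k2 : er (Finset.Icc 1 K) c N η M ≤ 500 * (K : ℝ) ^ 2 / H := by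
    refine her.trans ?_
    have e1 : 64 * (K : ℝ) / (M * η) ≤ 384 * K / H := by
      rw [div_le_div_iff₀ (by positivity) hH0]
      nlinarith
    have e2 : (K : ℝ) * (η * (2 * K) + 64 * K / (M * η)) ≤ K * (1 / H + 384 * K / H) := by
      gcongr
    refine e2.trans ?_
    have e3 : (K : ℝ) * (1 / H + 384 * K / H) = (K + 384 * K ^ 2) / H := by field_simp
    rw [e3]
    have : (K : ℝ) ≤ K ^ 2 := by nlinarith
    gcongr
    linarith
  have k3 : (b - a + 2 * (M * η)) ^ (1 / p) ≤ (b - a + H) ^ (1 / p) := by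
    refine Real.rpow_le_rpow (by positivity) ?_ (by positivity)
    have : 0 < (M : ℝ) * η := by positivity
    linarith
  have hL0 : 0 ≤ (b - a + H) ^ (1 / p) := Real.rpow_nonneg (by linarith) _
  have k4 : er (Finset.Icc 1 K) c N η M * (b - a + 2 * (M * η)) ^ (1 / p) ≤
      500 * (K : ℝ) ^ 2 / H * (b - a + H) ^ (1 / p) :=
    mul_le_mul k2 k3 (Real.rpow_nonneg (by have : 0 < (M : ℝ) * η := by positivity
                                           linarith) _) (by positivity)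
  have k5 : Real.pi * Q ≤ 2 * h * X + 500 * (K : ℝ) ^ 2 / H * (b - a + H) ^ (1 / p) := by
    refine key.trans (add_le_add ?_ k4)
    exact mul_le_mul_of_nonneg_left k1 (by positivity)
  have k6 : 2 * Q ≤ Real.pi * Q := mul_le_mul_of_nonneg_right (by linarith [Real.pi_gt_three]) hQ0
  -- the projection
  have e : nI p a b (QP (Finset.Icc 1 K) (fun n => if n ≤ N then c n else 0)) =
      nI p a b (fun t => (1 / 2 : ℂ) * QP (Finset.Icc 1 K) c t + (-(1 / 2) : ℂ) *
        QP (Finset.Icc 1 K) (fun n => c n * if n ≤ N then -1 else 1) t) := by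
    refine nI_congr fun t _ => ?_
    congr 1
    unfold QP DPol
    rw [Finset.mul_sum, Finset.mul_sum, ← Finset.sum_add_distrib]
    refine Finset.sum_congr rfl fun n _ => ?_
    by_cases hn : n ≤ N
    · simp only [if_pos hn]; ring
    · simp only [if_neg hn]; ring
  rw [e]
  refine (nI_add_le hp.le a b (cmulc _ (continuous_QP _ _))
    (cmulc _ (continuous_QP _ _))).trans ?_
  rw [nI_const_mul hp0, nI_const_mul hp0]
  have e1 : ‖(1 / 2 : ℂ)‖ = 1 / 2 := by simp
  have e2 : ‖(-(1 / 2) : ℂ)‖ = 1 / 2 := by simp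
  rw [e1, e2, ← hQ]
  have k7 : nI p a b (QP (Finset.Icc 1 K) c) ≤ X :=
    nI_mono_set hp0 (continuous_QP _ _) (by linarith) (by linarith)
  have k8 : 0 ≤ 500 * (K : ℝ) ^ 2 / H * (b - a + H) ^ (1 / p) := by positivity
  have k9 : 1000 * (K : ℝ) ^ 2 / H * (b - a + H) ^ (1 / p) =
      500 * (K : ℝ) ^ 2 / H * (b - a + H) ^ (1 / p) +
      500 * (K : ℝ) ^ 2 / H * (b - a + H) ^ (1 / p) := by ring
  have k10 : 0 ≤ h * X := by positivity
  rw [k9]
  nlinarith

/-- multipliers of bounded variation on intervals -/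
theorem multT (p : ℝ) (hp : 1 < p) : ∃ C : ℝ, 0 ≤ C ∧ ∀ (K : ℕ), 1 ≤ K →
    ∀ (a c : ℕ → ℂ), (∀ n ∈ Finset.Icc 1 K, ‖a n‖ ≤ 1) → ∀ (B V : ℝ),
    (∀ n, ‖c n‖ ≤ B) → (∑ N ∈ Finset.range K, ‖c (N + 1) - c N‖ ≤ V) →
    ∀ (x y H : ℝ), x ≤ y → 1 ≤ H →
    nI p x y (QP (Finset.Icc 1 K) (fun n => c n * a n)) ≤
      (B + C * V) * nI p (x - H) (y + H) (QP (Finset.Icc 1 K) a) +
        V * (1000 * (K : ℝ) ^ 2 / H * (y - x + H) ^ (1 / p)) := by
  obtain ⟨C, hC, h⟩ := rieszT p hp
  have hp0 : 0 < p := by linarith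
  refine ⟨C, hC, fun K hK a c ha B V hB hV x y H hxy hH => ?_⟩
  have hH0 : 0 < H := by linarith
  set E := 1000 * (K : ℝ) ^ 2 / H * (y - x + H) ^ (1 / p) with hE
  have hE0 : 0 ≤ E := by
    rw [hE]; have := Real.rpow_nonneg (show 0 ≤ y - x + H by linarith) (1 / p); positivity
  set X := nI p (x - H) (y + H) (QP (Finset.Icc 1 K) a) with hX
  have hX0 : 0 ≤ X := nI_nonneg _ _ _ _
  have e : QP (Finset.Icc 1 K) (fun n => c n * a n) = fun t =>
      c K * QP (Finset.Icc 1 K) a t + ∑ N ∈ Finset.range K,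
      (-(c (N + 1) - c N)) * QP (Finset.Icc 1 K) (fun n => if n ≤ N then a n else 0) t := by
    funext t
    unfold QP DPol
    simp_rw [Finset.mul_sum]
    rw [Finset.sum_comm, ← Finset.sum_add_distrib]
    refine Finset.sum_congr rfl fun n hn => ?_
    have h1 := abel_id c K n (Finset.mem_Icc.1 hn).2
    have h2 : ∑ N ∈ Finset.range K, -(c (N + 1) - c N) * ((if n ≤ N then a n else 0) *
        stf n (zt t)) =
        -(∑ N ∈ Finset.range K, (c (N + 1) - c N) * if n ≤ N then 1 else 0) *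
          (a n * stf n (zt t)) := by
      rw [← Finset.sum_neg_distrib, Finset.sum_mul]
      refine Finset.sum_congr rfl fun N _ => ?_
      split_ifs <;> ring
    rw [h2]
    linear_combination (a n * stf n (zt t)) * h1
  rw [e]
  refine (nI_add_le hp.le x y (cmulc _ (continuous_QP _ _))
    (sumc _ fun N _ => cmulc _ (continuous_QP _ _))).trans ?_
  have h3 := nI_sum_le hp.le x y (Finset.range K) (fun N t => (-(c (N + 1) - c N)) *
    QP (Finset.Icc 1 K) (fun n => if n ≤ N then a n else 0) t)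
    (fun N _ => continuous_const.mul (continuous_QP _ _))
  have hCX : 0 ≤ C * X + E := by positivity
  have h4 : ∑ N ∈ Finset.range K, nI p x y (fun t => (-(c (N + 1) - c N)) *
      QP (Finset.Icc 1 K) (fun n => if n ≤ N then a n else 0) t) ≤ V * (C * X + E) := by
    calc _ ≤ ∑ N ∈ Finset.range K, ‖c (N + 1) - c N‖ * (C * X + E) := by
          refine Finset.sum_le_sum fun N hN => ?_
          rw [nI_const_mul hp0, norm_neg]
          exact mul_le_mul_of_nonneg_left (h K N hK (Finset.mem_range.1 hN).le a ha x y H hxy hH)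
            (norm_nonneg _)
      _ = (∑ N ∈ Finset.range K, ‖c (N + 1) - c N‖) * (C * X + E) := by
          rw [Finset.sum_mul]
      _ ≤ _ := mul_le_mul_of_nonneg_right hV hCX
  rw [nI_const_mul hp0]
  have k7 : nI p x y (QP (Finset.Icc 1 K) a) ≤ X :=
    nI_mono_set hp0 (continuous_QP _ _) (by linarith) (by linarith)
  have h5 : ‖c K‖ * nI p x y (QP (Finset.Icc 1 K) a) ≤ B * X :=
    mul_le_mul (hB K) k7 (nI_nonneg _ _ _ _) ((norm_nonneg _).trans (hB K))
  calc _ ≤ B * X + V * (C * X + E) := by linarith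
    _ = _ := by ring

end Pool.Agent.H7.PT
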