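import Pool.Agent.H7.PT.P19

set_option autoImplicit false
open MeasureTheory Metric Filter ProbabilityTheory
open scoped ComplexConjugate ENNReal Topology ContDiff

/-! Homogeneous functions of families which are approximated by shifted zeta values. -/

namespace Pool.Agent.H7.PT

open Pool.Agent.H7.PM (dl dl_pos dl_nonneg dl_tendsto)
open Pool.Agent.V11128.CXL

lemma app_up {k : ℝ} (hk : 1 < k) (hk4 : k ≤ 4) {V : ℕ → ℝ → ℂ} (hc : ∀ N, Continuous (V N))
    (h : App k V) : ∃ C : ℝ, 0 < C ∧ ∀ N : ℝ → ℕ, Adm N →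
    ∀ᶠ T in atTop, nI k 0 T (V (N T)) ≤ C * SS k N T := by
  have hk0 : 0 < k := by linarith
  obtain ⟨n, w, a, H⟩ := h 1 one_pos
  obtain ⟨l, hl⟩ := cmb_lim hk hk4 w a
  refine ⟨|l| + 2, by positivity, fun N hN => ?_⟩
  filter_upwards [H N hN, (hl N hN).eventually (gt_mem_nhds (show l < |l| + 1 by
    have := le_abs_self l; linarith)), SS_pos hk0 hN,
    hN.delta.eventually (gt_mem_nhds (show (0 : ℝ) < 1 / 2 by norm_num))] with T h1 h2 h3 h4
  rw [div_lt_iff₀ h3] at h2
  have h5 := nI_sub_le hk.le 0 T (hc (N T)) (cmb_cont w a h4)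
  linarith

theorem hom_seqV {k : ℝ} (hk : 1 < k) (hk4 : k ≤ 4) {m : ℕ} {V : Fin m → ℕ → ℝ → ℂ}
    (hVc : ∀ j N, Continuous (V j N)) (hV : ∀ j, App k (V j)) {u : Fin m → ℝ}
    (hu : ∀ j, 0 ≤ u j) {Φ : (Fin m → ℂ) → ℝ} (hc : Continuous Φ) (hh : Hom k Φ) :
    ∃ l : ℝ, ∀ N : ℝ → ℕ, Adm N →
    Tendsto (fun T : ℝ => (2 * dl (N T)) ^ ((k / 2) ^ 2) / T *
      ∫ t in Set.Icc 0 T, Φ (fun j => V j (N T) (t + u j * dl (N T)))) atTop (𝓝 l) := by
  have hk0 : 0 < k := by linarith
  choose D0 hD0 hupD using fun j => app_up hk hk4 (hVc j) (hV j)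
  set C0 : ℝ := 1 + ∑ j, D0 j with hC0def
  have hDC : ∀ j, D0 j ≤ C0 := fun j => by
    have := Finset.single_le_sum (f := D0) (fun i _ => (hD0 i).le) (Finset.mem_univ j)
    linarith
  have hC0 : 0 < C0 := by
    have : 0 ≤ ∑ j, D0 j := Finset.sum_nonneg fun i _ => (hD0 i).le
    linarith
  refine two_seq (fun N T => (2 * dl (N T)) ^ ((k / 2) ^ 2) / T *
      ∫ t in Set.Icc 0 T, Φ (fun j => V j (N T) (t + u j * dl (N T)))) fun ε hε => ?_
  -- parameters
  set η : ℝ := ε / (2 * (m * (2 * C0) ^ k + 1)) with hη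
  have hη0 : 0 < η := by positivity
  obtain ⟨K, hK, H⟩ := hom_mod hk0 hc hh hη0
  set ε1 : ℝ := (ε / (2 * (K * m + 1))) ^ (1 / k) / 2 with hε1
  have hε10 : 0 < ε1 := by positivity
  have hε1k : (2 * ε1) ^ k = ε / (2 * (K * m + 1)) := by
    rw [hε1, mul_div_cancel₀ _ (two_ne_zero' ℝ), ← Real.rpow_mul (by positivity),
      one_div_mul_cancel hk0.ne', Real.rpow_one]
  choose n w a Hn using fun j => hV j ε1 hε10
  -- the limit for the combinations
  set e := (finSigmaFinEquiv : (i : Fin m) × Fin (n i) ≃ Fin (∑ i, n i)) with he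
  set g : ((i : Fin m) × Fin (n i)) → ℝ := fun s => a s.1 s.2 + u s.1 with hg
  set a' : Fin (∑ i, n i) → ℝ := fun q => g (e.symm q) with ha'
  have ha'e : ∀ s, a' (e s) = g s := fun s => congrArg g (e.symm_apply_apply s)
  set Ψ : (Fin (∑ i, n i) → ℂ) → ℝ := fun z => Φ (fun j => ∑ i, w j i * z (e ⟨j, i⟩)) with hΨ
  have hΨc : Continuous Ψ := hc.comp (continuous_pi fun j =>
    continuous_finsetSum _ fun i _ => continuous_const.mul (continuous_apply _))
  have hΨh : Hom k Ψ := by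
    intro l z
    have h1 := hh l (fun j => ∑ i, w j i * z (e ⟨j, i⟩))
    simp only [hΨ]
    rw [← h1]
    congr 1
    funext j
    rw [Finset.mul_sum]
    exact Finset.sum_congr rfl fun i _ => by ring
  obtain ⟨l, hl⟩ := hom_lim hk0 hk4 a' Ψ hΨc hΨh
  refine ⟨l, fun N hN => ⟨_, hl _ hN.delta hN.L, ?_⟩⟩
  have g1 : ∀ j : Fin m, ∀ᶠ T in atTop,
      nI k 0 T (fun t => V j (N T) (t + u j * dl (N T))) ≤ 2 * C0 * SS k N T := fun j => by
    have h1 := shift_le hk hN (F := V j) (fun n _ => hVc j n) (hu j) (hD0 j).le (hupD j)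
    filter_upwards [h1, eventually_ge_atTop 0] with T h2 h3
    refine h2.trans (mul_le_mul_of_nonneg_right ?_ (SS_nonneg k N h3))
    linarith [hDC j]
  have g2 : ∀ j : Fin m, ∀ᶠ T in atTop,
      nI k 0 T (fun t => V j (N T) (t + u j * dl (N T)) -
        cmb (w j) (fun i => a j i + u j) (dl (N T)) t) ≤ 2 * ε1 * SS k N T := fun j => by
    have h1 := shift_le hk hN (F := fun n t => V j n t - cmb (w j) (a j) (dl n) t)
      (fun n hn => (hVc j n).sub (cmb_cont (w j) (a j) hn)) (hu j) hε10.le (Hn j)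
    filter_upwards [h1] with T h2
    simp_rw [cmb_shift] at h2
    exact h2
  filter_upwards [eventually_all.2 g1, eventually_all.2 g2, SS_pos hk0 hN, hN.pos,
    hN.delta.eventually (gt_mem_nhds (show (0 : ℝ) < 1 / 2 by norm_num)),
    eventually_gt_atTop 0] with T h1 h2 h3 h4 h5 h6
  have e1 : (fun t => Ψ (fun q => zc (dl (N T)) (a' q) t)) =
      fun t => Φ (fun j => cmb (w j) (fun i => a j i + u j) (dl (N T)) t) := by
    funext t
    simp only [hΨ, ha'e]
    rfl
  rw [e1, ← mul_sub, abs_mul, abs_sub_comm]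
  have h7 := int_hom_sub hk0 hc H (X := fun j t => V j (N T) (t + u j * dl (N T)))
    (Y := fun j t => cmb (w j) (fun i => a j i + u j) (dl (N T)) t)
    (fun j => (hVc j _).comp (continuous_id.add continuous_const))
    (fun j => cmb_cont (w j) _ h5) T
  have hS0 := h3.le
  have h8 : ∑ j : Fin m, nI k 0 T (fun t => V j (N T) (t + u j * dl (N T))) ^ k ≤
      m * ((2 * C0) ^ k * SS k N T ^ k) := by
    calc _ ≤ ∑ _j : Fin m, (2 * C0) ^ k * SS k N T ^ k := by
          refine Finset.sum_le_sum fun j _ => ?_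
          rw [← Real.mul_rpow (by positivity) hS0]
          exact Real.rpow_le_rpow (nI_nonneg _ _ _ _) (h1 j) hk0.le
      _ = _ := by rw [Finset.sum_const, Finset.card_univ, Fintype.card_fin, nsmul_eq_mul]
  have h9 : ∑ j : Fin m, nI k 0 T (fun t => cmb (w j) (fun i => a j i + u j) (dl (N T)) t -
      V j (N T) (t + u j * dl (N T))) ^ k ≤ m * ((2 * ε1) ^ k * SS k N T ^ k) := by
    calc _ ≤ ∑ _j : Fin m, (2 * ε1) ^ k * SS k N T ^ k := by
          refine Finset.sum_le_sum fun j _ => ?_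
          rw [← Real.mul_rpow (by positivity) hS0, nI_sub_comm]
          exact Real.rpow_le_rpow (nI_nonneg _ _ _ _) (h2 j) hk0.le
      _ = _ := by rw [Finset.sum_const, Finset.card_univ, Fintype.card_fin, nsmul_eq_mul]
  have h10 : |(∫ t in Set.Icc 0 T, Φ (fun j => cmb (w j) (fun i => a j i + u j) (dl (N T)) t)) -
      ∫ t in Set.Icc 0 T, Φ (fun j => V j (N T) (t + u j * dl (N T)))| ≤ ε * SS k N T ^ k := by
    refine h7.trans ?_
    have hSk : 0 ≤ SS k N T ^ k := Real.rpow_nonneg hS0 _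
    have a1 := mul_le_mul_of_nonneg_left h8 hη0.le
    have a2 := mul_le_mul_of_nonneg_left h9 hK.le
    rw [hε1k] at a2
    have a3 : η * (m * ((2 * C0) ^ k * SS k N T ^ k)) ≤ ε / 2 * SS k N T ^ k := by
      rw [← mul_assoc, ← mul_assoc]
      refine mul_le_mul_of_nonneg_right ?_ hSk
      rw [hη, div_mul_eq_mul_div, div_mul_eq_mul_div, div_le_div_iff₀ (by positivity) (by norm_num)]
      have : 0 ≤ (m : ℝ) * (2 * C0) ^ k := by positivity
      nlinarith
    have a4 : K * (m * (ε / (2 * (K * m + 1)) * SS k N T ^ k)) ≤ ε / 2 * SS k N T ^ k := by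
      rw [← mul_assoc, ← mul_assoc]
      refine mul_le_mul_of_nonneg_right ?_ hSk
      rw [mul_div_assoc', div_le_div_iff₀ (by positivity) (by norm_num)]
      have : 0 ≤ K * m := by positivity
      nlinarith
    linarith
  rw [SS_rpow hk0 N h6.le] at h10
  have hp : 0 < (2 * dl (N T)) ^ ((k / 2) ^ 2) := Real.rpow_pos_of_pos (by positivity) _
  rw [abs_of_pos (div_pos hp h6), abs_sub_comm]
  rw [abs_sub_comm] at h10
  rw [Real.rpow_neg (by positivity)] at h10
  calc (2 * dl (N T)) ^ ((k / 2) ^ 2) / T * _ ≤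
        (2 * dl (N T)) ^ ((k / 2) ^ 2) / T * (ε * (T * ((2 * dl (N T)) ^ ((k / 2) ^ 2))⁻¹)) :=
        mul_le_mul_of_nonneg_left h10 (by positivity)
    _ = ε := by field_simp

/-- negative shifts, too -/
theorem hom_seqVr {k : ℝ} (hk : 1 < k) (hk4 : k ≤ 4) {m : ℕ} {V : Fin m → ℕ → ℝ → ℂ}
    (hVc : ∀ j N, Continuous (V j N)) (hV : ∀ j, App k (V j))
    (hVb : ∀ j, ∃ B : ℝ, 0 ≤ B ∧ ∀ N t, ‖V j N t‖ ≤ B * N) (u : Fin m → ℝ)
    {Φ : (Fin m → ℂ) → ℝ} (hc : Continuous Φ) (hh : Hom k Φ) :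
    ∃ l : ℝ, ∀ N : ℝ → ℕ, Adm N →
    Tendsto (fun T : ℝ => (2 * dl (N T)) ^ ((k / 2) ^ 2) / T *
      ∫ t in Set.Icc 0 T, Φ (fun j => V j (N T) (t + u j * dl (N T)))) atTop (𝓝 l) := by
  have hk0 : 0 < k := by linarith
  set U : ℝ := ∑ j, |u j| with hU
  have hU0 : 0 ≤ U := Finset.sum_nonneg fun j _ => abs_nonneg _
  have huU : ∀ j, 0 ≤ u j + U := fun j => by
    have h1 := Finset.single_le_sum (f := fun j => |u j|) (fun i _ => abs_nonneg _)
      (Finset.mem_univ j)
    have h2 := neg_abs_le (u j)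
    linarith
  obtain ⟨l, hl⟩ := hom_seqV hk hk4 hVc hV (u := fun j => u j + U) huU hc hh
  obtain ⟨C0, hC0, hbd⟩ := hom_bound hk0 hc hh
  choose B hB hVB using hVb
  set S : ℝ := C0 * ∑ j, B j ^ k with hS
  have hS0 : 0 ≤ S := mul_nonneg hC0 (Finset.sum_nonneg fun j _ => Real.rpow_nonneg (hB j) _)
  refine ⟨l, fun N hN => ?_⟩
  have hsm := (hN.small k 1 one_pos).const_mul (2 * U * S)
  rw [mul_zero] at hsm
  have key : Tendsto (fun T : ℝ => (2 * dl (N T)) ^ ((k / 2) ^ 2) / T *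
      (∫ t in Set.Icc 0 T, Φ (fun j => V j (N T) (t + u j * dl (N T)))) -
      (2 * dl (N T)) ^ ((k / 2) ^ 2) / T *
      ∫ t in Set.Icc 0 T, Φ (fun j => V j (N T) (t + (u j + U) * dl (N T)))) atTop (𝓝 0) := by
    refine squeeze_zero_norm' ?_ hsm
    filter_upwards [hN.pos, eventually_gt_atTop 1,
      hN.delta.eventually (gt_mem_nhds (show (0 : ℝ) < 1 / 2 by norm_num))] with T h1 h2 h3
    have hT0 : 0 < T := by linarith
    set δ := dl (N T) with hδ
    set F : ℝ → ℝ := fun t => Φ (fun j => V j (N T) (t + u j * δ)) with hF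
    have hFc : Continuous F := hc.comp (continuous_pi fun j =>
      (hVc j _).comp (continuous_id.add continuous_const))
    have hFb : ∀ t, ‖F t‖ ≤ S * (N T : ℝ) ^ k := by
      intro t
      rw [Real.norm_eq_abs]
      refine (hbd _).trans ?_
      rw [hS, mul_assoc, Finset.sum_mul]
      refine mul_le_mul_of_nonneg_left (Finset.sum_le_sum fun j _ => ?_) hC0
      rw [← Real.mul_rpow (hB j) (Nat.cast_nonneg _)]
      exact Real.rpow_le_rpow (norm_nonneg _) (hVB j _ _) hk0.le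
    have e1 : ∫ t in Set.Icc 0 T, Φ (fun j => V j (N T) (t + (u j + U) * δ)) =
        ∫ t in (U * δ)..(T + U * δ), F t := by
      have e2 : (fun t => Φ (fun j => V j (N T) (t + (u j + U) * δ))) =
          fun t => F (t + U * δ) := by
        funext t
        simp only [hF]
        congr 1
        funext j
        congr 1
        ring
      rw [e2, integral_Icc_eq_integral_Ioc, ← intervalIntegral.integral_of_le hT0.le,
        intervalIntegral.integral_comp_add_right, zero_add]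
    have e3 : ∫ t in Set.Icc 0 T, F t = ∫ t in (0 : ℝ)..T, F t := by
      rw [integral_Icc_eq_integral_Ioc, ← intervalIntegral.integral_of_le hT0.le]
    rw [← mul_sub, e1]
    change ‖(2 * δ) ^ ((k / 2) ^ 2) / T * ((∫ t in Set.Icc 0 T, F t) -
      ∫ t in (U * δ)..(T + U * δ), F t)‖ ≤ _
    rw [e3]
    have hi : ∀ x y, IntervalIntegrable F volume x y := fun x y => hFc.intervalIntegrable x y
    have e4 : (∫ t in (0 : ℝ)..T, F t) - ∫ t in (U * δ)..(T + U * δ), F t =
        (∫ t in (0 : ℝ)..(U * δ), F t) - ∫ t in T..(T + U * δ), F t := by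
      have a1 := intervalIntegral.integral_add_adjacent_intervals (hi 0 (U * δ))
        (hi (U * δ) (T + U * δ))
      have a2 := intervalIntegral.integral_add_adjacent_intervals (hi 0 T) (hi T (T + U * δ))
      linarith
    rw [e4]
    have hUδ : 0 ≤ U * δ := mul_nonneg hU0 h1.le
    have b1 := intervalIntegral.norm_integral_le_of_norm_le_const (a := 0) (b := U * δ)
      (f := F) (C := S * (N T : ℝ) ^ k) fun t _ => hFb t
    have b2 := intervalIntegral.norm_integral_le_of_norm_le_const (a := T) (b := T + U * δ)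
      (f := F) (C := S * (N T : ℝ) ^ k) fun t _ => hFb t
    rw [sub_zero, abs_of_nonneg hUδ] at b1
    rw [add_sub_cancel_left, abs_of_nonneg hUδ] at b2
    have hSN : 0 ≤ S * (N T : ℝ) ^ k := by positivity
    have b3 : ‖(∫ t in (0 : ℝ)..(U * δ), F t) - ∫ t in T..(T + U * δ), F t‖ ≤
        2 * U * S * (N T : ℝ) ^ k := by
      refine (norm_sub_le _ _).trans ?_
      have b4 : S * (N T : ℝ) ^ k * (U * δ) ≤ S * (N T : ℝ) ^ k * (U * 1) :=
        mul_le_mul_of_nonneg_left (mul_le_mul_of_nonneg_left (by linarith) hU0) hSN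
      linarith
    have hp0 : 0 ≤ (2 * δ) ^ ((k / 2) ^ 2) := Real.rpow_nonneg (by positivity) _
    have hp1 : (2 * δ) ^ ((k / 2) ^ 2) ≤ 1 :=
      Real.rpow_le_one (by positivity) (by linarith) (sq_nonneg _)
    rw [norm_mul, norm_div, Real.norm_of_nonneg hp0, Real.norm_of_nonneg hT0.le]
    calc (2 * δ) ^ ((k / 2) ^ 2) / T * _ ≤ 1 / T * (2 * U * S * (N T : ℝ) ^ k) := by
          refine mul_le_mul ?_ b3 (norm_nonneg _) (by positivity)
          gcongr
      _ = 2 * U * S * ((N T : ℝ) ^ k / T ^ (1 : ℝ)) := by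
          rw [Real.rpow_one]; ring
  have h2 := key.add (hl N hN)
  rw [zero_add] at h2
  refine h2.congr fun T => ?_
  ring

end Pool.Agent.H7.PT
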