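import Pool.Agent.H7.PT.P20

set_option autoImplicit false
open MeasureTheory Metric Filter ProbabilityTheory
open scoped ComplexConjugate ENNReal Topology ContDiff

/-! Weighted partial sums of arbitrary lengths. -/

namespace Pool.Agent.H7.PT

open Pool.Agent.H7.PM (dl dl_pos dl_nonneg dl_tendsto)
open Pool.Agent.V11128.CXL

/-- weighted partial sums -/
noncomputable def wsum (b : ℝ) (P : ℝ → ℂ) (N : ℕ) (t : ℝ) : ℂ :=
  ∑ n ∈ Finset.Icc 1 ⌊(N : ℝ) ^ b⌋₊, P (Real.log n / Real.log N) *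
    (n : ℂ) ^ (-(1 / 2 + t * Complex.I) : ℂ)

/-- the rescaled weight -/
noncomputable def Pr (R : ℕ) (P : ℝ → ℂ) (x : ℝ) : ℂ := (chi x : ℂ) * P (R * x)

lemma Pr_smooth (R : ℕ) {P : ℝ → ℂ} (hP : ContDiff ℝ ∞ P) : ContDiff ℝ ∞ (Pr R P) :=
  (Complex.ofRealCLM.contDiff.comp chi_smooth).mul (hP.comp (contDiff_const.mul contDiff_id))

lemma Pr_supp (R : ℕ) (P : ℝ → ℂ) : HasCompactSupport (Pr R P) := by
  have h : HasCompactSupport fun x => (chi x : ℂ) :=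
    chi_supp.comp_left (g := fun y : ℝ => (y : ℂ)) (by simp)
  exact h.mul_right

lemma fl_pow {R : ℕ} (hR : 1 ≤ R) (b : ℝ) (N : ℕ) : fl (b / R) (N ^ R) = ⌊(N : ℝ) ^ b⌋₊ := by
  unfold fl
  congr 1
  have hR0 : (R : ℝ) ≠ 0 := by exact_mod_cast (by omega : R ≠ 0)
  push_cast
  rw [← Real.rpow_natCast, ← Real.rpow_mul (Nat.cast_nonneg N)]
  congr 1
  field_simp

lemma dl_pow (R N : ℕ) : dl (N ^ R) = 1 / (R * Real.log N) := by
  unfold dl
  push_cast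
  rw [Real.log_pow]

/-- change of the reference length -/
lemma wsum_eq {R : ℕ} (hR : 1 ≤ R) {b : ℝ} (hb2 : b / R ≤ 1 / 2) (P : ℝ → ℂ) {N : ℕ} (hN : 2 ≤ N)
    (u t : ℝ) : wsum b P N (t + u / Real.log N) =
      WS (b / R) (Pr R P) (N ^ R) (t + (R * u) * dl (N ^ R)) := by
  have hR0 : (0 : ℝ) < R := by exact_mod_cast hR
  have hl : 0 < Real.log (N : ℝ) := Real.log_pos (by exact_mod_cast (by omega : 1 < N))
  have hN0 : (0 : ℝ) < N := by exact_mod_cast (by omega : 0 < N)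
  unfold wsum WS
  rw [fl_pow hR]
  have e1 : t + (R * u) * dl (N ^ R) = t + u / Real.log N := by
    rw [dl_pow]; field_simp
  rw [e1]
  refine Finset.sum_congr rfl fun n hn => ?_
  obtain ⟨hn1, hn2⟩ := Finset.mem_Icc.1 hn
  congr 1
  have hn0 : (0 : ℝ) < n := by exact_mod_cast hn1
  have h1 : (n : ℝ) ≤ (N : ℝ) ^ b :=
    (Nat.cast_le.2 hn2).trans (Nat.floor_le (Real.rpow_nonneg hN0.le _))
  have h2 : Real.log n ≤ b * Real.log N := by
    rw [← Real.log_rpow hN0]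
    exact Real.log_le_log hn0 h1
  have h3 : dl (N ^ R) * Real.log n = Real.log n / Real.log N / R := by
    rw [dl_pow]; field_simp
  unfold Pr
  rw [chi_one, Complex.ofReal_one, one_mul, h3]
  · congr 1
    field_simp
  · exact mul_nonneg (dl_nonneg _) (Real.log_natCast_nonneg n)
  · rw [h3]
    have : Real.log n / Real.log N ≤ b := by rw [div_le_iff₀ hl]; exact h2
    calc Real.log n / Real.log N / R ≤ b / R := by gcongr
      _ ≤ 1 := by linarith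

lemma WS_bound {b : ℝ} (hb : 0 < b) (hb2 : b ≤ 1 / 2) {P : ℝ → ℂ} (hP : ContDiff ℝ ∞ P)
    (hPs : HasCompactSupport P) : ∃ B : ℝ, 0 ≤ B ∧ ∀ N t, ‖WS b P N t‖ ≤ B * N := by
  obtain ⟨p0, -, -, hp0, -, -, P0, -, -, -⟩ := smooth_data hP hPs
  refine ⟨p0, hp0, fun N t => ?_⟩
  unfold WS
  have h1 : ∀ n ∈ Finset.Icc 1 (fl b N), ‖P (dl N * Real.log n) *
      (n : ℂ) ^ (-(1 / 2 + t * Complex.I) : ℂ)‖ ≤ p0 := by
    intro n hn
    have hn1 : 1 ≤ n := (Finset.mem_Icc.1 hn).1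
    have hn1r : (1 : ℝ) ≤ n := by exact_mod_cast hn1
    rw [norm_mul]
    have h2 : ‖(n : ℂ) ^ (-(1 / 2 + t * Complex.I) : ℂ)‖ ≤ 1 := by
      rw [← Complex.ofReal_natCast, Complex.norm_cpow_eq_rpow_re_of_pos (by linarith)]
      exact Real.rpow_le_one_of_one_le_of_nonpos hn1r (by simp)
    calc _ ≤ p0 * 1 := mul_le_mul (P0 _) h2 (norm_nonneg _) hp0
      _ = p0 := mul_one _
  refine (norm_sum_le _ _).trans ((Finset.sum_le_sum h1).trans ?_)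
  rw [Finset.sum_const, Nat.card_Icc, Nat.add_sub_cancel, nsmul_eq_mul, mul_comm]
  refine mul_le_mul_of_nonneg_left ?_ hp0
  refine (fl_le (b := b) N).trans ?_
  rcases Nat.eq_zero_or_pos N with rfl | hN
  · rw [Nat.cast_zero, Real.zero_rpow hb.ne']
  · calc (N : ℝ) ^ b ≤ (N : ℝ) ^ (1 : ℝ) := Real.rpow_le_rpow_of_exponent_le (by exact_mod_cast hN)
          (by linarith)
      _ = N := Real.rpow_one _

lemma Adm.pow {N : ℝ → ℕ} (hN : Adm N) {R : ℕ} (hR : 1 ≤ R) : Adm (fun T => N T ^ R) := by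
  refine ⟨?_, ?_⟩
  · exact (tendsto_pow_atTop (by omega)).comp hN.1
  · have h1 := hN.2.const_mul (R : ℝ)
    rw [mul_zero] at h1
    refine h1.congr fun T => ?_
    push_cast
    rw [Real.log_pow]
    ring

theorem wsum_unif {k : ℝ} (hk : 1 < k) (hk4 : k ≤ 4) {m : ℕ} (b u : Fin m → ℝ)
    (P : Fin m → ℝ → ℂ) (hb : ∀ j, 0 < b j) (hP : ∀ j, ContDiff ℝ ∞ (P j))
    {Φ : (Fin m → ℂ) → ℝ} (hc : Continuous Φ) (hh : Hom k Φ) : ∃ c : ℝ, ∀ ε : ℝ, 0 < ε →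
    ∃ θ : ℝ, 0 < θ ∧ ∃ N0 : ℕ, ∀ N : ℕ, N0 ≤ N → ∀ T : ℝ, (N : ℝ) ^ (1 / θ) ≤ T →
      |(1 / T * ∫ t in (0 : ℝ)..T, Φ (fun j => wsum (b j) (P j) N (t + u j / Real.log N))) /
        Real.log N ^ (k ^ 2 / 4) - c| ≤ ε := by
  have hk0 : 0 < k := by linarith
  -- the reference length
  obtain ⟨R, hR1, hR⟩ : ∃ R : ℕ, 1 ≤ R ∧ ∀ j, b j / R ≤ 1 / 2 := by
    obtain ⟨R, hR⟩ := exists_nat_ge (1 + 2 * ∑ j, b j)
    have hs : ∀ j, b j ≤ ∑ j, b j := fun j =>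
      Finset.single_le_sum (f := b) (fun i _ => (hb i).le) (Finset.mem_univ j)
    have hs0 : 0 ≤ ∑ j, b j := Finset.sum_nonneg fun i _ => (hb i).le
    have hR0 : (1 : ℝ) ≤ R := by linarith
    refine ⟨R, by exact_mod_cast hR0, fun j => ?_⟩
    rw [div_le_div_iff₀ (by linarith) (by norm_num)]
    linarith [hs j]
  have hR0 : (0 : ℝ) < R := by exact_mod_cast hR1
  have hbR : ∀ j, 0 < b j / R := fun j => div_pos (hb j) hR0
  obtain ⟨l, hl⟩ := hom_seqVr hk hk4 (V := fun j => WS (b j / R) (Pr R (P j)))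
    (fun j N => WS_cont _ _ N)
    (fun j => app_WS hk hk4 (hbR j) (hR j) (Pr_smooth R (hP j)) (Pr_supp R (P j)))
    (fun j => WS_bound (hbR j) (hR j) (Pr_smooth R (hP j)) (Pr_supp R (P j)))
    (fun j => R * u j) hc hh
  refine ⟨l * (R : ℝ) ^ (k ^ 2 / 4) / 2 ^ (k ^ 2 / 4), unif (fun N T =>
    (1 / T * ∫ t in (0 : ℝ)..T, Φ (fun j => wsum (b j) (P j) N (t + u j / Real.log N))) /
        Real.log N ^ (k ^ 2 / 4)) _ fun N hN => ?_⟩
  have h0 := ((hl _ (hN.pow hR1)).mul_const ((R : ℝ) ^ (k ^ 2 / 4))).div_const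
    ((2 : ℝ) ^ (k ^ 2 / 4))
  refine h0.congr' ?_
  filter_upwards [hN.two, eventually_gt_atTop 0, hN.logpos] with T h1 h2 h4
  rw [intervalIntegral.integral_of_le h2.le, ← integral_Icc_eq_integral_Ioc]
  have e0 : ∀ t, (fun j => wsum (b j) (P j) (N T) (t + u j / Real.log (N T))) =
      fun j => WS (b j / R) (Pr R (P j)) (N T ^ R) (t + (R * u j) * dl (N T ^ R)) := fun t =>
    funext fun j => wsum_eq hR1 (hR j) (P j) h1 (u j) t
  simp_rw [e0]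
  have e1 : (2 * dl (N T ^ R)) ^ ((k / 2) ^ 2) =
      2 ^ (k ^ 2 / 4) / ((R : ℝ) ^ (k ^ 2 / 4) * Real.log (N T) ^ (k ^ 2 / 4)) := by
    have e2 : (k / 2) ^ 2 = k ^ 2 / 4 := by ring
    rw [e2, dl_pow, mul_one_div, Real.div_rpow (by norm_num) (by positivity),
      Real.mul_rpow hR0.le h4.le]
  rw [e1]
  have h5 : 0 < Real.log (N T) ^ (k ^ 2 / 4) := Real.rpow_pos_of_pos h4 _
  have h6 : (0 : ℝ) < 2 ^ (k ^ 2 / 4) := by positivity
  have h7 : (0 : ℝ) < (R : ℝ) ^ (k ^ 2 / 4) := by positivity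
  generalize (∫ t in Set.Icc 0 T, Φ fun j =>
    WS (b j / R) (Pr R (P j)) (N T ^ R) (t + (R * u j) * dl (N T ^ R))) = I
  field_simp

end Pool.Agent.H7.PT
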