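import Pool.Agent.H7.PM.E2
import Pool.Agent.H7.PT.P1
import Pool.Graph.R_pool_sql_team_seeded_843ab51a.V11128.CXL.I
import Pool.Graph.R_pool_sql_team_seeded_843ab51a.V11128.CXL.M
import Pool.Graph.R_pool_sql_team_seeded_843ab51a.V11128.CXL.O

set_option autoImplicit false
open MeasureTheory Metric Filter ProbabilityTheory
open scoped ComplexConjugate ENNReal Topology

/-! Means of homogeneous functions of zeta near the line. -/

namespace Pool.Agent.H7.PT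

open Pool.Agent.H7.PM (dl dl_pos dl_nonneg dl_tendsto)
open Pool.Agent.V11128.CXL
open Pool.Agent.H306R2 (aF aF_pos)

theorem hom_lim {β : ℝ} (hβ : 0 < β) (hβ4 : β ≤ 4) {n : ℕ} (a : Fin n → ℝ)
    (Φ : (Fin n → ℂ) → ℝ) (hc : Continuous Φ) (hh : Hom β Φ) : ∃ l : ℝ, ∀ δ : ℝ → ℝ,
    Tendsto δ atTop (𝓝 0) → Tendsto (fun T : ℝ => δ T * Real.log T) atTop atTop →
    Tendsto (fun T : ℝ => (2 * δ T) ^ ((β / 2) ^ 2) / T *
      ∫ t in Set.Icc 0 T, Φ (fun j => zc (δ T) (a j) t)) atTop (𝓝 l) := by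
  by_cases h : ∃ δ : ℝ → ℝ, Tendsto δ atTop (𝓝 0) ∧
      Tendsto (fun T : ℝ => δ T * Real.log T) atTop atTop
  · obtain ⟨δ0, h1, h2⟩ := h
    obtain ⟨ρ0, hρ0, hF0⟩ := homog_full h1 h2 hβ hβ4 a
    refine ⟨aF (β / 2) * ∫ v, Φ (Rm v) ∂(ρ0 : Measure (Fin (n + n) → ℝ)), fun δ h3 h4 => ?_⟩
    obtain ⟨ρ, hρ, hF⟩ := homog_full h3 h4 hβ hβ4 a
    have e : ρ = ρ0 := nor_unique hρ hρ0
    subst e
    exact (hF Φ hc hh).2
  · refine ⟨0, fun δ h3 h4 => ?_⟩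
    exact absurd ⟨δ, h3, h4⟩ h

/-- Gaussian computation -/
lemma exp_law {n : ℕ} (ρ' : ProbabilityMeasure (Fin n → ℂ)) (c : Fin n → ℂ) (m V : ℝ)
    (hV : 0 ≤ V) (h : (ρ' : Measure (Fin n → ℂ)).map (fun z => (∑ j, c j * z j).re) =
      gaussianReal m V.toNNReal) :
    ∫ z, Real.exp (∑ j, c j * z j).re ∂(ρ' : Measure (Fin n → ℂ)) = Real.exp (m + V / 2) := by
  have hm : Measurable fun z : Fin n → ℂ => (∑ j, c j * z j).re := by fun_prop
  have h1 : ∫ z, Real.exp (∑ j, c j * z j).re ∂(ρ' : Measure (Fin n → ℂ)) =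
      ∫ x, Real.exp x ∂(gaussianReal m V.toNNReal) := by
    rw [← h, integral_map hm.aemeasurable Real.continuous_exp.aestronglyMeasurable]
  rw [h1]
  have h2 := congrFun (mgf_fun_id_gaussianReal (μ := m) (v := V.toNNReal)) 1
  unfold mgf at h2
  simp only [one_mul, mul_one, one_pow] at h2
  rw [h2, Real.coe_toNNReal V hV]

lemma el_re_neg (x : ℝ) : (el (-x)).re = (el x).re := by
  rw [el_neg, Complex.conj_re]

lemma el_re (x : ℝ) : (el x).re = Real.log ‖1 + Complex.I * (x : ℂ) / 2‖ := by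
  unfold el
  rw [Complex.log_re]

lemma norm_u_ge (x : ℝ) : |x| / 2 ≤ ‖1 + Complex.I * (x : ℂ) / 2‖ := by
  have h := Complex.abs_im_le_norm (1 + Complex.I * (x : ℂ) / 2)
  rw [u_im, abs_div] at h
  norm_num at h
  exact h

lemma norm_u_pos (x : ℝ) : 0 < ‖1 + Complex.I * (x : ℂ) / 2‖ := norm_pos_iff.2 (u_ne x)

/-- two points -/
theorem prod_lim {β s0 s1 : ℝ} (h0 : 0 < s0) (h1 : 0 < s1) (hs : s0 + s1 = β) (hβ4 : β ≤ 4)
    (a0 a1 : ℝ) (δ : ℝ → ℝ) (hδ : Tendsto δ atTop (𝓝 0))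
    (hδL : Tendsto (fun T : ℝ => δ T * Real.log T) atTop atTop) :
    Tendsto (fun T : ℝ => (2 * δ T) ^ ((β / 2) ^ 2) / T *
      ∫ t in Set.Icc 0 T, ‖zc (δ T) a0 t‖ ^ s0 * ‖zc (δ T) a1 t‖ ^ s1) atTop
      (𝓝 (aF (β / 2) * ‖1 + Complex.I * ((a0 - a1 : ℝ) : ℂ) / 2‖ ^ (-(s0 * s1 / 2)))) := by
  have hβ : 0 < β := by linarith
  obtain ⟨ρ, hρ, hF⟩ := homog_full hδ hδL hβ hβ4 ![a0, a1]
  obtain ⟨ρ', h2, h3⟩ := toC β ![a0, a1] hρ
  set Φ : (Fin 2 → ℂ) → ℝ := fun z => ‖z 0‖ ^ s0 * ‖z 1‖ ^ s1 with hΦ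
  have hc : Continuous Φ := by
    rw [hΦ]
    exact ((continuous_apply 0).norm.rpow_const fun _ => Or.inr h0.le).mul
      ((continuous_apply 1).norm.rpow_const fun _ => Or.inr h1.le)
  have hh : Hom β Φ := by
    intro l z
    simp only [hΦ]
    rw [norm_mul, norm_mul, Real.mul_rpow (norm_nonneg _) (norm_nonneg _),
      Real.mul_rpow (norm_nonneg _) (norm_nonneg _), ← hs,
      Real.rpow_add_of_nonneg (norm_nonneg _) h0.le h1.le]
    ring
  obtain ⟨h4, h5⟩ := hF Φ hc hh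
  have h6 := (h3 Φ hc).2
  rw [← h6] at h5
  set c : Fin 2 → ℂ := ![(s0 : ℂ), (s1 : ℂ)] with hcdef
  obtain ⟨hV, hlaw⟩ := h2 c
  have h7 := exp_law ρ' c _ _ hV hlaw
  have h8 : ∀ z : Fin 2 → ℂ, Φ (fun j => Complex.exp (z j)) =
      Real.exp (∑ j, c j * z j).re := by
    intro z
    simp only [hΦ, hcdef, Fin.sum_univ_two, Matrix.cons_val_zero, Matrix.cons_val_one,
      Complex.norm_exp, Complex.add_re, Complex.re_ofReal_mul]
    rw [Real.exp_add, ← Real.exp_mul, ← Real.exp_mul, mul_comm s0, mul_comm s1]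
  have h9 : ∫ z, Φ (fun j => Complex.exp (z j)) ∂(ρ' : Measure (Fin 2 → ℂ)) =
      ‖1 + Complex.I * ((a0 - a1 : ℝ) : ℂ) / 2‖ ^ (-(s0 * s1 / 2)) := by
    simp_rw [h8]
    rw [h7, Real.rpow_def_of_pos (norm_u_pos _), ← el_re]
    congr 1
    simp only [hcdef, Fin.sum_univ_two, Matrix.cons_val_zero, Matrix.cons_val_one,
      Complex.conj_ofReal]
    unfold kl
    have e0 : el (a0 - a0) = 0 := by rw [sub_self, el_zero]
    have e1 : el (a1 - a1) = 0 := by rw [sub_self, el_zero]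
    rw [e0, e1]
    have e2 : (el (a1 - a0)).re = (el (a0 - a1)).re := by
      rw [← el_re_neg, neg_sub]
    have hβc : (β : ℂ) / 2 = ((β / 2 : ℝ) : ℂ) := by push_cast; rfl
    rw [hβc, ← Complex.ofReal_mul, ← Complex.ofReal_mul, ← Complex.ofReal_mul,
      ← Complex.ofReal_mul]
    simp only [Complex.add_re, Complex.re_ofReal_mul, Complex.sub_re, Complex.zero_re,
      ← Complex.ofReal_neg, e2, el_re_neg]
    rw [← hs]
    ring
  rw [h9] at h5
  exact h5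

/-- one point -/
theorem one_lim {β : ℝ} (hβ : 0 < β) (hβ4 : β ≤ 4)
    (a0 : ℝ) (δ : ℝ → ℝ) (hδ : Tendsto δ atTop (𝓝 0))
    (hδL : Tendsto (fun T : ℝ => δ T * Real.log T) atTop atTop) :
    Tendsto (fun T : ℝ => (2 * δ T) ^ ((β / 2) ^ 2) / T *
      ∫ t in Set.Icc 0 T, ‖zc (δ T) a0 t‖ ^ β) atTop (𝓝 (aF (β / 2))) := by
  have h := prod_lim (β := β) (s0 := β / 2) (s1 := β / 2) (by positivity) (by positivity)
    (by ring) hβ4 a0 a0 δ hδ hδL
  have e1 : ‖1 + Complex.I * ((a0 - a0 : ℝ) : ℂ) / 2‖ = 1 := by simp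
  rw [e1, Real.one_rpow, mul_one] at h
  refine h.congr fun T => ?_
  congr 2
  funext t
  rw [← Real.rpow_add_of_nonneg (norm_nonneg _) (by positivity) (by positivity)]
  congr 1
  ring

/-- admissible lengths -/
def Adm (N : ℝ → ℕ) : Prop :=
  Tendsto N atTop atTop ∧ Tendsto (fun T : ℝ => Real.log (N T) / Real.log T) atTop (𝓝 0)

lemma Adm.delta {N : ℝ → ℕ} (h : Adm N) : Tendsto (fun T => dl (N T)) atTop (𝓝 0) :=
  dl_tendsto.comp h.1

lemma Adm.two {N : ℝ → ℕ} (h : Adm N) : ∀ᶠ T in atTop, 2 ≤ N T := h.1.eventually_ge_atTop 2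

lemma Adm.pos {N : ℝ → ℕ} (h : Adm N) : ∀ᶠ T in atTop, 0 < dl (N T) := by
  filter_upwards [h.two] with T hT using dl_pos hT

lemma Adm.logpos {N : ℝ → ℕ} (h : Adm N) : ∀ᶠ T in atTop, 0 < Real.log (N T) := by
  filter_upwards [h.two] with T hT using Real.log_pos (by exact_mod_cast hT)

lemma Adm.L {N : ℝ → ℕ} (h : Adm N) :
    Tendsto (fun T : ℝ => dl (N T) * Real.log T) atTop atTop := by
  have h1 : Tendsto (fun T : ℝ => Real.log (N T) / Real.log T) atTop (𝓝[>] 0) := by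
    rw [tendsto_nhdsWithin_iff]
    refine ⟨h.2, ?_⟩
    filter_upwards [h.logpos, eventually_gt_atTop 1] with T h1 h2
    exact div_pos h1 (Real.log_pos h2)
  have h2 := h1.inv_tendsto_nhdsGT_zero
  refine h2.congr fun T => ?_
  unfold dl
  rw [Pi.inv_apply, inv_div]
  ring

/-- the scale -/
noncomputable def SS (k : ℝ) (N : ℝ → ℕ) (T : ℝ) : ℝ :=
  (T * (2 * dl (N T)) ^ (-((k / 2) ^ 2))) ^ (1 / k)

lemma SS_nonneg (k : ℝ) (N : ℝ → ℕ) {T : ℝ} (hT : 0 ≤ T) : 0 ≤ SS k N T := by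
  unfold SS
  exact Real.rpow_nonneg (mul_nonneg hT (Real.rpow_nonneg (by
    have := dl_nonneg (N T); positivity) _)) _

lemma SS_rpow {k : ℝ} (hk : 0 < k) (N : ℝ → ℕ) {T : ℝ} (hT : 0 ≤ T) :
    SS k N T ^ k = T * (2 * dl (N T)) ^ (-((k / 2) ^ 2)) := by
  unfold SS
  rw [← Real.rpow_mul (mul_nonneg hT (Real.rpow_nonneg (by
    have := dl_nonneg (N T); positivity) _)), one_div_mul_cancel hk.ne', Real.rpow_one]

/-- change of the length of the interval -/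
lemma scaled {N : ℝ → ℕ} (h : Adm N) {c : ℝ} (hc : 0 < c) {F : ℝ → ℝ → ℝ} {e l : ℝ}
    (hF : ∀ δ : ℝ → ℝ, Tendsto δ atTop (𝓝 0) →
      Tendsto (fun T : ℝ => δ T * Real.log T) atTop atTop →
      Tendsto (fun T : ℝ => (2 * δ T) ^ e / T * ∫ t in Set.Icc 0 T, F (δ T) t) atTop (𝓝 l)) :
    Tendsto (fun T : ℝ => (2 * dl (N T)) ^ e / (c * T) *
      ∫ t in Set.Icc 0 (c * T), F (dl (N T)) t) atTop (𝓝 l) := by
  have hdiv : Tendsto (fun T : ℝ => T / c) atTop atTop := tendsto_id.atTop_div_const hc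
  have hmul : Tendsto (fun T : ℝ => c * T) atTop atTop := tendsto_id.const_mul_atTop hc
  have h1 : Tendsto (fun T : ℝ => dl (N (T / c))) atTop (𝓝 0) := h.delta.comp hdiv
  have h2 : Tendsto (fun T : ℝ => dl (N (T / c)) * Real.log T) atTop atTop := by
    have h3 : Tendsto (fun T : ℝ => dl (N (T / c)) * Real.log (T / c) +
        dl (N (T / c)) * Real.log c) atTop atTop := by
      refine Tendsto.atTop_add (h.L.comp hdiv) (C := 0 * Real.log c) ?_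
      exact h1.mul_const _
    refine h3.congr' ?_
    filter_upwards [eventually_gt_atTop 0] with T hT
    rw [Real.log_div hT.ne' hc.ne']
    ring
  have h3 := (hF _ h1 h2).comp hmul
  refine h3.congr fun T => ?_
  simp only [Function.comp]
  rw [mul_div_cancel_left₀ T hc.ne']

/-- from limits to bounds -/
lemma bound_of_lim {k : ℝ} (hk : 0 < k) {N : ℝ → ℕ} (h : Adm N) {c l l' : ℝ} (hc : 0 < c)
    (hl : l < l') (hl' : 0 ≤ l') {I : ℝ → ℝ}
    (hI : Tendsto (fun T : ℝ => (2 * dl (N T)) ^ ((k / 2) ^ 2) / (c * T) * I T) atTop (𝓝 l)) :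
    ∀ᶠ T in atTop, I T ≤ l' * c * SS k N T ^ k := by
  filter_upwards [hI.eventually (gt_mem_nhds hl), h.pos, eventually_gt_atTop 0] with T h1 h2 h3
  rw [SS_rpow hk N h3.le]
  have h4 : 0 < (2 * dl (N T)) ^ ((k / 2) ^ 2) := Real.rpow_pos_of_pos (by positivity) _
  rw [Real.rpow_neg (by positivity)]
  have h5 : (2 * dl (N T)) ^ ((k / 2) ^ 2) / (c * T) * I T =
      I T / (c * T * ((2 * dl (N T)) ^ ((k / 2) ^ 2))⁻¹) := by
    field_simp
  rw [h5, div_lt_iff₀ (by positivity)] at h1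
  linarith

end Pool.Agent.H7.PT
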