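import Pool.Agent.H7.PT.P3

set_option autoImplicit false
open MeasureTheory Metric Filter ProbabilityTheory
open scoped ComplexConjugate ENNReal Topology

/-! Upper bounds, limits and decorrelation for shifted values of zeta. -/

namespace Pool.Agent.H7.PT

open Pool.Agent.H7.PM (dl dl_pos dl_nonneg dl_tendsto pw)
open Pool.Agent.V11128.CXL
open Pool.Agent.H306R2 (aF aF_pos)

lemma int_reflect (g : ℝ → ℝ) (a b : ℝ) :
    ∫ t in Set.Icc (-b) (-a), g t = ∫ t in Set.Icc a b, g (-t) := by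
  rcases le_total a b with hab | hab
  · rw [integral_Icc_eq_integral_Ioc, integral_Icc_eq_integral_Ioc,
      ← intervalIntegral.integral_of_le hab, ← intervalIntegral.integral_of_le (by linarith),
      intervalIntegral.integral_comp_neg]
  · rcases hab.eq_or_lt with rfl | hab
    · simp
    · rw [Set.Icc_eq_empty (not_le.2 hab), Set.Icc_eq_empty (not_le.2 (by linarith))]
      simp

lemma nI_reflect (p a b : ℝ) (F : ℝ → ℂ) :
    nI p (-b) (-a) F = nI p a b (fun t => F (-t)) := by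
  unfold nI
  rw [int_reflect (fun t => ‖F t‖ ^ p)]

lemma zc_reflect (δ x t : ℝ) : ‖zc δ x (-t)‖ = ‖zc δ (-x) t‖ := by
  unfold zc
  rw [← Complex.norm_conj, ← riemannZeta_conj]
  congr 2
  simp only [map_add, map_mul, map_div₀, map_one, Complex.conj_ofReal, Complex.conj_I,
    Complex.conj_ofNat]
  push_cast
  ring

lemma zc_shift (δ a b t : ℝ) : zc δ a (t + b * δ) = zc δ (a + b) t := by
  unfold zc
  congr 3
  push_cast
  ring

lemma nI_zero_le {p a b : ℝ} (hp : 0 < p) (hab : b < a) (F : ℝ → ℂ) : nI p a b F = 0 := by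
  unfold nI
  rw [Set.Icc_eq_empty (not_le.2 hab)]
  simp [Real.zero_rpow (inv_ne_zero hp.ne')]

/-- the upper bound on symmetric intervals -/
theorem Zup {k : ℝ} (hk : 1 < k) (hk4 : k ≤ 4) : ∃ C : ℝ, 0 ≤ C ∧ ∀ N : ℝ → ℕ, Adm N →
    ∀ᶠ T in atTop, nI k (-(3 * T)) (3 * T) (zc (dl (N T)) 0) ≤ C * SS k N T := by
  have hk0 : 0 < k := by linarith
  have hA := aF_pos (κ := k / 2) (by positivity)
  set A := aF (k / 2) with hAdef
  refine ⟨2 * ((A + 1) * 3) ^ (1 / k), by positivity, fun N hN => ?_⟩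
  have h1 := scaled hN (c := 3) (by norm_num) (F := fun δ t => ‖zc δ 0 t‖ ^ k)
    (e := (k / 2) ^ 2) (l := A) (fun δ h2 h3 => one_lim hk0 hk4 0 δ h2 h3)
  have h2 := bound_of_lim hk0 hN (c := 3) (by norm_num) (lt_add_one A) (by linarith) h1
  filter_upwards [h2, eventually_ge_atTop 1,
    hN.delta.eventually (gt_mem_nhds (show (0 : ℝ) < 1 / 2 by norm_num))] with T h3 h4 h5
  have hc := zc_cont h5 0
  have hS := SS_nonneg k N (show 0 ≤ T by linarith)
  have h6 : nI k 0 (3 * T) (zc (dl (N T)) 0) ≤ ((A + 1) * 3) ^ (1 / k) * SS k N T := by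
    refine nI_le_of hk0 (by positivity) ?_
    rw [Real.mul_rpow (by positivity) hS, ← Real.rpow_mul (by positivity),
      one_div_mul_cancel hk0.ne', Real.rpow_one]
    exact h3
  have h7 : nI k (-(3 * T)) 0 (zc (dl (N T)) 0) = nI k 0 (3 * T) (zc (dl (N T)) 0) := by
    have h8 := nI_reflect k 0 (3 * T) (zc (dl (N T)) 0)
    rw [neg_zero] at h8
    rw [h8]
    refine nI_congr fun t _ => ?_
    rw [zc_reflect, neg_zero]
  have h9 := nI_split hk.le (a := -(3 * T)) (b := 0) (c := 3 * T) (by linarith) (by linarith) hc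
  rw [h7] at h9
  linarith

lemma deriv_conj (s : ℂ) : deriv riemannZeta (conj s) = conj (deriv riemannZeta s) := by
  have h1 : (fun z => conj (riemannZeta (conj z))) = riemannZeta := by
    funext z
    rw [riemannZeta_conj, Complex.conj_conj]
  conv_lhs => rw [← h1]
  have h2 := congrFun (deriv_conj_conj (f := riemannZeta)) (conj s)
  simp only [Function.comp, Complex.conj_conj] at h2
  exact h2

lemma dz_cont {δ : ℝ} (h : δ < 1 / 4) : Continuous fun t : ℝ => deriv riemannZeta (pt δ t) := by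
  have h1 : ContinuousOn (deriv riemannZeta) {1}ᶜ := by
    have h2 : DifferentiableOn ℂ riemannZeta {1}ᶜ := fun s hs =>
      (differentiableAt_riemannZeta hs).differentiableWithinAt
    exact (h2.deriv isOpen_compl_singleton).continuousOn
  exact h1.comp_continuous (pt_cont δ) fun t => pt_ne h

/-- the derivative -/
theorem Dup {k : ℝ} (hk : 1 < k) (hk4 : k ≤ 4) : ∃ C : ℝ, 0 ≤ C ∧ ∀ N : ℝ → ℕ, Adm N →
    ∀ᶠ T in atTop, dl (N T) * nI k (-(3 * T)) (3 * T)
      (fun t => deriv riemannZeta (pt (dl (N T)) t)) ≤ C * SS k N T := by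
  have hk0 : 0 < k := by linarith
  set Φ : ℂ × ℂ → ℝ := fun z => ‖z.2‖ ^ k with hΦ
  have hc : Continuous Φ := continuous_snd.norm.rpow_const fun _ => Or.inr hk0.le
  have hh : Hom2 k Φ := by
    intro l a b
    simp only [hΦ]
    rw [norm_mul, Real.mul_rpow (norm_nonneg _) (norm_nonneg _)]
  set A := aF (k / 2) * ∫ p, Φ (1, q0 k p) ∂N2 with hAdef
  have hA0 : 0 ≤ A := mul_nonneg (aF_pos (κ := k / 2) (by positivity)).le
    (integral_nonneg fun p => by simp only [hΦ]; positivity)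
  refine ⟨2 * ((A + 1) * 3) ^ (1 / k), by positivity, fun N hN => ?_⟩
  have h1 := scaled hN (c := 3) (by norm_num)
    (F := fun δ t => Φ (riemannZeta (pt δ t), δ * deriv riemannZeta (pt δ t)))
    (e := (k / 2) ^ 2) (l := A) (fun δ h2 h3 => (deriv_moment h2 h3 hk0 hk4 hc hh).2)
  have h2 := bound_of_lim hk0 hN (c := 3) (by norm_num) (lt_add_one A) (by linarith) h1
  filter_upwards [h2, eventually_ge_atTop 1, hN.pos,
    hN.delta.eventually (gt_mem_nhds (show (0 : ℝ) < 1 / 4 by norm_num))] with T h3 h4 h4' h5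
  set δ := dl (N T) with hδ
  set F : ℝ → ℂ := fun t => deriv riemannZeta (pt δ t) with hF
  have hc := dz_cont h5
  have hS := SS_nonneg k N (show 0 ≤ T by linarith)
  have h6 : δ * nI k 0 (3 * T) F ≤ ((A + 1) * 3) ^ (1 / k) * SS k N T := by
    have e : δ * nI k 0 (3 * T) F = nI k 0 (3 * T) (fun t => (δ : ℂ) * F t) := by
      rw [nI_const_mul hk0, Complex.norm_real, Real.norm_of_nonneg h4'.le]
    rw [e]
    refine nI_le_of hk0 (by positivity) ?_
    rw [Real.mul_rpow (by positivity) hS, ← Real.rpow_mul (by positivity),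
      one_div_mul_cancel hk0.ne', Real.rpow_one]
    exact h3
  have h7 : nI k (-(3 * T)) 0 F = nI k 0 (3 * T) F := by
    have h8 := nI_reflect k 0 (3 * T) F
    rw [neg_zero] at h8
    rw [h8]
    refine nI_congr fun t _ => ?_
    simp only [hF]
    rw [← Complex.norm_conj, ← deriv_conj]
    congr 2
    unfold pt
    simp only [map_add, map_mul, map_div₀, map_one, Complex.conj_ofReal, Complex.conj_I,
      Complex.conj_ofNat]
    push_cast
    ring
  have h9 := nI_split hk.le (a := -(3 * T)) (b := 0) (c := 3 * T) (by linarith) (by linarith) hc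
  rw [h7] at h9
  have h10 := mul_le_mul_of_nonneg_left h9 h4'.le
  rw [mul_add] at h10
  calc _ ≤ _ := h10
    _ ≤ _ := by linarith

/-- combinations of shifted values -/
noncomputable def cmb {n : ℕ} (w : Fin n → ℂ) (a : Fin n → ℝ) (δ t : ℝ) : ℂ :=
  ∑ j, w j * zc δ (a j) t

lemma cmb_cont {n : ℕ} (w : Fin n → ℂ) (a : Fin n → ℝ) {δ : ℝ} (h : δ < 1 / 2) :
    Continuous (cmb w a δ) :=
  continuous_finsetSum _ fun j _ => continuous_const.mul (zc_cont h (a j))

theorem cmb_lim {k : ℝ} (hk : 1 < k) (hk4 : k ≤ 4) {n : ℕ} (w : Fin n → ℂ) (a : Fin n → ℝ) :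
    ∃ l : ℝ, ∀ N : ℝ → ℕ, Adm N →
      Tendsto (fun T : ℝ => nI k 0 T (cmb w a (dl (N T))) / SS k N T) atTop (𝓝 l) := by
  have hk0 : 0 < k := by linarith
  set Φ : (Fin n → ℂ) → ℝ := fun z => ‖∑ j, w j * z j‖ ^ k with hΦ
  have hc : Continuous Φ := by
    refine Continuous.rpow_const ?_ fun _ => Or.inr hk0.le
    fun_prop
  have hh : Hom k Φ := by
    intro l z
    simp only [hΦ]
    have e : ∑ j, w j * (l * z j) = l * ∑ j, w j * z j := by
      rw [Finset.mul_sum]
      exact Finset.sum_congr rfl fun j _ => by ring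
    rw [e, norm_mul, Real.mul_rpow (norm_nonneg _) (norm_nonneg _)]
  obtain ⟨l, hl⟩ := hom_lim hk0 hk4 a Φ hc hh
  refine ⟨l ^ (1 / k), fun N hN => ?_⟩
  have h1 := (hl _ hN.delta hN.L).rpow_const (p := 1 / k) (Or.inr (by positivity))
  refine h1.congr' ?_
  filter_upwards [hN.pos, eventually_gt_atTop 0] with T h2 h3
  have hI : 0 ≤ ∫ t in Set.Icc 0 T, ‖cmb w a (dl (N T)) t‖ ^ k := int_nonneg _ _ _ _
  have e : (2 * dl (N T)) ^ ((k / 2) ^ 2) / T *
      ∫ t in Set.Icc 0 T, Φ (fun j => zc (dl (N T)) (a j) t) =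
      (∫ t in Set.Icc 0 T, ‖cmb w a (dl (N T)) t‖ ^ k) /
        (T * (2 * dl (N T)) ^ (-((k / 2) ^ 2))) := by
    rw [Real.rpow_neg (by positivity)]
    have : 0 < (2 * dl (N T)) ^ ((k / 2) ^ 2) := Real.rpow_pos_of_pos (by positivity) _
    have e2 : ∫ t in Set.Icc 0 T, Φ (fun j => zc (dl (N T)) (a j) t) =
        ∫ t in Set.Icc 0 T, ‖cmb w a (dl (N T)) t‖ ^ k := rfl
    rw [e2]
    field_simp
  rw [e, Real.div_rpow hI (by positivity)]
  rfl

/-- the decorrelation -/
theorem decor {k : ℝ} (hk : 1 < k) (hk4 : k ≤ 4) {η : ℝ} (hη : 0 < η) :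
    ∃ J : ℕ, 1 ≤ J ∧ ∃ L : ℝ, 0 < L ∧ ∀ a L' : ℝ, L ≤ |L'| → ∀ N : ℝ → ℕ, Adm N →
    ∀ᶠ T in atTop, nI k 0 (3 * T) (fun t => (((1 / (J : ℝ)) *
      ∑ m : Fin J, ‖zc (dl (N T)) (a + (m : ℕ) * L') t‖ : ℝ) : ℂ)) ≤ η * SS k N T := by
  have hk0 : 0 < k := by linarith
  have hk1 : 0 < k - 1 := by linarith
  have hA := aF_pos (κ := k / 2) (by positivity)
  set A := aF (k / 2) with hAdef
  set B : ℝ := 2 ^ (k - 1) with hB
  have hB0 : 0 < B := by positivity
  have hηk : 0 < η ^ k := by positivity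
  obtain ⟨J, hJ1, hJ⟩ : ∃ J : ℕ, 1 ≤ J ∧ B * (6 * A) * (J : ℝ) ^ (-(k - 1)) ≤ η ^ k / 2 := by
    have h1 : Tendsto (fun J : ℕ => B * (6 * A) * (J : ℝ) ^ (-(k - 1))) atTop
        (𝓝 (B * (6 * A) * 0)) :=
      ((tendsto_rpow_neg_atTop hk1).comp tendsto_natCast_atTop_atTop).const_mul _
    rw [mul_zero] at h1
    obtain ⟨J, hJ, hJ1⟩ := ((h1.eventually (gt_mem_nhds (half_pos hηk))).and
      (eventually_ge_atTop 1)).exists
    exact ⟨J, hJ1, hJ.le⟩
  have hJ0 : (0 : ℝ) < J := by exact_mod_cast hJ1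
  set ξ : ℝ := η ^ k / (6 * A * B * J) with hξ
  have hξ0 : 0 < ξ := by positivity
  set L : ℝ := 2 * (ξ / 2) ^ (-(2 / (k - 1))) with hL
  have hL0 : 0 < L := by positivity
  refine ⟨J, hJ1, L, hL0, fun a L' hLL N hN => ?_⟩
  -- diagonal
  have hd : ∀ᶠ T in atTop, ∀ m : Fin J, ∫ t in Set.Icc 0 (3 * T),
      ‖zc (dl (N T)) (a + (m : ℕ) * L') t‖ ^ k ≤ 2 * A * 3 * SS k N T ^ k := by
    refine Filter.eventually_all.2 fun m => ?_
    have h1 := scaled hN (c := 3) (by norm_num)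
      (F := fun δ t => ‖zc δ (a + (m : ℕ) * L') t‖ ^ k)
      (e := (k / 2) ^ 2) (l := A) (fun δ h2 h3 => one_lim hk0 hk4 _ δ h2 h3)
    exact bound_of_lim hk0 hN (c := 3) (by norm_num) (by linarith) (by linarith) h1
  have ho : ∀ᶠ T in atTop, ∀ m : Fin J, ∀ l ∈ Finset.univ.erase m, ∫ t in Set.Icc 0 (3 * T),
      ‖zc (dl (N T)) (a + (m : ℕ) * L') t‖ * ‖zc (dl (N T)) (a + (l : ℕ) * L') t‖ ^ (k - 1) ≤
      A * ξ * 3 * SS k N T ^ k := by
    refine Filter.eventually_all.2 fun m => (Filter.eventually_all_finset _).2 fun l hl => ?_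
    have hne : (l : ℕ) ≠ (m : ℕ) := fun h => (Finset.mem_erase.1 hl).1 (Fin.ext h)
    set Δ : ℝ := (a + (m : ℕ) * L') - (a + (l : ℕ) * L') with hΔ
    have hΔL : L ≤ |Δ| := by
      have e : Δ = (((m : ℕ) : ℝ) - ((l : ℕ) : ℝ)) * L' := by rw [hΔ]; ring
      rw [e, abs_mul]
      have h1 : (1 : ℝ) ≤ |((m : ℕ) : ℝ) - ((l : ℕ) : ℝ)| := by
        have h2 : (1 : ℤ) ≤ |((m : ℕ) : ℤ) - ((l : ℕ) : ℤ)| := by
          apply Int.one_le_abs
          omega
        exact_mod_cast h2
      nlinarith [abs_nonneg L']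
    have h1 := scaled hN (c := 3) (by norm_num)
      (F := fun δ t => ‖zc δ (a + (m : ℕ) * L') t‖ ^ (1 : ℝ) *
        ‖zc δ (a + (l : ℕ) * L') t‖ ^ (k - 1))
      (e := (k / 2) ^ 2) (l := A * ‖1 + Complex.I * (Δ : ℂ) / 2‖ ^ (-(1 * (k - 1) / 2)))
      (fun δ h2 h3 => prod_lim one_pos hk1 (by ring) hk4 _ _ δ h2 h3)
    have h2 : ‖1 + Complex.I * (Δ : ℂ) / 2‖ ^ (-(1 * (k - 1) / 2)) ≤ ξ / 2 := by
      have h3 : L / 2 ≤ ‖1 + Complex.I * (Δ : ℂ) / 2‖ :=
        le_trans (by linarith) (norm_u_ge Δ)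
      calc _ ≤ (L / 2) ^ (-(1 * (k - 1) / 2)) :=
            Real.rpow_le_rpow_of_nonpos (by positivity) h3 (by
              have : 0 ≤ 1 * (k - 1) / 2 := by positivity
              linarith)
        _ = ξ / 2 := by
            have e : L / 2 = (ξ / 2) ^ (-(2 / (k - 1))) := by rw [hL]; ring
            rw [e, ← Real.rpow_mul (by positivity)]
            have e2 : -(2 / (k - 1)) * -(1 * (k - 1) / 2) = 1 := by field_simp
            rw [e2, Real.rpow_one]
    have h3 : A * ‖1 + Complex.I * (Δ : ℂ) / 2‖ ^ (-(1 * (k - 1) / 2)) < A * ξ := by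
      refine mul_lt_mul_of_pos_left ?_ hA
      linarith
    have h4 := bound_of_lim hk0 hN (c := 3) (by norm_num) h3 (by positivity) h1
    filter_upwards [h4] with T h5
    simpa only [Real.rpow_one] using h5
  filter_upwards [hd, ho, eventually_ge_atTop 1,
    hN.delta.eventually (gt_mem_nhds (show (0 : ℝ) < 1 / 2 by norm_num))] with T h1 h2 h3 h4
  set X : Fin J → ℝ → ℝ := fun m t => ‖zc (dl (N T)) (a + (m : ℕ) * L') t‖ with hX
  have hXc : ∀ m, Continuous (X m) := fun m => (zc_cont h4 _).norm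
  have hX0 : ∀ m t, 0 ≤ X m t := fun m z => norm_nonneg _
  have hXk : ∀ m, Continuous fun t => X m t ^ k := fun m =>
    (hXc m).rpow_const fun _ => Or.inr hk0.le
  have hXl : ∀ m l, Continuous fun t => X m t * X l t ^ (k - 1) := fun m l =>
    (hXc m).mul ((hXc l).rpow_const fun _ => Or.inr hk1.le)
  have hS := SS_nonneg k N (show 0 ≤ T by linarith)
  have hSk : 0 ≤ SS k N T ^ k := Real.rpow_nonneg hS _
  refine nI_le_of hk0 (by positivity) ?_
  have hpt : ∀ t, ‖(((1 / (J : ℝ)) * ∑ m, X m t : ℝ) : ℂ)‖ ^ k ≤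
      (1 / (J : ℝ)) ^ k * (B * (∑ m, X m t ^ k + (J : ℝ) ^ (k - 1) *
      ∑ m, ∑ l ∈ Finset.univ.erase m, X m t * X l t ^ (k - 1))) := by
    intro t
    have hs : 0 ≤ ∑ m, X m t := Finset.sum_nonneg fun m _ => hX0 m t
    rw [Complex.norm_real, Real.norm_of_nonneg (by positivity),
      Real.mul_rpow (by positivity) hs]
    exact mul_le_mul_of_nonneg_left (pw (fun m => X m t) (fun m => hX0 m t) hk) (by positivity)
  have hLc : Continuous fun t => ‖(((1 / (J : ℝ)) * ∑ m, X m t : ℝ) : ℂ)‖ ^ k := by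
    refine cont_rpow ?_ hk0.le
    exact Complex.continuous_ofReal.comp (continuous_const.mul
      (continuous_finsetSum _ fun m _ => hXc m))
  have hint : ∫ t in Set.Icc 0 (3 * T), ‖(((1 / (J : ℝ)) * ∑ m, X m t : ℝ) : ℂ)‖ ^ k ≤
      (1 / (J : ℝ)) ^ k * (B * ((∑ m, ∫ t in Set.Icc 0 (3 * T), X m t ^ k) + (J : ℝ) ^ (k - 1) *
      ∑ m, ∑ l ∈ Finset.univ.erase m, ∫ t in Set.Icc 0 (3 * T), X m t * X l t ^ (k - 1))) := by
    calc _ ≤ ∫ t in Set.Icc 0 (3 * T), (1 / (J : ℝ)) ^ k * (B * (∑ m, X m t ^ k +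
          (J : ℝ) ^ (k - 1) * ∑ m, ∑ l ∈ Finset.univ.erase m, X m t * X l t ^ (k - 1))) := by
          refine setIntegral_mono (intOn hLc _ _) (intOn ?_ _ _) hpt
          exact continuous_const.mul (continuous_const.mul ((continuous_finsetSum _
            fun m _ => hXk m).add (continuous_const.mul (continuous_finsetSum _ fun m _ =>
            continuous_finsetSum _ fun l _ => hXl m l))))
      _ = _ := by
          rw [integral_const_mul, integral_const_mul, integral_add, integral_const_mul,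
            integral_finsetSum, integral_finsetSum]
          · congr 3
            congr 1
            refine Finset.sum_congr rfl fun m _ => ?_
            rw [integral_finsetSum]
            intro l _
            exact intOn (hXl m l) _ _
          · intro m _
            exact intOn (continuous_finsetSum _ fun l _ => hXl m l) _ _
          · intro m _
            exact intOn (hXk m) _ _
          · exact intOn (continuous_finsetSum _ fun m _ => hXk m) _ _
          · exact intOn (continuous_const.mul (continuous_finsetSum _ fun m _ =>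
              continuous_finsetSum _ fun l _ => hXl m l)) _ _
  have hs1 : ∑ m, ∫ t in Set.Icc 0 (3 * T), X m t ^ k ≤ (J : ℝ) * (2 * A * 3 * SS k N T ^ k) := by
    refine (Finset.sum_le_sum fun m _ => h1 m).trans (le_of_eq ?_)
    rw [Finset.sum_const, Finset.card_univ, Fintype.card_fin, nsmul_eq_mul]
  have hs2 : ∑ m, ∑ l ∈ Finset.univ.erase m, ∫ t in Set.Icc 0 (3 * T),
      X m t * X l t ^ (k - 1) ≤ (J : ℝ) * ((J : ℝ) * (A * ξ * 3 * SS k N T ^ k)) := by
    have h5 : ∀ m : Fin J, ∑ l ∈ Finset.univ.erase m, ∫ t in Set.Icc 0 (3 * T),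
        X m t * X l t ^ (k - 1) ≤ (J : ℝ) * (A * ξ * 3 * SS k N T ^ k) := by
      intro m
      refine (Finset.sum_le_sum fun l hl => h2 m l hl).trans ?_
      rw [Finset.sum_const, nsmul_eq_mul]
      refine mul_le_mul_of_nonneg_right ?_ (by positivity)
      have : (Finset.univ.erase m).card ≤ J := by
        refine (Finset.card_le_card (Finset.erase_subset _ _)).trans ?_
        simp
      exact_mod_cast this
    refine (Finset.sum_le_sum fun m _ => h5 m).trans (le_of_eq ?_)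
    rw [Finset.sum_const, Finset.card_univ, Fintype.card_fin, nsmul_eq_mul]
  refine hint.trans ?_
  calc _ ≤ (1 / (J : ℝ)) ^ k * (B * ((J : ℝ) * (2 * A * 3 * SS k N T ^ k) +
        (J : ℝ) ^ (k - 1) * ((J : ℝ) * ((J : ℝ) * (A * ξ * 3 * SS k N T ^ k))))) := by
        refine mul_le_mul_of_nonneg_left ?_ (by positivity)
        refine mul_le_mul_of_nonneg_left ?_ hB0.le
        exact add_le_add hs1 (mul_le_mul_of_nonneg_left hs2 (by positivity))
    _ = B * (6 * A) * ((1 / (J : ℝ)) ^ k * J) * SS k N T ^ k +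
        (3 * A * B * ξ) * ((1 / (J : ℝ)) ^ k * (J : ℝ) ^ (k - 1) * J * J) * SS k N T ^ k := by
        ring
    _ = B * (6 * A) * (J : ℝ) ^ (-(k - 1)) * SS k N T ^ k +
        (3 * A * B * ξ) * J * SS k N T ^ k := by
        have e0 : (1 / (J : ℝ)) ^ k = (J : ℝ) ^ (-k) := by
          rw [one_div, Real.inv_rpow hJ0.le, Real.rpow_neg hJ0.le]
        have e1 : (J : ℝ) ^ (-k) * J = (J : ℝ) ^ (-(k - 1)) := by
          rw [← Real.rpow_add_one hJ0.ne']
          congr 1; ring
        have e2 : (J : ℝ) ^ (-k) * (J : ℝ) ^ (k - 1) * J * J = J := by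
          rw [← Real.rpow_add hJ0]
          have : -k + (k - 1) = -1 := by ring
          rw [this, Real.rpow_neg_one]
          field_simp
        rw [e0, e1, e2]
    _ ≤ η ^ k / 2 * SS k N T ^ k + η ^ k / 2 * SS k N T ^ k := by
        refine add_le_add (mul_le_mul_of_nonneg_right hJ hSk)
          (mul_le_mul_of_nonneg_right (le_of_eq ?_) hSk)
        rw [hξ]
        field_simp
        norm_num
    _ = (η * SS k N T) ^ k := by
        rw [Real.mul_rpow hη.le hS]; ring

end Pool.Agent.H7.PT
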