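import Pool.Agent.H7.PT.P4
import Pool.Graph.R_seed8.H388LH.ZG

set_option autoImplicit false
open MeasureTheory Metric Filter ProbabilityTheory
open scoped ComplexConjugate ENNReal Topology FourierTransform SchwartzMap ContDiff

/-! Smooth sums as averages of shifted values of zeta. -/

namespace Pool.Agent.H7.PT

open Pool.Agent.H7.PM (dl dl_pos dl_nonneg dl_tendsto nat_cpow)
open Pool.Agent.V11128.CXL

/-- the data of a smooth weight -/
structure WD (g h : ℝ → ℂ) : Prop where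
  hc : Continuous h
  hi : Integrable h
  hi1 : Integrable fun ξ => |ξ| * ‖h ξ‖
  dec : ∃ C : ℝ, 0 ≤ C ∧ ∀ ξ, |ξ| ^ 4 * ‖h ξ‖ ≤ C
  inv : ∀ x : ℝ, g x = ∫ ξ, h ξ * Complex.exp (((2 * Real.pi * ξ * x : ℝ) : ℂ) * Complex.I)

theorem exists_WD (g : ℝ → ℂ) (hg : ContDiff ℝ ∞ g) (hs : HasCompactSupport g) :
    ∃ h : ℝ → ℂ, WD g h := by
  set G : 𝓢(ℝ, ℂ) := hs.toSchwartzMap hg with hG
  set H : 𝓢(ℝ, ℂ) := 𝓕 G with hH
  have hGg : ∀ x, G x = g x := fun x => rfl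
  refine ⟨fun ξ => H ξ, H.continuous, H.integrable, ?_, ?_, ?_⟩
  · have := H.integrable_pow_mul volume 1
    simpa only [pow_one, Real.norm_eq_abs] using this
  · obtain ⟨C, hC, h⟩ := H.decay 4 0
    refine ⟨C, hC.le, fun ξ => ?_⟩
    have := h ξ
    rwa [norm_iteratedFDeriv_zero, Real.norm_eq_abs] at this
  · intro x
    have h1 : 𝓕⁻ H = G := by rw [hH]; exact FourierTransform.fourierInv_fourier_eq G
    have h2 : (𝓕⁻ (H : ℝ → ℂ)) x = G x := by
      rw [← SchwartzMap.fourierInv_coe, h1]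
    rw [← hGg x, ← h2, Real.fourierInv_eq']
    refine integral_congr_ae (Eventually.of_forall fun ξ => ?_)
    simp only [smul_eq_mul, RCLike.inner_apply, conj_trivial]
    rw [mul_comm]
    congr 3
    push_cast
    ring

/-- the point on the line -/
noncomputable def sp (δ t ξ : ℝ) : ℂ := 1 / 2 + δ + ((t + -(2 * Real.pi * ξ) * δ : ℝ) : ℂ) * Complex.I

lemma sp_zc (δ t ξ : ℝ) : riemannZeta (sp δ t ξ) = zc δ (-(2 * Real.pi * ξ)) t := rfl

lemma sp_re (δ t ξ : ℝ) : (sp δ t ξ).re = 1 / 2 + δ := by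
  unfold sp
  simp

lemma sp_im (δ t ξ : ℝ) : (sp δ t ξ).im = t + -(2 * Real.pi * ξ) * δ := by
  unfold sp
  simp

lemma sp_norm {δ : ℝ} (hδ : 0 < δ) (hδ1 : δ < 1 / 4) (t ξ : ℝ) :
    ‖sp δ t ξ‖ ≤ (1 + |t|) + 2 * |ξ| := by
  refine (Complex.norm_le_abs_re_add_abs_im _).trans ?_
  rw [sp_re, sp_im, abs_of_pos (by linarith)]
  have h1 := abs_add_le t (-(2 * Real.pi * ξ) * δ)
  have h2 : |-(2 * Real.pi * ξ) * δ| ≤ 2 * |ξ| := by
    rw [abs_mul, abs_neg, abs_mul, abs_mul, abs_of_pos hδ, abs_of_pos Real.pi_pos, abs_two]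
    have := Real.pi_le_four
    have h3 := abs_nonneg ξ
    nlinarith [mul_nonneg Real.pi_pos.le h3]
  linarith

lemma sp_cont (δ t : ℝ) : Continuous (sp δ t) := by
  unfold sp
  fun_prop

lemma sp_ne {δ : ℝ} (hδ1 : δ < 1 / 4) (t ξ : ℝ) : sp δ t ξ ≠ 1 := by
  intro h
  have := congrArg Complex.re h
  rw [sp_re, Complex.one_re] at this
  linarith

lemma zsp_cont {δ : ℝ} (hδ1 : δ < 1 / 4) (t : ℝ) : Continuous fun ξ => riemannZeta (sp δ t ξ) := by
  have h2 : ContinuousOn riemannZeta {1}ᶜ := fun s hs =>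
    (differentiableAt_riemannZeta hs).continuousAt.continuousWithinAt
  exact h2.comp_continuous (sp_cont δ t) fun ξ => sp_ne hδ1 t ξ

/-- the remainder in the formula for zeta -/
noncomputable def RX (X : ℕ) (s : ℂ) : ℂ :=
  s * ∫ u in Set.Ioi (X : ℝ), ((Int.fract u : ℝ) : ℂ) * (u : ℂ) ^ (-s - 1)

lemma RX_norm {X : ℕ} (hX : 1 ≤ X) {s : ℂ} (hs : 1 / 2 ≤ s.re) :
    ‖RX X s‖ ≤ 2 * ‖s‖ * (X : ℝ) ^ (-(1 / 2) : ℝ) := by
  have hX0 : (1 : ℝ) ≤ X := by exact_mod_cast hX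
  have h1 : ∫ u in Set.Ioi (X : ℝ), (u : ℝ) ^ (-s.re - 1) = (X : ℝ) ^ (-s.re) / s.re := by
    rw [integral_Ioi_rpow_of_lt (by linarith) (by linarith)]
    have h2 : -s.re - 1 + 1 = -s.re := by ring
    rw [h2, neg_div_neg_eq]
  have h3 : ‖∫ u in Set.Ioi (X : ℝ), ((Int.fract u : ℝ) : ℂ) * (u : ℂ) ^ (-s - 1)‖ ≤
      (X : ℝ) ^ (-s.re) / s.re := by
    rw [← h1]
    apply norm_integral_le_of_norm_le
    · exact integrableOn_Ioi_rpow_of_lt (by linarith) (by linarith)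
    · rw [ae_restrict_iff' measurableSet_Ioi]
      refine Filter.Eventually.of_forall (fun u hu => ?_)
      have hu0 : (0:ℝ) < u := lt_trans (by linarith) hu
      rw [norm_mul, Complex.norm_real, Real.norm_eq_abs, Int.abs_fract,
        Complex.norm_cpow_eq_rpow_re_of_pos hu0]
      have h3 : (-s - 1).re = -s.re - 1 := by simp
      rw [h3]
      calc Int.fract u * u ^ (-s.re - 1) ≤ 1 * u ^ (-s.re - 1) := by
            apply mul_le_mul_of_nonneg_right (Int.fract_lt_one u).le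
            positivity
        _ = u ^ (-s.re - 1) := one_mul _
  unfold RX
  rw [norm_mul]
  have h4 : (X : ℝ) ^ (-s.re) / s.re ≤ 2 * (X : ℝ) ^ (-(1 / 2) : ℝ) := by
    rw [div_le_iff₀ (by linarith)]
    have h5 : (X : ℝ) ^ (-s.re) ≤ (X : ℝ) ^ (-(1 / 2) : ℝ) :=
      Real.rpow_le_rpow_of_exponent_le hX0 (by linarith)
    have h6 : 0 ≤ (X : ℝ) ^ (-(1 / 2) : ℝ) := by positivity
    nlinarith
  calc _ ≤ ‖s‖ * (2 * (X : ℝ) ^ (-(1 / 2) : ℝ)) :=
        mul_le_mul_of_nonneg_left (h3.trans h4) (norm_nonneg _)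
    _ = _ := by ring

lemma zeta_form {X : ℕ} (hX : 1 ≤ X) {s : ℂ} (hs : 1 / 2 ≤ s.re) (hs1 : s ≠ 1) :
    riemannZeta s = ∑ n ∈ Finset.Icc 1 X, (n : ℂ) ^ (-s) + (X : ℂ) ^ (1 - s) / (s - 1) -
      RX X s := by
  have := ZU.J_a1.zeta_formula X hX s (by linarith) hs1
  rw [this]
  rfl

lemma zeta_bd {s : ℂ} (hs : 1 / 2 ≤ s.re) (hs1 : s.re ≤ 3 / 4) : ‖riemannZeta s‖ ≤ 5 + 2 * ‖s‖ := by
  have hne : s ≠ 1 := by
    intro h
    rw [h] at hs1
    norm_num at hs1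
  have h := zeta_form le_rfl hs hne
  simp only [Finset.Icc_self, Finset.sum_singleton, Nat.cast_one, Complex.one_cpow] at h
  rw [h]
  have h2 : ‖s - 1‖ ≥ 1 / 4 := by
    have h3 := Complex.abs_re_le_norm (s - 1)
    simp only [Complex.sub_re, Complex.one_re] at h3
    have h4 : |s.re - 1| ≥ 1 / 4 := by
      rw [abs_of_nonpos (by linarith)]
      linarith
    linarith
  have h5 : ‖1 / (s - 1)‖ ≤ 4 := by
    rw [norm_div, norm_one, div_le_iff₀ (by linarith)]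
    linarith
  have h6 := RX_norm le_rfl hs
  simp only [Nat.cast_one, Real.one_rpow, mul_one] at h6
  calc ‖(1 : ℂ) + 1 / (s - 1) - RX 1 s‖ ≤ ‖(1 : ℂ)‖ + ‖1 / (s - 1)‖ + ‖RX 1 s‖ :=
        (norm_sub_le _ _).trans (by gcongr; exact norm_add_le _ _)
    _ ≤ 1 + 4 + 2 * ‖s‖ := by rw [norm_one]; linarith
    _ = _ := by ring

lemma n_sp (δ t ξ : ℝ) (n : ℕ) (hn : n ≠ 0) : (n : ℂ) ^ (-(sp δ t ξ)) =
    (n : ℂ) ^ (-(sp δ t 0)) *
      Complex.exp (((2 * Real.pi * ξ * (δ * Real.log n) : ℝ) : ℂ) * Complex.I) := by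
  rw [nat_cpow n hn, nat_cpow n hn, ← Complex.exp_add]
  congr 1
  unfold sp
  push_cast
  ring

lemma int_n {g h : ℝ → ℂ} (H : WD g h) (δ t : ℝ) (n : ℕ) (hn : n ≠ 0) :
    ∫ ξ, h ξ * (n : ℂ) ^ (-(sp δ t ξ)) = g (δ * Real.log n) * (n : ℂ) ^ (-(sp δ t 0)) := by
  rw [H.inv, ← integral_mul_const]
  refine integral_congr_ae (Eventually.of_forall fun ξ => ?_)
  simp only
  rw [n_sp δ t ξ n hn]
  ring

lemma integrable_n {g h : ℝ → ℂ} (H : WD g h) (δ t : ℝ) (n : ℕ) (hn : n ≠ 0) :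
    Integrable fun ξ => h ξ * (n : ℂ) ^ (-(sp δ t ξ)) := by
  have h1 : Continuous fun ξ => (n : ℂ) ^ (-(sp δ t ξ)) := by
    have hnc : (n : ℂ) ≠ 0 := by exact_mod_cast hn
    have := sp_cont δ t
    exact Continuous.const_cpow (by fun_prop) (Or.inl hnc)
  refine H.hi.mul_bdd (c := (n : ℝ) ^ (-(1 / 2 + δ))) h1.aestronglyMeasurable ?_
  refine Eventually.of_forall fun ξ => ?_
  rw [← Complex.ofReal_natCast, Complex.norm_cpow_eq_rpow_re_of_pos (by
    exact_mod_cast Nat.pos_of_ne_zero hn), Complex.neg_re, sp_re]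

/-- the contribution of the pole -/
noncomputable def EE (g : ℝ → ℂ) (δ t : ℝ) : ℂ :=
  ∫ w : ℝ, Complex.exp ((1 - sp δ t 0) * (w : ℂ)) * g (δ * w)

lemma one_sub_re (δ t ξ : ℝ) : (1 - sp δ t ξ).re = 1 / 2 - δ := by
  rw [Complex.sub_re, sp_re, Complex.one_re]; ring

lemma pole_int {g h : ℝ → ℂ} (H : WD g h) (hg : ∀ x, 2 ≤ x → g x = 0) {δ : ℝ} (hδ : 0 < δ)
    (hδ1 : δ < 1 / 4) (t : ℝ) {X : ℕ} (hX : 1 ≤ X) (hX2 : 2 ≤ δ * Real.log X) :
    ∫ ξ, h ξ * ((X : ℂ) ^ (1 - sp δ t ξ) / (sp δ t ξ - 1)) = -EE g δ t := by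
  have hXn : X ≠ 0 := by omega
  set L := Real.log X with hL
  -- the inner integral
  have h1 : ∀ ξ, (X : ℂ) ^ (1 - sp δ t ξ) / (sp δ t ξ - 1) =
      -∫ w in Set.Iic L, Complex.exp ((1 - sp δ t ξ) * (w : ℂ)) := by
    intro ξ
    rw [integral_exp_mul_complex_Iic (by rw [one_sub_re]; linarith), nat_cpow X hXn]
    have h2 : sp δ t ξ - 1 ≠ 0 := sub_ne_zero.2 (sp_ne hδ1 t ξ)
    have h3 : 1 - sp δ t ξ ≠ 0 := sub_ne_zero.2 (sp_ne hδ1 t ξ).symm
    rw [mul_comm (L : ℂ)]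
    rw [← neg_sub (sp δ t ξ) 1, div_neg, neg_neg, neg_sub]
  have h4 : ∀ ξ, h ξ * ((X : ℂ) ^ (1 - sp δ t ξ) / (sp δ t ξ - 1)) =
      -∫ w in Set.Iic L, h ξ * Complex.exp ((1 - sp δ t ξ) * (w : ℂ)) := by
    intro ξ
    rw [h1, integral_const_mul]
    ring
  simp_rw [h4]
  rw [integral_neg]
  congr 1
  -- Fubini
  have hint : Integrable (Function.uncurry fun (ξ w : ℝ) =>
      h ξ * Complex.exp ((1 - sp δ t ξ) * (w : ℂ))) (volume.prod (volume.restrict (Set.Iic L))) := by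
    have h5 : Integrable (fun w : ℝ => Real.exp ((1 / 2 - δ) * w))
        (volume.restrict (Set.Iic L)) := integrableOn_exp_mul_Iic (by linarith) L
    have h6 := H.hi.norm.mul_prod h5
    refine h6.mono' ?_ (Eventually.of_forall fun z => ?_)
    · have := sp_cont δ t
      have h7 : Continuous (Function.uncurry fun (ξ w : ℝ) =>
          h ξ * Complex.exp ((1 - sp δ t ξ) * (w : ℂ))) := by
        refine (H.hc.comp continuous_fst).mul (Complex.continuous_exp.comp ?_)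
        exact (continuous_const.sub (this.comp continuous_fst)).mul
          (Complex.continuous_ofReal.comp continuous_snd)
      exact h7.aestronglyMeasurable
    · obtain ⟨ξ, w⟩ := z
      simp only [Function.uncurry]
      rw [norm_mul, Complex.norm_exp, Complex.re_mul_ofReal, one_sub_re]
  rw [integral_integral_swap hint]
  unfold EE
  rw [← integral_indicator measurableSet_Iic]
  refine integral_congr_ae (Eventually.of_forall fun w => ?_)
  beta_reduce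
  have h8 : ∀ ξ, h ξ * Complex.exp ((1 - sp δ t ξ) * (w : ℂ)) =
      Complex.exp ((1 - sp δ t 0) * (w : ℂ)) *
      (h ξ * Complex.exp (((2 * Real.pi * ξ * (δ * w) : ℝ) : ℂ) * Complex.I)) := by
    intro ξ
    have e : Complex.exp ((1 - sp δ t ξ) * (w : ℂ)) = Complex.exp ((1 - sp δ t 0) * (w : ℂ)) *
        Complex.exp (((2 * Real.pi * ξ * (δ * w) : ℝ) : ℂ) * Complex.I) := by
      rw [← Complex.exp_add]
      congr 1
      unfold sp
      push_cast
      ring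
    rw [e]
    ring
  by_cases hw : w ≤ L
  · rw [Set.indicator_of_mem (show w ∈ Set.Iic L from hw)]
    simp_rw [h8]
    rw [integral_const_mul, ← H.inv]
  · rw [Set.indicator_of_notMem (show w ∉ Set.Iic L from hw), hg]
    · simp
    · have := mul_le_mul_of_nonneg_left (not_le.1 hw).le hδ.le
      linarith

lemma integrable_poly {g h : ℝ → ℂ} (H : WD g h) (A B : ℝ) :
    Integrable fun ξ => ‖h ξ‖ * (A + B * |ξ|) := by
  have h1 := (H.hi.norm.mul_const A).add (H.hi1.mul_const B)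
  refine h1.congr (Eventually.of_forall fun ξ => ?_)
  simp only [Pi.add_apply]
  ring

lemma integrable_zeta {g h : ℝ → ℂ} (H : WD g h) {δ : ℝ} (hδ : 0 < δ)
    (hδ1 : δ < 1 / 4) (t : ℝ) : Integrable fun ξ => h ξ * riemannZeta (sp δ t ξ) := by
  refine (integrable_poly H (5 + 2 * (1 + |t|)) 4).mono'
    (H.hc.mul (zsp_cont hδ1 t)).aestronglyMeasurable (Eventually.of_forall fun ξ => ?_)
  rw [norm_mul]
  refine mul_le_mul_of_nonneg_left ?_ (norm_nonneg _)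
  have h1 := zeta_bd (s := sp δ t ξ) (by rw [sp_re]; linarith) (by rw [sp_re]; linarith)
  have h2 := sp_norm hδ hδ1 t ξ
  linarith

lemma integrable_pole {g h : ℝ → ℂ} (H : WD g h) {δ : ℝ}
    (hδ1 : δ < 1 / 4) (t : ℝ) {X : ℕ} (hX : 1 ≤ X) :
    Integrable fun ξ => h ξ * ((X : ℂ) ^ (1 - sp δ t ξ) / (sp δ t ξ - 1)) := by
  have hnc : (X : ℂ) ≠ 0 := by exact_mod_cast (by omega : X ≠ 0)
  have hs := sp_cont δ t
  have hc : Continuous fun ξ => (X : ℂ) ^ (1 - sp δ t ξ) / (sp δ t ξ - 1) :=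
    (Continuous.const_cpow (continuous_const.sub hs) (Or.inl hnc)).div (hs.sub continuous_const)
      fun ξ => sub_ne_zero.2 (sp_ne hδ1 t ξ)
  refine H.hi.mul_bdd (c := (X : ℝ) ^ (1 / 2 - δ) * 4) hc.aestronglyMeasurable ?_
  refine Eventually.of_forall fun ξ => ?_
  have hX0 : (0 : ℝ) < X := by exact_mod_cast (by omega : 0 < X)
  rw [norm_div, ← Complex.ofReal_natCast, Complex.norm_cpow_eq_rpow_re_of_pos hX0, one_sub_re,
    div_eq_mul_inv]
  refine mul_le_mul_of_nonneg_left ?_ (by positivity)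
  have h3 := Complex.abs_re_le_norm (sp δ t ξ - 1)
  rw [Complex.sub_re, sp_re, Complex.one_re, abs_of_nonpos (by linarith)] at h3
  rw [inv_le_comm₀ (by linarith) (by norm_num)]
  linarith

/-- **the smooth sums** -/
theorem smooth_eq {g h : ℝ → ℂ} (H : WD g h) (hg : ∀ x, 2 ≤ x → g x = 0) {δ : ℝ} (hδ : 0 < δ)
    (hδ1 : δ < 1 / 4) (t : ℝ) {K : ℕ} (hK : 1 ≤ K) (hK2 : 2 ≤ δ * Real.log K) :
    ∑ n ∈ Finset.Icc 1 K, g (δ * Real.log n) * (n : ℂ) ^ (-(sp δ t 0)) =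
      (∫ ξ, h ξ * riemannZeta (sp δ t ξ)) + EE g δ t := by
  set V := ∑ n ∈ Finset.Icc 1 K, g (δ * Real.log n) * (n : ℂ) ^ (-(sp δ t 0)) with hV
  -- for every X
  have key : ∀ X : ℕ, K ≤ X → V - ((∫ ξ, h ξ * riemannZeta (sp δ t ξ)) + EE g δ t) =
      ∫ ξ, h ξ * RX X (sp δ t ξ) := by
    intro X hX
    have hX1 : 1 ≤ X := hK.trans hX
    have hX2 : 2 ≤ δ * Real.log X := by
      refine hK2.trans (mul_le_mul_of_nonneg_left ?_ hδ.le)
      exact Real.log_le_log (by exact_mod_cast hK) (by exact_mod_cast hX)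
    have h1 : V = ∑ n ∈ Finset.Icc 1 X, g (δ * Real.log n) * (n : ℂ) ^ (-(sp δ t 0)) := by
      rw [hV]
      refine Finset.sum_subset (Finset.Icc_subset_Icc_right hX) fun n hn hn2 => ?_
      obtain ⟨a1, a2⟩ := Finset.mem_Icc.1 hn
      have a3 : K < n := by
        by_contra h3
        exact hn2 (Finset.mem_Icc.2 ⟨a1, by omega⟩)
      rw [hg, zero_mul]
      refine hK2.trans (mul_le_mul_of_nonneg_left ?_ hδ.le)
      exact Real.log_le_log (by exact_mod_cast hK) (by exact_mod_cast a3.le)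
    have h2 : V = ∫ ξ, ∑ n ∈ Finset.Icc 1 X, h ξ * (n : ℂ) ^ (-(sp δ t ξ)) := by
      rw [h1, integral_finsetSum]
      · refine Finset.sum_congr rfl fun n hn => ?_
        rw [int_n H δ t n (by have := (Finset.mem_Icc.1 hn).1; omega)]
      · intro n hn
        exact integrable_n H δ t n (by have := (Finset.mem_Icc.1 hn).1; omega)
    have h3 := pole_int H hg hδ hδ1 t hX1 hX2
    have i1 : Integrable fun ξ => ∑ n ∈ Finset.Icc 1 X, h ξ * (n : ℂ) ^ (-(sp δ t ξ)) :=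
      integrable_finsetSum _ fun n hn =>
        integrable_n H δ t n (by have := (Finset.mem_Icc.1 hn).1; omega)
    have i2 := integrable_pole H hδ1 t hX1
    have i3 := integrable_zeta H hδ hδ1 t
    have h4 : V - ((∫ ξ, h ξ * riemannZeta (sp δ t ξ)) + EE g δ t) =
        ∫ ξ, (∑ n ∈ Finset.Icc 1 X, h ξ * (n : ℂ) ^ (-(sp δ t ξ)) +
          h ξ * ((X : ℂ) ^ (1 - sp δ t ξ) / (sp δ t ξ - 1)) - h ξ * riemannZeta (sp δ t ξ)) := by
      have i12 : Integrable fun ξ => ∑ n ∈ Finset.Icc 1 X, h ξ * (n : ℂ) ^ (-(sp δ t ξ)) +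
          h ξ * ((X : ℂ) ^ (1 - sp δ t ξ) / (sp δ t ξ - 1)) := i1.add i2
      rw [integral_sub i12 i3, integral_add i1 i2, ← h2, h3]
      ring
    rw [h4]
    refine integral_congr_ae (Eventually.of_forall fun ξ => ?_)
    beta_reduce
    rw [zeta_form hX1 (s := sp δ t ξ) (by rw [sp_re]; linarith) (sp_ne hδ1 t ξ),
      ← Finset.mul_sum]
    ring
  -- the limit
  have hlim : Tendsto (fun X : ℕ => (2 * ∫ ξ, ‖h ξ‖ * ((1 + |t|) + 2 * |ξ|)) *
      (X : ℝ) ^ (-(1 / 2) : ℝ)) atTop (𝓝 0) := by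
    have h5 : Tendsto (fun X : ℕ => (X : ℝ) ^ (-(1 / 2) : ℝ)) atTop (𝓝 0) :=
      (tendsto_rpow_neg_atTop (by norm_num : (0 : ℝ) < 1 / 2)).comp tendsto_natCast_atTop_atTop
    have := h5.const_mul (2 * ∫ ξ, ‖h ξ‖ * ((1 + |t|) + 2 * |ξ|))
    rwa [mul_zero] at this
  have h6 : ‖V - ((∫ ξ, h ξ * riemannZeta (sp δ t ξ)) + EE g δ t)‖ ≤ 0 := by
    refine ge_of_tendsto hlim ?_
    filter_upwards [eventually_ge_atTop K] with X hX
    rw [key X hX, mul_right_comm, ← integral_const_mul]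
    refine norm_integral_le_of_norm_le ?_ (Eventually.of_forall fun ξ => ?_)
    · exact (integrable_poly H (1 + |t|) 2).const_mul _
    · rw [norm_mul]
      have h7 := RX_norm (hK.trans hX) (s := sp δ t ξ) (by rw [sp_re]; linarith)
      have h8 := sp_norm hδ hδ1 t ξ
      have h9 : 0 ≤ (X : ℝ) ^ (-(1 / 2) : ℝ) := by positivity
      calc ‖h ξ‖ * ‖RX X (sp δ t ξ)‖ ≤ ‖h ξ‖ * (2 * ((1 + |t|) + 2 * |ξ|) *
            (X : ℝ) ^ (-(1 / 2) : ℝ)) := by
            refine mul_le_mul_of_nonneg_left (h7.trans ?_) (norm_nonneg _)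
            gcongr
        _ = _ := by ring
  have h10 := norm_le_zero_iff.1 h6
  exact sub_eq_zero.1 h10

end Pool.Agent.H7.PT
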