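import Pool.Agent.H7.PT.P5

set_option autoImplicit false
open MeasureTheory Metric Filter ProbabilityTheory
open scoped ComplexConjugate ENNReal Topology ContDiff

/-! Averages of translates; the contribution of the pole. -/

namespace Pool.Agent.H7.PT

open Pool.Agent.H7.PM (dl dl_pos dl_nonneg dl_tendsto)
open Pool.Agent.V11128.CXL

lemma holder_pt {p : ℝ} (hp : 1 < p) {A : Set ℝ} (hA : IsCompact A) {w f : ℝ → ℝ}
    (hw : Continuous w) (hw0 : ∀ ξ, 0 ≤ w ξ) (hf : Continuous f) (hf0 : ∀ ξ, 0 ≤ f ξ) :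
    (∫ ξ in A, w ξ * f ξ) ^ p ≤ (∫ ξ in A, w ξ) ^ (p - 1) * ∫ ξ in A, w ξ * f ξ ^ p := by
  have hp0 : 0 < p := by linarith
  set q := p / (p - 1) with hq
  have hpq : p.HolderConjugate q := Real.HolderConjugate.conjExponent hp
  have hq0 : 0 < q := hpq.symm.pos
  have hmem : ∀ {g : ℝ → ℝ}, Continuous g → ∀ r : ℝ≥0∞, MemLp g r (volume.restrict A) := by
    intro g hg r
    obtain ⟨B, hB⟩ := hA.exists_bound_of_continuousOn hg.continuousOn
    have : IsFiniteMeasure (volume.restrict A) := ⟨by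
      rw [Measure.restrict_apply_univ]; exact hA.measure_lt_top⟩
    refine MemLp.of_bound hg.aestronglyMeasurable B ?_
    exact (ae_restrict_mem hA.measurableSet).mono hB
  have h1 := integral_mul_le_Lp_mul_Lq_of_nonneg (μ := volume.restrict A) hpq
    (f := fun ξ => w ξ ^ (1 / p) * f ξ) (g := fun ξ => w ξ ^ (1 / q))
    (Eventually.of_forall fun ξ => mul_nonneg (Real.rpow_nonneg (hw0 ξ) _) (hf0 ξ))
    (Eventually.of_forall fun ξ => Real.rpow_nonneg (hw0 ξ) _)
    (hmem ((hw.rpow_const fun _ => Or.inr (by positivity)).mul hf) _)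
    (hmem (hw.rpow_const fun _ => Or.inr (by positivity)) _)
  have e1 : ∀ ξ, w ξ ^ (1 / p) * f ξ * w ξ ^ (1 / q) = w ξ * f ξ := by
    intro ξ
    have h2 : w ξ ^ (1 / p) * w ξ ^ (1 / q) = w ξ := by
      rw [← Real.rpow_add_of_nonneg (hw0 ξ) (by positivity) (by positivity)]
      have h3 : 1 / p + 1 / q = 1 := by
        rw [one_div, one_div]; exact hpq.inv_add_inv_eq_one
      rw [h3, Real.rpow_one]
    calc _ = w ξ ^ (1 / p) * w ξ ^ (1 / q) * f ξ := by ring
      _ = _ := by rw [h2]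
  have e2 : ∀ ξ, (w ξ ^ (1 / p) * f ξ) ^ p = w ξ * f ξ ^ p := by
    intro ξ
    rw [Real.mul_rpow (Real.rpow_nonneg (hw0 ξ) _) (hf0 ξ), ← Real.rpow_mul (hw0 ξ),
      one_div_mul_cancel hp0.ne', Real.rpow_one]
  have e3 : ∀ ξ, (w ξ ^ (1 / q)) ^ q = w ξ := by
    intro ξ
    rw [← Real.rpow_mul (hw0 ξ), one_div_mul_cancel hq0.ne', Real.rpow_one]
  simp_rw [e1, e2, e3] at h1
  have hI0 : 0 ≤ ∫ ξ in A, w ξ * f ξ := integral_nonneg fun ξ => mul_nonneg (hw0 ξ) (hf0 ξ)
  have hI1 : 0 ≤ ∫ ξ in A, w ξ * f ξ ^ p :=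
    integral_nonneg fun ξ => mul_nonneg (hw0 ξ) (Real.rpow_nonneg (hf0 ξ) _)
  have hI2 : 0 ≤ ∫ ξ in A, w ξ := integral_nonneg hw0
  calc (∫ ξ in A, w ξ * f ξ) ^ p ≤ ((∫ ξ in A, w ξ * f ξ ^ p) ^ (1 / p) *
        (∫ ξ in A, w ξ) ^ (1 / q)) ^ p := Real.rpow_le_rpow hI0 h1 hp0.le
    _ = (∫ ξ in A, w ξ) ^ (p - 1) * ∫ ξ in A, w ξ * f ξ ^ p := by
        rw [Real.mul_rpow (Real.rpow_nonneg hI1 _) (Real.rpow_nonneg hI2 _),
          ← Real.rpow_mul hI1, one_div_mul_cancel hp0.ne', Real.rpow_one, ← Real.rpow_mul hI2]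
        have : 1 / q * p = p - 1 := by
          rw [hq]
          have : p - 1 ≠ 0 := by linarith
          field_simp
        rw [this, mul_comm]

lemma conv_cont {A : Set ℝ} (hA : IsCompact A) {w f : ℝ → ℝ} (hw : Continuous w)
    (hf : Continuous f) (c : ℝ) : Continuous fun t => ∫ ξ in A, w ξ * f (t + c * ξ) := by
  refine continuous_parametric_integral_of_continuous ?_ hA
  exact (hw.comp continuous_snd).mul (hf.comp (by fun_prop))

/-- Young's inequality -/
theorem young {p : ℝ} (hp : 1 < p) {A : Set ℝ} (hA : IsCompact A) {w f : ℝ → ℝ}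
    (hw : Continuous w) (hw0 : ∀ ξ, 0 ≤ w ξ) (hf : Continuous f) (hf0 : ∀ ξ, 0 ≤ f ξ)
    {c D : ℝ} (hD : ∀ ξ ∈ A, |c * ξ| ≤ D) (a b : ℝ) :
    nI p a b (fun t => ((∫ ξ in A, w ξ * f (t + c * ξ) : ℝ) : ℂ)) ≤
      (∫ ξ in A, w ξ) * nI p (a - D) (b + D) (fun t => (f t : ℂ)) := by
  have hp0 : 0 < p := by linarith
  set W := ∫ ξ in A, w ξ with hW
  set X := nI p (a - D) (b + D) (fun t => (f t : ℂ)) with hX
  have hW0 : 0 ≤ W := integral_nonneg hw0
  have hX0 : 0 ≤ X := nI_nonneg _ _ _ _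
  refine nI_le_of hp0 (by positivity) ?_
  have hfp : Continuous fun t => f t ^ p := hf.rpow_const fun _ => Or.inr hp0.le
  have h1 : ∀ t, ‖((∫ ξ in A, w ξ * f (t + c * ξ) : ℝ) : ℂ)‖ ^ p ≤
      W ^ (p - 1) * ∫ ξ in A, w ξ * f (t + c * ξ) ^ p := by
    intro t
    have h2 : 0 ≤ ∫ ξ in A, w ξ * f (t + c * ξ) :=
      integral_nonneg fun ξ => mul_nonneg (hw0 ξ) (hf0 _)
    rw [Complex.norm_real, Real.norm_of_nonneg h2]
    exact holder_pt hp hA hw hw0 (f := fun ξ => f (t + c * ξ)) (hf.comp (by fun_prop))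
      fun ξ => hf0 _
  have h3 : ∫ t in Set.Icc a b, ∫ ξ in A, w ξ * f (t + c * ξ) ^ p ≤ W * X ^ p := by
    have hint : Integrable (Function.uncurry fun (t ξ : ℝ) => w ξ * f (t + c * ξ) ^ p)
        ((volume.restrict (Set.Icc a b)).prod (volume.restrict A)) := by
      rw [Measure.prod_restrict, ← Measure.volume_eq_prod]
      have hcc : Continuous (Function.uncurry fun (t ξ : ℝ) => w ξ * f (t + c * ξ) ^ p) :=
        (hw.comp continuous_snd).mul (hfp.comp (by fun_prop))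
      exact hcc.continuousOn.integrableOn_compact (isCompact_Icc.prod hA)
    rw [integral_integral_swap hint, hW, ← integral_mul_const]
    refine setIntegral_mono_on ?_ ?_ hA.measurableSet fun ξ hξ => ?_
    · exact hint.integral_prod_right
    · exact (hw.continuousOn.integrableOn_compact hA).mul_const _
    · rw [integral_const_mul]
      refine mul_le_mul_of_nonneg_left ?_ (hw0 ξ)
      rw [int_shift (fun t => f t ^ p), hX, nI_rpow hp0]
      obtain ⟨h4, h5⟩ := abs_le.1 (hD ξ hξ)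
      have h6 : ∀ t, ‖((f t : ℝ) : ℂ)‖ ^ p = f t ^ p := fun t => by
        rw [Complex.norm_real, Real.norm_of_nonneg (hf0 t)]
      simp_rw [h6]
      exact setIntegral_mono_set (intOn hfp _ _)
        (Eventually.of_forall fun t => Real.rpow_nonneg (hf0 t) _)
        (Set.Icc_subset_Icc (by linarith) (by linarith)).eventuallyLE
  calc ∫ t in Set.Icc a b, ‖((∫ ξ in A, w ξ * f (t + c * ξ) : ℝ) : ℂ)‖ ^ p ≤
      ∫ t in Set.Icc a b, W ^ (p - 1) * ∫ ξ in A, w ξ * f (t + c * ξ) ^ p := by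
        refine setIntegral_mono (intOn (cont_rpow (Complex.continuous_ofReal.comp
          (conv_cont hA hw hf c)) hp0.le) _ _) (intOn ?_ _ _) h1
        exact continuous_const.mul (conv_cont hA hw hfp c)
    _ = W ^ (p - 1) * ∫ t in Set.Icc a b, ∫ ξ in A, w ξ * f (t + c * ξ) ^ p :=
        integral_const_mul _ _
    _ ≤ W ^ (p - 1) * (W * X ^ p) := mul_le_mul_of_nonneg_left h3 (by positivity)
    _ = (W * X) ^ p := by
        rw [Real.mul_rpow hW0 hX0, ← mul_assoc]
        congr 1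
        have h7 := Real.rpow_add_one' hW0 (y := p - 1) (by linarith)
        rw [sub_add_cancel] at h7
        rw [h7]

/-- powers of `N` are small -/
lemma Adm.small {N : ℝ → ℕ} (hN : Adm N) (A θ : ℝ) (hθ : 0 < θ) :
    Tendsto (fun T : ℝ => (N T : ℝ) ^ A / T ^ θ) atTop (𝓝 0) := by
  have h1 : Tendsto (fun T : ℝ => Real.log T * (A * (Real.log (N T) / Real.log T) - θ)) atTop
      atBot := by
    refine Tendsto.atTop_mul_neg (C := A * 0 - θ) (by linarith) Real.tendsto_log_atTop ?_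
    exact (hN.2.const_mul A).sub_const θ
  have h2 := Real.tendsto_exp_atBot.comp h1
  refine h2.congr' ?_
  filter_upwards [eventually_gt_atTop 1, hN.two] with T hT hN2
  have hN0 : (0 : ℝ) < N T := by exact_mod_cast (by omega : 0 < N T)
  have hT0 : 0 < T := by linarith
  simp only [Function.comp]
  rw [Real.rpow_def_of_pos hN0, Real.rpow_def_of_pos hT0, ← Real.exp_sub]
  congr 1
  have := (Real.log_pos hT).ne'
  field_simp

lemma SS_ge {k : ℝ} (hk : 0 < k) {N : ℝ → ℕ} (hN : Adm N) :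
    ∀ᶠ T in atTop, T ^ (1 / k) ≤ SS k N T := by
  filter_upwards [hN.delta.eventually (gt_mem_nhds (show (0 : ℝ) < 1 / 2 by norm_num)), hN.pos,
    eventually_gt_atTop 0] with T h1 h2 h3
  unfold SS
  refine Real.rpow_le_rpow h3.le ?_ (by positivity)
  have h4 : 1 ≤ (2 * dl (N T)) ^ (-((k / 2) ^ 2)) :=
    Real.one_le_rpow_of_pos_of_le_one_of_nonpos (by positivity) (by linarith)
      (by have := sq_nonneg (k / 2); linarith)
  nlinarith

/-- integration by parts -/
lemma EE_parts {g : ℝ → ℂ} (hg : ContDiff ℝ ∞ g) (hs : HasCompactSupport g) {δ : ℝ} (hδ : 0 < δ)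
    (hδ1 : δ < 1 / 4) (t : ℝ) : EE g δ t =
      -∫ w : ℝ, (δ : ℂ) * deriv g (δ * w) *
        (Complex.exp ((1 - sp δ t 0) * (w : ℂ)) / (1 - sp δ t 0)) := by
  have hne : 1 - sp δ t 0 ≠ 0 := sub_ne_zero.2 (sp_ne hδ1 t 0).symm
  have hgd : Differentiable ℝ g := hg.differentiable (by simp)
  have hgc : Continuous (deriv g) := hg.continuous_deriv (by simp)
  have hu : ∀ w : ℝ, HasDerivAt (fun w : ℝ => g (δ * w)) ((δ : ℂ) * deriv g (δ * w)) w := by
    intro w
    have h1 : HasDerivAt (fun w : ℝ => δ * w) δ w := by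
      simpa using (hasDerivAt_id w).const_mul δ
    have h2 := (hgd (δ * w)).hasDerivAt.scomp w h1
    rw [Complex.real_smul] at h2
    exact h2
  have hv : ∀ w : ℝ, HasDerivAt (fun w : ℝ => Complex.exp ((1 - sp δ t 0) * (w : ℂ)) /
      (1 - sp δ t 0)) (Complex.exp ((1 - sp δ t 0) * (w : ℂ))) w := by
    intro w
    have h1 : HasDerivAt (fun w : ℝ => (1 - sp δ t 0) * (w : ℂ)) ((1 - sp δ t 0) * 1) w :=
      (Complex.ofRealCLM.hasDerivAt (x := w)).const_mul (1 - sp δ t 0)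
    have h2 := (h1.cexp).div_const (1 - sp δ t 0)
    refine h2.congr_deriv ?_
    field_simp
  have hcs : HasCompactSupport fun w : ℝ => g (δ * w) :=
    hs.comp_homeomorph (Homeomorph.mulLeft₀ δ hδ.ne')
  have hcs' : HasCompactSupport fun w : ℝ => deriv g (δ * w) :=
    hs.deriv.comp_homeomorph (Homeomorph.mulLeft₀ δ hδ.ne')
  have hec : Continuous fun w : ℝ => Complex.exp ((1 - sp δ t 0) * (w : ℂ)) := by fun_prop
  have hgcc : Continuous fun w : ℝ => g (δ * w) := hg.continuous.comp (by fun_prop)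
  have hgcc' : Continuous fun w : ℝ => deriv g (δ * w) := hgc.comp (by fun_prop)
  have h := integral_mul_deriv_eq_deriv_mul_of_integrable
    (u := fun w : ℝ => g (δ * w)) (u' := fun w : ℝ => (δ : ℂ) * deriv g (δ * w))
    (v := fun w : ℝ => Complex.exp ((1 - sp δ t 0) * (w : ℂ)) / (1 - sp δ t 0))
    (v' := fun w : ℝ => Complex.exp ((1 - sp δ t 0) * (w : ℂ)))
    (fun w _ => hu w) (fun w _ => hv w) ?_ ?_ ?_
  · rw [← h]
    unfold EE
    refine integral_congr_ae (Eventually.of_forall fun w => ?_)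
    beta_reduce
    ring
  · exact (hgcc.mul hec).integrable_of_hasCompactSupport hcs.mul_right
  · exact ((continuous_const.mul hgcc').mul (hec.div_const _)).integrable_of_hasCompactSupport
      (hcs'.mul_left).mul_right
  · exact (hgcc.mul (hec.div_const _)).integrable_of_hasCompactSupport hcs.mul_right

theorem EE_norm {g : ℝ → ℂ} (hg : ContDiff ℝ ∞ g) (hs : HasCompactSupport g)
    (hg2 : ∀ x, 2 ≤ x → g x = 0) : ∃ C : ℝ, 0 ≤ C ∧ ∀ δ : ℝ, 0 < δ → δ < 1 / 4 → ∀ t : ℝ,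
    ‖EE g δ t‖ ≤ C * Real.exp (1 / δ) / ‖1 - sp δ t 0‖ := by
  have hgc : Continuous (deriv g) := hg.continuous_deriv (by simp)
  have hgi : Integrable (fun x => ‖deriv g x‖) :=
    (hgc.integrable_of_hasCompactSupport hs.deriv).norm
  refine ⟨∫ x, ‖deriv g x‖, integral_nonneg fun x => norm_nonneg _, fun δ hδ hδ1 t => ?_⟩
  rw [EE_parts hg hs hδ hδ1 t, norm_neg]
  have hz : ∀ x, 2 < x → deriv g x = 0 := by
    intro x hx
    have h1 : g =ᶠ[𝓝 x] fun _ => 0 := by
      filter_upwards [lt_mem_nhds hx] with y hy using hg2 y hy.le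
    rw [h1.deriv_eq, deriv_const]
  set s := ‖1 - sp δ t 0‖ with hsdef
  have hne : 0 < s := norm_pos_iff.2 (sub_ne_zero.2 (sp_ne hδ1 t 0).symm)
  have hi2 : Integrable fun w : ℝ => ‖deriv g (δ * w)‖ := by
    have := hgi.comp_mul_left' hδ.ne'
    exact this
  have hb : ∀ w : ℝ, ‖(δ : ℂ) * deriv g (δ * w) *
      (Complex.exp ((1 - sp δ t 0) * (w : ℂ)) / (1 - sp δ t 0))‖ ≤
      δ * Real.exp (1 / δ) / s * ‖deriv g (δ * w)‖ := by
    intro w
    rw [norm_mul, norm_mul, norm_div, Complex.norm_real, Real.norm_of_nonneg hδ.le,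
      Complex.norm_exp, Complex.re_mul_ofReal, one_sub_re, ← hsdef]
    rcases lt_or_ge 2 (δ * w) with h | h
    · rw [hz _ h]; simp
    · have h2 : (1 / 2 - δ) * w ≤ 1 / δ := by
        rcases le_total 0 w with hw | hw
        · rw [le_div_iff₀ hδ]
          nlinarith
        · have : (1 / 2 - δ) * w ≤ 0 := mul_nonpos_of_nonneg_of_nonpos (by linarith) hw
          have h3 : 0 < 1 / δ := by positivity
          linarith
      have h3 := Real.exp_le_exp.2 h2
      calc δ * ‖deriv g (δ * w)‖ * (Real.exp ((1 / 2 - δ) * w) / s) ≤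
          δ * ‖deriv g (δ * w)‖ * (Real.exp (1 / δ) / s) := by gcongr
        _ = _ := by ring
  calc _ ≤ ∫ w : ℝ, δ * Real.exp (1 / δ) / s * ‖deriv g (δ * w)‖ :=
        norm_integral_le_of_norm_le (hi2.const_mul _) (Eventually.of_forall hb)
    _ = δ * Real.exp (1 / δ) / s * (δ⁻¹ * ∫ x, ‖deriv g x‖) := by
        rw [integral_const_mul, Measure.integral_comp_mul_left (fun x => ‖deriv g x‖) δ,
          abs_of_pos (inv_pos.2 hδ), smul_eq_mul]
    _ = _ := by field_simp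

lemma EE_cont {g : ℝ → ℂ} (hg : Continuous g) (hs : HasCompactSupport g) {δ : ℝ} (hδ : 0 < δ) :
    Continuous (EE g δ) := by
  unfold EE
  have hcs : HasCompactSupport fun w : ℝ => g (δ * w) :=
    hs.comp_homeomorph (Homeomorph.mulLeft₀ δ hδ.ne')
  have hgcc : Continuous fun w : ℝ => g (δ * w) := hg.comp (by fun_prop)
  refine continuous_of_dominated (bound := fun w => Real.exp ((1 / 2 - δ) * w) * ‖g (δ * w)‖)
    (fun t => ?_) (fun t => Eventually.of_forall fun w => ?_) ?_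
    (Eventually.of_forall fun w => ?_)
  · exact (Continuous.mul (by fun_prop) hgcc).aestronglyMeasurable
  · rw [norm_mul, Complex.norm_exp, Complex.re_mul_ofReal, one_sub_re]
  · exact (Continuous.mul (by fun_prop) hgcc.norm).integrable_of_hasCompactSupport
      hcs.norm.mul_left
  · have : Continuous fun t : ℝ => sp δ t 0 := by unfold sp; fun_prop
    exact (Complex.continuous_exp.comp ((continuous_const.sub this).mul continuous_const)).mul
      continuous_const

/-- the contribution of the pole is negligible -/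
theorem EE_small {k : ℝ} (hk : 1 < k) {g : ℝ → ℂ} (hg : ContDiff ℝ ∞ g)
    (hs : HasCompactSupport g) (hg2 : ∀ x, 2 ≤ x → g x = 0) {N : ℝ → ℕ} (hN : Adm N) {ε : ℝ}
    (hε : 0 < ε) : ∀ᶠ T in atTop,
    nI k (-(2 * T)) (2 * T) (EE g (dl (N T))) ≤ ε * SS k N T := by
  have hk0 : 0 < k := by linarith
  obtain ⟨C, hC, h⟩ := EE_norm hg hs hg2
  have hsm : Tendsto (fun T : ℝ => C * (4 * ((N T : ℝ) ^ (1 : ℝ) / T ^ (1 / (2 * k))) * 2 ^ (1 / k) +
      2 * ((N T : ℝ) ^ (1 : ℝ) / T ^ (1 / 2 : ℝ)) * 2 ^ (1 / k))) atTop (𝓝 (C *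
      (4 * 0 * 2 ^ (1 / k) + 2 * 0 * 2 ^ (1 / k)))) :=
    ((((hN.small 1 _ (by positivity)).const_mul 4).mul_const _).add
      (((hN.small 1 _ (by positivity)).const_mul 2).mul_const _)).const_mul C
  have e0 : C * (4 * 0 * 2 ^ (1 / k) + 2 * 0 * 2 ^ (1 / k)) = 0 := by ring
  rw [e0] at hsm
  filter_upwards [hsm.eventually (gt_mem_nhds hε), SS_ge hk0 hN, hN.two,
    hN.delta.eventually (gt_mem_nhds (show (0 : ℝ) < 1 / 4 by norm_num)),
    eventually_ge_atTop 1] with T h1 h2 h3 h4 h5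
  have hδ := dl_pos h3
  set δ := dl (N T) with hδdef
  have hN0 : (0 : ℝ) < N T := by exact_mod_cast (by omega : 0 < N T)
  have hexp : Real.exp (1 / δ) = N T := by
    rw [hδdef]
    unfold dl
    rw [one_div_one_div, Real.exp_log hN0]
  have hT0 : 0 < T := by linarith
  set R := T ^ (1 / 2 : ℝ) with hR
  have hR0 : 0 < R := by positivity
  have hR1 : 1 ≤ R := Real.one_le_rpow h5 (by norm_num)
  have hRT : R ≤ T := by
    calc R ≤ T ^ (1 : ℝ) := Real.rpow_le_rpow_of_exponent_le h5 (by norm_num)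
      _ = T := Real.rpow_one T
  have hc := EE_cont hg.continuous hs hδ
  -- bounds
  have hre : (1 - sp δ 0 0).re = 1 / 2 - δ := one_sub_re δ 0 0
  have b1 : ∀ t, ‖EE g δ t‖ ≤ 4 * C * N T := by
    intro t
    refine (h δ hδ h4 t).trans ?_
    rw [hexp]
    have h6 : 1 / 4 ≤ ‖1 - sp δ t 0‖ := by
      have := Complex.abs_re_le_norm (1 - sp δ t 0)
      rw [one_sub_re, abs_of_pos (by linarith)] at this
      linarith
    calc C * N T / ‖1 - sp δ t 0‖ ≤ C * N T / (1 / 4) := by gcongr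
      _ = _ := by ring
  have b2 : ∀ t, R ≤ |t| → ‖EE g δ t‖ ≤ C * N T / R := by
    intro t ht
    refine (h δ hδ h4 t).trans ?_
    rw [hexp]
    have h6 : R ≤ ‖1 - sp δ t 0‖ := by
      have h7 := Complex.abs_im_le_norm (1 - sp δ t 0)
      rw [Complex.sub_im, sp_im, Complex.one_im] at h7
      have e : 0 - (t + -(2 * Real.pi * 0) * δ) = -t := by ring
      rw [e, abs_neg] at h7
      linarith
    gcongr
  have n1 := nI_le_const hk0 (a := -R) (b := R) (by linarith) hc (C := 4 * C * N T)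
    fun t _ => b1 t
  have n2 := nI_le_const hk0 (a := R) (b := 2 * T) (by linarith) hc (C := C * N T / R)
    fun t ht => b2 t (ht.1.trans (le_abs_self t))
  have n3 := nI_le_const hk0 (a := -(2 * T)) (b := -R) (by linarith) hc (C := C * N T / R)
    fun t ht => b2 t (by
      have := ht.2
      rw [abs_of_nonpos (by linarith)]
      linarith)
  have s1 := nI_split hk.le (a := -(2 * T)) (b := -R) (c := 2 * T) (by linarith) (by linarith) hc
  have s2 := nI_split hk.le (a := -R) (b := R) (c := 2 * T) (by linarith) (by linarith) hc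
  have l1 : (R - -R) ^ (1 / k) = 2 ^ (1 / k) * (T ^ (1 / k) / T ^ (1 / (2 * k))) := by
    have e1 : R - -R = 2 * R := by ring
    rw [e1, Real.mul_rpow (by norm_num) hR0.le, hR, ← Real.rpow_mul hT0.le,
      ← Real.rpow_sub hT0]
    congr 2
    field_simp
    ring
  have l2 : (2 * T - R) ^ (1 / k) ≤ 2 ^ (1 / k) * T ^ (1 / k) := by
    rw [← Real.mul_rpow (by norm_num) hT0.le]
    exact Real.rpow_le_rpow (by linarith) (by linarith) (by positivity)
  have l3 : (-R - -(2 * T)) ^ (1 / k) ≤ 2 ^ (1 / k) * T ^ (1 / k) := by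
    rw [← Real.mul_rpow (by norm_num) hT0.le]
    exact Real.rpow_le_rpow (by linarith) (by linarith) (by positivity)
  have hCR : 0 ≤ C * N T / R := by positivity
  have m2 := n2.trans (mul_le_mul_of_nonneg_left l2 hCR)
  have m3 := n3.trans (mul_le_mul_of_nonneg_left l3 hCR)
  rw [l1] at n1
  have hTk : 0 < T ^ (1 / k) := by positivity
  calc nI k (-(2 * T)) (2 * T) (EE g δ) ≤ C * N T / R * (2 ^ (1 / k) * T ^ (1 / k)) +
        (4 * C * N T * (2 ^ (1 / k) * (T ^ (1 / k) / T ^ (1 / (2 * k)))) +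
        C * N T / R * (2 ^ (1 / k) * T ^ (1 / k))) := by linarith
    _ = C * (4 * ((N T : ℝ) ^ (1 : ℝ) / T ^ (1 / (2 * k))) * 2 ^ (1 / k) +
      2 * ((N T : ℝ) ^ (1 : ℝ) / R) * 2 ^ (1 / k)) * T ^ (1 / k) := by
        rw [Real.rpow_one]; ring
    _ ≤ ε * T ^ (1 / k) := mul_le_mul_of_nonneg_right h1.le hTk.le
    _ ≤ ε * SS k N T := mul_le_mul_of_nonneg_left h2 hε.le

end Pool.Agent.H7.PT
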