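import Pool.Agent.H7.PT.P6

set_option autoImplicit false
open MeasureTheory Metric Filter ProbabilityTheory
open scoped ComplexConjugate ENNReal Topology ContDiff

/-! Smooth sums are close to combinations of shifted values of zeta. -/

namespace Pool.Agent.H7.PT

open Pool.Agent.H7.PM (dl dl_pos dl_nonneg dl_tendsto log_dl)
open Pool.Agent.V11128.CXL

/-- smooth sums -/
noncomputable def VV (g : ℝ → ℂ) (N : ℕ) (t : ℝ) : ℂ :=
  ∑ n ∈ Finset.Icc 1 (N ^ 2), g (dl N * Real.log n) * (n : ℂ) ^ (-(sp (dl N) t 0))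

lemma sp_cont_t (δ ξ : ℝ) : Continuous fun t => sp δ t ξ := by
  unfold sp
  fun_prop

lemma VV_cont (g : ℝ → ℂ) (N : ℕ) : Continuous (VV g N) := by
  unfold VV
  refine continuous_finsetSum _ fun n hn => ?_
  have hn0 : (n : ℂ) ≠ 0 := by
    exact_mod_cast (by have := (Finset.mem_Icc.1 hn).1; omega : n ≠ 0)
  have := sp_cont_t (dl N) 0
  exact continuous_const.mul (Continuous.const_cpow this.neg (Or.inl hn0))

lemma tail_tendsto {f : ℝ → ℝ} (hf : Integrable f) :
    Tendsto (fun R : ℝ => ∫ ξ in (Set.Icc (-R) R)ᶜ, f ξ) atTop (𝓝 0) := by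
  have h1 : Tendsto (fun R : ℝ => ∫ ξ in Set.Icc (-R) R, f ξ) atTop (𝓝 (∫ ξ, f ξ)) :=
    (aecover_Icc tendsto_neg_atTop_atBot tendsto_id).integral_tendsto_of_countably_generated hf
  have h2 := h1.const_sub (∫ ξ, f ξ)
  rw [sub_self] at h2
  refine h2.congr fun R => ?_
  have h3 := integral_add_compl (μ := volume) (measurableSet_Icc (a := -R) (b := R)) hf
  linarith

lemma union_le {f : ℝ → ℝ} (hf : Integrable f) (h0 : ∀ x, 0 ≤ f x) {s t : Set ℝ}
    (hs : MeasurableSet s) (ht : MeasurableSet t) :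
    ∫ x in s ∪ t, f x ≤ (∫ x in s, f x) + ∫ x in t, f x := by
  have e : s ∪ t = s ∪ (t \ s) := by
    ext x; simp only [Set.mem_union, Set.mem_sdiff]; tauto
  rw [e, setIntegral_union Set.disjoint_sdiff_right (ht.diff hs) hf.integrableOn hf.integrableOn]
  have h1 : ∫ x in t \ s, f x ≤ ∫ x in t, f x :=
    setIntegral_mono_set hf.integrableOn (Eventually.of_forall h0)
      (show t \ s ⊆ t from fun x hx => hx.1).eventuallyLE
  linarith

lemma zsp_deriv {δ : ℝ} (hδ1 : δ < 1 / 4) (t ξ : ℝ) :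
    HasDerivAt (fun ξ : ℝ => riemannZeta (sp δ t ξ))
      (deriv riemannZeta (sp δ t ξ) * (((-(2 * Real.pi) * δ : ℝ) : ℂ) * Complex.I)) ξ := by
  have h1 : HasDerivAt (fun ξ : ℝ => sp δ t ξ) (((-(2 * Real.pi) * δ : ℝ) : ℂ) * Complex.I) ξ := by
    unfold sp
    have h2 : HasDerivAt (fun ξ : ℝ => t + -(2 * Real.pi * ξ) * δ) (-(2 * Real.pi) * δ) ξ := by
      have h3 := ((hasDerivAt_id ξ).const_mul (2 * Real.pi)).neg.mul_const δ |>.const_add t
      simp only [id, mul_one] at h3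
      exact h3
    have h4 := (h2.ofReal_comp.mul_const Complex.I).const_add (1 / 2 + (δ : ℂ))
    exact h4
  have h5 := (differentiableAt_riemannZeta (sp_ne hδ1 t ξ)).hasDerivAt
  exact h5.comp ξ h1

lemma dsp_cont {δ : ℝ} (hδ1 : δ < 1 / 4) (t : ℝ) :
    Continuous fun ξ => ‖deriv riemannZeta (sp δ t ξ)‖ := by
  have h1 : ContinuousOn (deriv riemannZeta) {1}ᶜ := by
    have h2 : DifferentiableOn ℂ riemannZeta {1}ᶜ := fun s hs =>
      (differentiableAt_riemannZeta hs).differentiableWithinAt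
    exact (h2.deriv isOpen_compl_singleton).continuousOn
  exact (h1.comp_continuous (sp_cont δ t) fun ξ => sp_ne hδ1 t ξ).norm

lemma cell_diff {δ : ℝ} (hδ : 0 < δ) (hδ1 : δ < 1 / 4) (t : ℝ) {x y ξ : ℝ} (h1 : x ≤ ξ)
    (h2 : ξ ≤ y) : ‖riemannZeta (sp δ t ξ) - riemannZeta (sp δ t x)‖ ≤
      2 * Real.pi * δ * ∫ u in x..y, ‖deriv riemannZeta (sp δ t u)‖ := by
  have hc := dsp_cont hδ1 t
  have hdc : Continuous fun u => deriv riemannZeta (sp δ t u) *
      (((-(2 * Real.pi) * δ : ℝ) : ℂ) * Complex.I) := by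
    have h1 : ContinuousOn (deriv riemannZeta) {1}ᶜ := by
      have h2 : DifferentiableOn ℂ riemannZeta {1}ᶜ := fun s hs =>
        (differentiableAt_riemannZeta hs).differentiableWithinAt
      exact (h2.deriv isOpen_compl_singleton).continuousOn
    exact (h1.comp_continuous (sp_cont δ t) fun ξ => sp_ne hδ1 t ξ).mul continuous_const
  have h3 := intervalIntegral.integral_eq_sub_of_hasDerivAt (a := x) (b := ξ)
    (fun u _ => zsp_deriv hδ1 t u) (hdc.intervalIntegrable _ _)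
  rw [← h3]
  refine (intervalIntegral.norm_integral_le_integral_norm h1).trans ?_
  have h4 : ∀ u, ‖deriv riemannZeta (sp δ t u) * (((-(2 * Real.pi) * δ : ℝ) : ℂ) * Complex.I)‖ =
      2 * Real.pi * δ * ‖deriv riemannZeta (sp δ t u)‖ := by
    intro u
    rw [norm_mul, norm_mul, Complex.norm_I, mul_one, Complex.norm_real, Real.norm_eq_abs, neg_mul,
      abs_neg, abs_of_pos (by have := Real.pi_pos; positivity), mul_comm]
  simp_rw [h4]
  rw [intervalIntegral.integral_const_mul]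
  refine mul_le_mul_of_nonneg_left ?_ (by have := Real.pi_pos; positivity)
  exact intervalIntegral.integral_mono_interval le_rfl h1 h2
    (Eventually.of_forall fun u => norm_nonneg _) (hc.intervalIntegrable _ _)

/-- Riemann sums -/
lemma riemann_sum {h : ℝ → ℂ} (hh : Continuous h) {δ : ℝ} (hδ : 0 < δ) (hδ1 : δ < 1 / 4) (t : ℝ)
    (x : ℕ → ℝ) (s Hb : ℝ) (hs : 0 < s) (hx : ∀ j, x (j + 1) = x j + s) (n : ℕ)
    (hHb : ∀ ξ ∈ Set.Icc (x 0) (x n), ‖h ξ‖ ≤ Hb) (hHb0 : 0 ≤ Hb) :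
    ‖(∫ ξ in (x 0)..(x n), h ξ * riemannZeta (sp δ t ξ)) -
      ∑ j ∈ Finset.range n, (∫ ξ in (x j)..(x (j + 1)), h ξ) * riemannZeta (sp δ t (x j))‖ ≤
      Hb * s * (2 * Real.pi * δ) * ∫ u in (x 0)..(x n), ‖deriv riemannZeta (sp δ t u)‖ := by
  have hmono : ∀ j, x j ≤ x (j + 1) := fun j => by rw [hx]; linarith
  have hmon : Monotone x := monotone_nat_of_le_succ hmono
  have hzc := zsp_cont hδ1 t
  have hdc := dsp_cont hδ1 t
  have e1 : ∫ ξ in (x 0)..(x n), h ξ * riemannZeta (sp δ t ξ) =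
      ∑ j ∈ Finset.range n, ∫ ξ in (x j)..(x (j + 1)), h ξ * riemannZeta (sp δ t ξ) :=
    (intervalIntegral.sum_integral_adjacent_intervals fun j _ =>
      (hh.mul hzc).intervalIntegrable _ _).symm
  have e2 : ∫ u in (x 0)..(x n), ‖deriv riemannZeta (sp δ t u)‖ =
      ∑ j ∈ Finset.range n, ∫ u in (x j)..(x (j + 1)), ‖deriv riemannZeta (sp δ t u)‖ :=
    (intervalIntegral.sum_integral_adjacent_intervals fun j _ =>
      hdc.intervalIntegrable _ _).symm
  rw [e1, e2, ← Finset.sum_sub_distrib, Finset.mul_sum]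
  refine (norm_sum_le _ _).trans (Finset.sum_le_sum fun j hj => ?_)
  have hjn : j + 1 ≤ n := Finset.mem_range.1 hj
  have e3 : (∫ ξ in (x j)..(x (j + 1)), h ξ * riemannZeta (sp δ t ξ)) -
      (∫ ξ in (x j)..(x (j + 1)), h ξ) * riemannZeta (sp δ t (x j)) =
      ∫ ξ in (x j)..(x (j + 1)), h ξ * (riemannZeta (sp δ t ξ) - riemannZeta (sp δ t (x j))) := by
    have i1 : IntervalIntegrable (fun ξ => h ξ * riemannZeta (sp δ t ξ)) volume (x j) (x (j + 1)) :=
      (hh.mul hzc).intervalIntegrable _ _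
    have i2 : IntervalIntegrable (fun ξ => h ξ * riemannZeta (sp δ t (x j))) volume (x j)
      (x (j + 1)) := (hh.mul continuous_const).intervalIntegrable _ _
    rw [← intervalIntegral.integral_mul_const, ← intervalIntegral.integral_sub i1 i2]
    refine intervalIntegral.integral_congr fun ξ _ => ?_
    ring
  rw [e3]
  have h4 := intervalIntegral.norm_integral_le_of_norm_le_const (a := x j) (b := x (j + 1))
    (f := fun ξ => h ξ * (riemannZeta (sp δ t ξ) - riemannZeta (sp δ t (x j))))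
    (C := Hb * (2 * Real.pi * δ * ∫ u in (x j)..(x (j + 1)), ‖deriv riemannZeta (sp δ t u)‖))
    (fun ξ hξ => by
      rw [Set.uIoc_of_le (hmono j)] at hξ
      rw [norm_mul]
      refine mul_le_mul (hHb ξ ⟨?_, ?_⟩) (cell_diff hδ hδ1 t hξ.1.le hξ.2) (norm_nonneg _) hHb0
      · exact (hmon (Nat.zero_le j)).trans hξ.1.le
      · exact hξ.2.trans (hmon hjn))
  refine h4.trans (le_of_eq ?_)
  have e4 : |x (j + 1) - x j| = s := by rw [hx, add_sub_cancel_left, abs_of_pos hs]
  rw [e4]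
  ring

theorem approx_V {k : ℝ} (hk : 1 < k) (hk4 : k ≤ 4) {g : ℝ → ℂ} (hg : ContDiff ℝ ∞ g)
    (hs : HasCompactSupport g) (hg2 : ∀ x, 2 ≤ x → g x = 0) {ε : ℝ} (hε : 0 < ε) :
    ∃ (n : ℕ) (w : Fin n → ℂ) (a : Fin n → ℝ), ∀ N : ℝ → ℕ, Adm N → ∀ᶠ T in atTop,
      nI k (-(2 * T)) (2 * T) (fun t => VV g (N T) t - cmb w a (dl (N T)) t) ≤
        ε * SS k N T := by
  have hk0 : 0 < k := by linarith
  have hpi := Real.pi_pos
  obtain ⟨h, H⟩ := exists_WD g hg hs
  obtain ⟨CZ, hCZ, HZ⟩ := Zup hk hk4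
  obtain ⟨CD, hCD, HD⟩ := Dup hk hk4
  -- the choice of J
  have ht1 := tail_tendsto H.hi.norm
  have ht2 := tail_tendsto H.hi1
  obtain ⟨J, hJ1, hJ⟩ : ∃ J : ℕ, 1 ≤ J ∧
      (∫ ξ in (Set.Icc (-(J : ℝ)) J)ᶜ, ‖h ξ‖) * CZ ≤ ε / 4 := by
    have h1 := (ht1.comp tendsto_natCast_atTop_atTop).mul_const CZ
    rw [zero_mul] at h1
    obtain ⟨J, hJ, hJ1⟩ := ((h1.eventually (gt_mem_nhds (show (0 : ℝ) < ε / 4 by positivity))).and
      (eventually_ge_atTop 1)).exists
    exact ⟨J, hJ1, hJ.le⟩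
  have hJ0 : (1 : ℝ) ≤ J := by exact_mod_cast hJ1
  obtain ⟨Hb', hHb'⟩ := (isCompact_Icc (a := -(J : ℝ)) (b := J)).exists_bound_of_continuousOn
    H.hc.continuousOn
  set Hb := max Hb' 0 with hHbdef
  have hHb : ∀ ξ ∈ Set.Icc (-(J : ℝ)) J, ‖h ξ‖ ≤ Hb := fun ξ hξ =>
    (hHb' ξ hξ).trans (le_max_left _ _)
  have hHb0 : 0 ≤ Hb := le_max_right _ _
  obtain ⟨m, hm1, hm⟩ : ∃ m : ℕ, 1 ≤ m ∧
      Hb * (1 / (m : ℝ)) * (2 * Real.pi) * (2 * J) * CD ≤ ε / 4 := by
    have h1 : Tendsto (fun m : ℕ => Hb * (1 / (m : ℝ)) * (2 * Real.pi) * (2 * J) * CD) atTop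
        (𝓝 (Hb * 0 * (2 * Real.pi) * (2 * J) * CD)) :=
      ((((tendsto_one_div_atTop_nhds_zero_nat (𝕜 := ℝ)).const_mul Hb).mul_const _).mul_const
        _).mul_const _
    have e0 : Hb * 0 * (2 * Real.pi) * (2 * J) * CD = 0 := by ring
    rw [e0] at h1
    obtain ⟨m, hm, hm1⟩ := ((h1.eventually (gt_mem_nhds (show (0 : ℝ) < ε / 4 by positivity))).and
      (eventually_ge_atTop 1)).exists
    exact ⟨m, hm1, hm.le⟩
  have hm0 : (0 : ℝ) < m := by exact_mod_cast hm1
  set x : ℕ → ℝ := fun j => -(J : ℝ) + j / m with hx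
  have hxs : ∀ j, x (j + 1) = x j + 1 / m := by
    intro j
    simp only [hx]
    push_cast
    ring
  have hx0 : x 0 = -J := by simp [hx]
  have hxn : x (2 * J * m) = J := by
    simp only [hx]
    push_cast
    field_simp
    ring
  set n := 2 * J * m with hn
  refine ⟨n, fun j => ∫ ξ in (x j)..(x (j + 1)), h ξ, fun j => -(2 * Real.pi * x j),
    fun N hN => ?_⟩
  have hsm : Tendsto (fun T : ℝ => 19 * (∫ ξ in (Set.Icc (-(T / 2)) (T / 2))ᶜ, |ξ| * ‖h ξ‖) *
      4 ^ (1 / k)) atTop (𝓝 (19 * 0 * 4 ^ (1 / k))) :=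
    ((ht2.comp (tendsto_id.atTop_div_const (by norm_num : (0 : ℝ) < 2))).const_mul 19).mul_const _
  have e0 : 19 * 0 * (4 : ℝ) ^ (1 / k) = 0 := by ring
  rw [e0] at hsm
  filter_upwards [HZ N hN, HD N hN, EE_small hk hg hs hg2 hN (show (0 : ℝ) < ε / 4 by positivity),
    hsm.eventually (gt_mem_nhds (show (0 : ℝ) < ε / 4 by positivity)), SS_ge hk0 hN, hN.two,
    hN.delta.eventually (gt_mem_nhds (show (0 : ℝ) < 1 / 4 by norm_num)),
    eventually_ge_atTop (2 * (J : ℝ))] with T h1 h2 h3 h4 h5 h6 h7 h8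
  have hδ := dl_pos h6
  set δ := dl (N T) with hδdef
  have hT0 : 0 < T := by linarith
  have hT2 : 2 ≤ T := by linarith
  have hSS : 0 ≤ SS k N T := SS_nonneg k N hT0.le
  set w : Fin n → ℂ := fun j => ∫ ξ in (x j)..(x (j + 1)), h ξ with hw
  set a : Fin n → ℝ := fun j => -(2 * Real.pi * x j) with ha
  have hpd : 2 * Real.pi * δ ≤ 2 := by
    have := Real.pi_le_four
    nlinarith
  have hpd0 : 0 < 2 * Real.pi * δ := by positivity
  set c : ℝ := -(2 * Real.pi * δ) with hc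
  set Ξ : ℝ := T / (2 * Real.pi * δ) with hΞ
  have hΞ0 : 0 < Ξ := by positivity
  have hΞT : T / 2 ≤ Ξ := by
    rw [hΞ]
    gcongr
  have hΞc : 2 * Real.pi * δ * Ξ = T := by rw [hΞ]; field_simp
  set A2 : Set ℝ := Set.Icc (J : ℝ) Ξ ∪ Set.Icc (-Ξ) (-(J : ℝ)) with hA2
  have hA2c : IsCompact A2 := isCompact_Icc.union isCompact_Icc
  -- the functions
  set F1 : ℝ → ℝ := fun t => ∫ ξ in Set.Icc (-(J : ℝ)) J, (Hb * (1 / m) * (2 * Real.pi * δ)) *
    ‖deriv riemannZeta (pt δ (t + c * ξ))‖ with hF1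
  set F2 : ℝ → ℝ := fun t => ∫ ξ in A2, ‖h ξ‖ * ‖zc δ 0 (t + c * ξ)‖ with hF2
  set F3 : ℝ := 19 * ∫ ξ in (Set.Icc (-(T / 2)) (T / 2))ᶜ, |ξ| * ‖h ξ‖ with hF3
  have hdz : Continuous fun t => ‖deriv riemannZeta (pt δ t)‖ := (dz_cont h7).norm
  have hzz : Continuous fun t => ‖zc δ 0 t‖ := (zc_cont (by linarith) 0).norm
  have hF1c : Continuous F1 := conv_cont isCompact_Icc continuous_const hdz c
  have hF2c : Continuous F2 := conv_cont hA2c H.hc.norm hzz c
  have hF10 : ∀ t, 0 ≤ F1 t := fun t => integral_nonneg fun ξ => by positivity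
  have hF20 : ∀ t, 0 ≤ F2 t := fun t => integral_nonneg fun ξ => by positivity
  have hF30 : 0 ≤ F3 := mul_nonneg (by norm_num) (integral_nonneg fun ξ => by positivity)
  -- the norms
  have n1 : nI k (-(2 * T)) (2 * T) (fun t => (F1 t : ℂ)) ≤ ε / 4 * SS k N T := by
    have y := young hk (A := Set.Icc (-(J : ℝ)) J) isCompact_Icc
      (w := fun _ => Hb * (1 / m) * (2 * Real.pi * δ))
      (f := fun t => ‖deriv riemannZeta (pt δ t)‖) continuous_const (fun _ => by positivity) hdz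
      (fun _ => norm_nonneg _) (c := c) (D := T) (fun ξ hξ => by
        rw [hc, abs_mul, abs_neg, abs_of_pos hpd0]
        have h9 : |ξ| ≤ J := abs_le.2 hξ
        calc 2 * Real.pi * δ * |ξ| ≤ 2 * J := mul_le_mul hpd h9 (abs_nonneg _) (by norm_num)
          _ ≤ T := h8) (-(2 * T)) (2 * T)
    have e1 : -(2 * T) - T = -(3 * T) := by ring
    have e2 : 2 * T + T = 3 * T := by ring
    rw [e1, e2] at y
    refine y.trans ?_
    have e3 : ∫ _ξ in Set.Icc (-(J : ℝ)) J, Hb * (1 / m) * (2 * Real.pi * δ) =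
        2 * J * (Hb * (1 / m) * (2 * Real.pi * δ)) := by
      rw [setIntegral_const, smul_eq_mul, measureReal_def, Real.volume_Icc,
        ENNReal.toReal_ofReal (by linarith)]
      ring
    rw [e3]
    have e4 : nI k (-(3 * T)) (3 * T) (fun t => ((‖deriv riemannZeta (pt δ t)‖ : ℝ) : ℂ)) =
        nI k (-(3 * T)) (3 * T) (fun t => deriv riemannZeta (pt δ t)) :=
      nI_congr fun t _ => by rw [Complex.norm_real, norm_norm]
    rw [e4]
    calc 2 * J * (Hb * (1 / m) * (2 * Real.pi * δ)) *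
          nI k (-(3 * T)) (3 * T) (fun t => deriv riemannZeta (pt δ t)) =
          Hb * (1 / m) * (2 * Real.pi) * (2 * J) *
          (δ * nI k (-(3 * T)) (3 * T) (fun t => deriv riemannZeta (pt δ t))) := by ring
      _ ≤ Hb * (1 / m) * (2 * Real.pi) * (2 * J) * (CD * SS k N T) :=
          mul_le_mul_of_nonneg_left h2 (by positivity)
      _ = Hb * (1 / m) * (2 * Real.pi) * (2 * J) * CD * SS k N T := by ring
      _ ≤ _ := mul_le_mul_of_nonneg_right hm hSS
  have n2 : nI k (-(2 * T)) (2 * T) (fun t => (F2 t : ℂ)) ≤ ε / 4 * SS k N T := by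
    have y := young hk (A := A2) hA2c (w := fun ξ => ‖h ξ‖) (f := fun t => ‖zc δ 0 t‖)
      H.hc.norm (fun _ => norm_nonneg _) hzz (fun _ => norm_nonneg _) (c := c) (D := T)
      (fun ξ hξ => by
        rw [hc, abs_mul, abs_neg, abs_of_pos hpd0]
        have h9 : |ξ| ≤ Ξ := by
          rcases hξ with h10 | h10
          · exact abs_le.2 ⟨by linarith [h10.1], h10.2⟩
          · exact abs_le.2 ⟨h10.1, by linarith [h10.2]⟩
        calc 2 * Real.pi * δ * |ξ| ≤ 2 * Real.pi * δ * Ξ := by gcongr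
          _ = T := hΞc) (-(2 * T)) (2 * T)
    have e1 : -(2 * T) - T = -(3 * T) := by ring
    have e2 : 2 * T + T = 3 * T := by ring
    rw [e1, e2] at y
    refine y.trans ?_
    have e4 : nI k (-(3 * T)) (3 * T) (fun t => ((‖zc δ 0 t‖ : ℝ) : ℂ)) =
        nI k (-(3 * T)) (3 * T) (zc δ 0) :=
      nI_congr fun t _ => by rw [Complex.norm_real, norm_norm]
    rw [e4]
    have e5 : ∫ ξ in A2, ‖h ξ‖ ≤ ∫ ξ in (Set.Icc (-(J : ℝ)) J)ᶜ, ‖h ξ‖ := by
      have e6 : A2 ≤ᵐ[volume] (Set.Icc (-(J : ℝ)) J)ᶜ := by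
        have h11 : ∀ᵐ ξ : ℝ, ξ ∉ ({(J : ℝ), -(J : ℝ)} : Set ℝ) :=
          compl_mem_ae_iff.2 ((Set.toFinite _).measure_zero volume)
        filter_upwards [h11] with ξ hξ hA
        simp only [Set.mem_insert_iff, Set.mem_singleton_iff, not_or] at hξ
        intro h12
        rcases hA with h13 | h13
        · exact hξ.1 (le_antisymm h12.2 h13.1)
        · exact hξ.2 (le_antisymm h13.2 h12.1)
      exact setIntegral_mono_set H.hi.norm.integrableOn
        (Eventually.of_forall fun ξ => norm_nonneg _) e6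
    calc (∫ ξ in A2, ‖h ξ‖) * nI k (-(3 * T)) (3 * T) (zc δ 0) ≤
          (∫ ξ in (Set.Icc (-(J : ℝ)) J)ᶜ, ‖h ξ‖) * (CZ * SS k N T) :=
          mul_le_mul e5 h1 (nI_nonneg _ _ _ _) (integral_nonneg fun ξ => norm_nonneg _)
      _ = (∫ ξ in (Set.Icc (-(J : ℝ)) J)ᶜ, ‖h ξ‖) * CZ * SS k N T := by ring
      _ ≤ _ := mul_le_mul_of_nonneg_right hJ hSS
  have n3 : nI k (-(2 * T)) (2 * T) (fun _ => (F3 : ℂ)) ≤ ε / 4 * SS k N T := by
    rw [nI_const hk0 (by linarith), Complex.norm_real, Real.norm_of_nonneg hF30]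
    have e1 : (2 * T - -(2 * T)) ^ (1 / k) = 4 ^ (1 / k) * T ^ (1 / k) := by
      rw [← Real.mul_rpow (by norm_num) hT0.le]
      congr 1
      ring
    rw [e1, ← mul_assoc]
    calc F3 * 4 ^ (1 / k) * T ^ (1 / k) ≤ ε / 4 * T ^ (1 / k) :=
          mul_le_mul_of_nonneg_right h4.le (by positivity)
      _ ≤ _ := mul_le_mul_of_nonneg_left h5 (by positivity)
  -- pointwise
  have hcm := cmb_cont w a (show δ < 1 / 2 by linarith)
  have hEc := EE_cont hg.continuous hs hδ
  have hpt : ∀ t ∈ Set.Icc (-(2 * T)) (2 * T),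
      ‖VV g (N T) t - cmb w a δ t - EE g δ t‖ ≤ ‖(F1 t : ℂ) + ((F2 t : ℂ) + (F3 : ℂ))‖ := by
    intro t ht
    have hR : ‖(F1 t : ℂ) + ((F2 t : ℂ) + (F3 : ℂ))‖ = F1 t + (F2 t + F3) := by
      rw [← Complex.ofReal_add, ← Complex.ofReal_add, Complex.norm_real, Real.norm_of_nonneg]
      have := hF10 t
      have := hF20 t
      positivity
    rw [hR]
    have hNT : 1 ≤ N T ^ 2 := Nat.one_le_pow _ _ (by omega)
    have hlog2 : 2 ≤ δ * Real.log ((N T ^ 2 : ℕ) : ℝ) := by
      push_cast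
      rw [Real.log_pow]
      have := log_dl h6
      push_cast
      rw [hδdef]
      nlinarith
    have e1 : VV g (N T) t = (∫ ξ, h ξ * riemannZeta (sp δ t ξ)) + EE g δ t :=
      smooth_eq H hg2 hδ h7 t hNT hlog2
    have e2 : cmb w a δ t = ∑ j ∈ Finset.range n, (∫ ξ in (x j)..(x (j + 1)), h ξ) *
        riemannZeta (sp δ t (x j)) := by
      unfold cmb
      rw [Finset.sum_range]
      rfl
    have hzi := integrable_zeta H hδ h7 t
    have e3 : VV g (N T) t - cmb w a δ t - EE g δ t =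
        ((∫ ξ in (x 0)..(x n), h ξ * riemannZeta (sp δ t ξ)) - cmb w a δ t) +
        ∫ ξ in (Set.Icc (-(J : ℝ)) J)ᶜ, h ξ * riemannZeta (sp δ t ξ) := by
      have h13 := integral_add_compl (μ := volume) (measurableSet_Icc (a := -(J : ℝ)) (b := J)) hzi
      have h14 : ∫ ξ in (x 0)..(x n), h ξ * riemannZeta (sp δ t ξ) =
          ∫ ξ in Set.Icc (-(J : ℝ)) J, h ξ * riemannZeta (sp δ t ξ) := by
        rw [hx0, hxn, integral_Icc_eq_integral_Ioc, intervalIntegral.integral_of_le (by linarith)]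
      rw [e1, h14, ← h13]
      ring
    rw [e3]
    refine (norm_add_le _ _).trans (add_le_add ?_ ?_)
    · rw [e2]
      have h15 := riemann_sum H.hc hδ h7 t x (1 / m) Hb (by positivity) hxs n
        (by rw [hx0, hxn]; exact hHb) hHb0
      refine h15.trans (le_of_eq ?_)
      rw [hx0, hxn, intervalIntegral.integral_of_le (by linarith), ← integral_Icc_eq_integral_Ioc,
        ← integral_const_mul, hF1]
      simp only
      refine integral_congr_ae (Eventually.of_forall fun ξ => ?_)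
      simp only
      have e5 : sp δ t ξ = pt δ (t + c * ξ) := by
        unfold sp pt
        rw [hc]
        push_cast
        ring
      rw [e5]
    · have hsub : (Set.Icc (-(J : ℝ)) J)ᶜ ⊆ A2 ∪ (Set.Icc (-Ξ) Ξ)ᶜ := by
        intro ξ hξ
        rcases le_or_gt |ξ| Ξ with h16 | h16
        · left
          obtain ⟨h17, h18⟩ := abs_le.1 h16
          rcases le_total ξ (-(J : ℝ)) with h19 | h19
          · exact Or.inr ⟨h17, h19⟩
          · left
            refine ⟨?_, h18⟩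
            by_contra h20
            exact hξ ⟨h19, (not_le.1 h20).le⟩
        · right
          intro h17
          exact absurd (abs_le.2 h17) (not_le.2 h16)
      calc ‖∫ ξ in (Set.Icc (-(J : ℝ)) J)ᶜ, h ξ * riemannZeta (sp δ t ξ)‖ ≤
            ∫ ξ in (Set.Icc (-(J : ℝ)) J)ᶜ, ‖h ξ * riemannZeta (sp δ t ξ)‖ :=
            norm_integral_le_integral_norm _
        _ ≤ ∫ ξ in A2 ∪ (Set.Icc (-Ξ) Ξ)ᶜ, ‖h ξ * riemannZeta (sp δ t ξ)‖ :=
            setIntegral_mono_set hzi.norm.integrableOn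
              (Eventually.of_forall fun ξ => norm_nonneg _) hsub.eventuallyLE
        _ ≤ (∫ ξ in A2, ‖h ξ * riemannZeta (sp δ t ξ)‖) +
            ∫ ξ in (Set.Icc (-Ξ) Ξ)ᶜ, ‖h ξ * riemannZeta (sp δ t ξ)‖ :=
            union_le hzi.norm (fun ξ => norm_nonneg _) hA2c.measurableSet
              measurableSet_Icc.compl
        _ ≤ F2 t + F3 := by
            refine add_le_add (le_of_eq ?_) ?_
            · rw [hF2]
              simp only
              refine integral_congr_ae (Eventually.of_forall fun ξ => ?_)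
              simp only
              have e5 : riemannZeta (sp δ t ξ) = zc δ 0 (t + c * ξ) := by
                unfold sp zc
                rw [hc]
                congr 3
                push_cast
                ring
              rw [norm_mul, e5]
            · rw [hF3, ← integral_const_mul]
              have hsub2 : (Set.Icc (-Ξ) Ξ)ᶜ ⊆ (Set.Icc (-(T / 2)) (T / 2))ᶜ :=
                Set.compl_subset_compl.2 (Set.Icc_subset_Icc (by linarith) hΞT)
              refine (setIntegral_mono_set hzi.norm.integrableOn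
                (Eventually.of_forall fun ξ => norm_nonneg _) hsub2.eventuallyLE).trans ?_
              refine setIntegral_mono_on hzi.norm.integrableOn
                (H.hi1.const_mul 19).integrableOn measurableSet_Icc.compl fun ξ hξ => ?_
              have h21 : T / 2 < |ξ| := by
                by_contra h22
                exact hξ (abs_le.1 (not_lt.1 h22))
              have h23 := zeta_bd (s := sp δ t ξ) (by rw [sp_re]; linarith)
                (by rw [sp_re]; linarith)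
              have h24 := sp_norm hδ h7 t ξ
              have h25 : |t| ≤ 2 * T := abs_le.2 ht
              have h26 : ‖riemannZeta (sp δ t ξ)‖ ≤ 19 * |ξ| := by linarith
              rw [norm_mul]
              calc ‖h ξ‖ * ‖riemannZeta (sp δ t ξ)‖ ≤ ‖h ξ‖ * (19 * |ξ|) :=
                    mul_le_mul_of_nonneg_left h26 (norm_nonneg _)
                _ = _ := by ring
  have hVc := VV_cont g (N T)
  have hc1 : Continuous fun t => VV g (N T) t - cmb w a δ t - EE g δ t := (hVc.sub hcm).sub hEc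
  have hc2 : Continuous fun t => (F1 t : ℂ) := Complex.continuous_ofReal.comp hF1c
  have hc3 : Continuous fun t => (F2 t : ℂ) := Complex.continuous_ofReal.comp hF2c
  have m1 := nI_mono hk0 hc1 (addc hc2 (addc hc3 continuous_const)) hpt
  have m2 := nI_add_le hk.le (-(2 * T)) (2 * T) hc2 (addc hc3 (continuous_const (y := (F3 : ℂ))))
  have m3 := nI_add_le hk.le (-(2 * T)) (2 * T) hc3 (continuous_const (y := (F3 : ℂ)))
  have m4 := nI_add_le hk.le (-(2 * T)) (2 * T) hc1 hEc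
  simp only [sub_add_cancel] at m4
  linarith

end Pool.Agent.H7.PT
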