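import Pool.Agent.H7.PM.G1
import Pool.Agent.H7.PT.P2
import Pool.Agent.H7.PT.P7

set_option autoImplicit false
open MeasureTheory Metric Filter ProbabilityTheory
open scoped ComplexConjugate ENNReal Topology ContDiff

/-! The weights; the part close to the cut. -/

namespace Pool.Agent.H7.PT

open Pool.Agent.H7.PM (dl dl_pos dl_nonneg dl_tendsto log_dl stf nat_cpow yn yn_pos DPol)
open Pool.Agent.Helper873.OneVar Pool.Agent.Helper873.Product Pool.Agent.Helper873.Embed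
  Pool.Agent.Helper873.Mean Pool.Agent.Helper873.Alg
open Pool.Agent.V11128.CXL

/-- the bump function -/
noncomputable def bmp : ContDiffBump (0 : ℝ) := ⟨1, 2, one_pos, one_lt_two⟩

/-- the cutoff -/
noncomputable def chi (x : ℝ) : ℝ := bmp x

lemma chi_one {x : ℝ} (h0 : 0 ≤ x) (h : x ≤ 1) : chi x = 1 :=
  bmp.one_of_mem_closedBall (by
    rw [mem_closedBall, Real.dist_eq, sub_zero, abs_of_nonneg h0]; exact h)

lemma chi_zero {x : ℝ} (h : 2 ≤ x) : chi x = 0 :=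
  bmp.zero_of_le_dist (by
    rw [Real.dist_eq, sub_zero]; exact h.trans (le_abs_self x))

lemma chi_nonneg (x : ℝ) : 0 ≤ chi x := bmp.nonneg

lemma chi_le (x : ℝ) : chi x ≤ 1 := bmp.le_one

lemma chi_smooth : ContDiff ℝ ∞ chi := bmp.contDiff

lemma chi_supp : HasCompactSupport chi := bmp.hasCompactSupport

/-- the weights -/
noncomputable def gw (j : ℕ) (x : ℝ) : ℂ := (chi x : ℂ) * Complex.exp (-((j : ℂ) * x))

lemma gw_smooth (j : ℕ) : ContDiff ℝ ∞ (gw j) := by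
  unfold gw
  refine ContDiff.mul (Complex.ofRealCLM.contDiff.comp chi_smooth) ?_
  exact ((contDiff_const.mul Complex.ofRealCLM.contDiff).neg).cexp

lemma gw_supp (j : ℕ) : HasCompactSupport (gw j) := by
  have h : HasCompactSupport fun x => (chi x : ℂ) :=
    chi_supp.comp_left (g := fun y : ℝ => (y : ℂ)) (by simp)
  exact h.mul_right

lemma gw_zero (j : ℕ) (x : ℝ) (h : 2 ≤ x) : gw j x = 0 := by
  unfold gw
  rw [chi_zero h]
  simp

lemma stf_zt (n : ℕ) (hn : n ≠ 0) (t : ℝ) : stf n (zt t) = (n : ℂ) ^ (-(t * Complex.I)) := by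
  unfold stf
  have h2 : (fun j => zet (zt t j)) = vs (t * Complex.I) := funext fun k => zet_zt t k
  rw [h2, mon_vs n hn]

lemma QP_eq (K : ℕ) (c : ℕ → ℂ) (t : ℝ) :
    QP (Finset.Icc 1 K) c t = ∑ n ∈ Finset.Icc 1 K, c n * (n : ℂ) ^ (-(t * Complex.I)) := by
  unfold QP DPol
  refine Finset.sum_congr rfl fun n hn => ?_
  rw [stf_zt n (by have := (Finset.mem_Icc.1 hn).1; omega)]

/-- the base coefficients -/
noncomputable def bc (N n : ℕ) : ℂ := (chi (dl N * Real.log n) : ℂ) * (n : ℂ) ^ (-(1 / 2 + dl N : ℂ))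

lemma norm_bc (N n : ℕ) (hn : n ≠ 0) : ‖bc N n‖ ≤ 1 := by
  unfold bc
  have hn1 : (1 : ℝ) ≤ n := by exact_mod_cast Nat.one_le_iff_ne_zero.2 hn
  rw [norm_mul, Complex.norm_real, Real.norm_of_nonneg (chi_nonneg _), ← Complex.ofReal_natCast,
    Complex.norm_cpow_eq_rpow_re_of_pos (by linarith)]
  have e : (-(1 / 2 + (dl N : ℂ))).re = -(1 / 2 + dl N) := by simp
  rw [e]
  have h1 : (n : ℝ) ^ (-(1 / 2 + dl N)) ≤ 1 :=
    Real.rpow_le_one_of_one_le_of_nonpos hn1 (by have := dl_nonneg N; linarith)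
  have h2 : 0 ≤ (n : ℝ) ^ (-(1 / 2 + dl N)) := by positivity
  exact mul_le_one₀ (chi_le _) h2 h1

lemma sp_zero (δ t : ℝ) : sp δ t 0 = (1 / 2 + δ) + t * Complex.I := by
  unfold sp
  push_cast
  ring

lemma yn_eq (N n : ℕ) (hn : n ≠ 0) : yn N n = Real.exp (-(dl N * Real.log n)) := by
  unfold yn
  rw [max_eq_left (Nat.one_le_iff_ne_zero.2 hn)]

lemma VV_eq (j N : ℕ) (t : ℝ) :
    VV (gw j) N t = QP (Finset.Icc 1 (N ^ 2)) (fun n => (yn N n : ℂ) ^ j * bc N n) t := by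
  rw [QP_eq]
  unfold VV
  refine Finset.sum_congr rfl fun n hn => ?_
  have hn0 : n ≠ 0 := by have := (Finset.mem_Icc.1 hn).1; omega
  have hnc : (n : ℂ) ≠ 0 := by exact_mod_cast hn0
  rw [sp_zero, neg_add, Complex.cpow_add _ _ hnc, yn_eq N n hn0]
  unfold gw bc
  have e : Complex.exp (-((j : ℂ) * ((dl N * Real.log n : ℝ) : ℂ))) =
      ((Real.exp (-(dl N * Real.log n)) : ℝ) : ℂ) ^ j := by
    rw [Complex.ofReal_exp, ← Complex.exp_nat_mul]
    congr 1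
    push_cast
    ring
  rw [e]
  ring

lemma VV_shift (g : ℝ → ℂ) (N : ℕ) (t u : ℝ) : VV g N (t + u * dl N) =
    ∑ n ∈ Finset.Icc 1 (N ^ 2), g (dl N * Real.log n) *
      Complex.exp (-((u : ℂ) * Complex.I * ((dl N * Real.log n : ℝ) : ℂ))) *
      (n : ℂ) ^ (-(sp (dl N) t 0)) := by
  unfold VV
  refine Finset.sum_congr rfl fun n hn => ?_
  have hn0 : n ≠ 0 := by have := (Finset.mem_Icc.1 hn).1; omega
  rw [sp_zero, sp_zero, nat_cpow n hn0, nat_cpow n hn0, mul_assoc, ← Complex.exp_add]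
  congr 2
  push_cast
  ring

/-- decorrelation on symmetric intervals -/
theorem decor' {k : ℝ} (hk : 1 < k) (hk4 : k ≤ 4) {η : ℝ} (hη : 0 < η) :
    ∃ J : ℕ, 1 ≤ J ∧ ∃ L : ℝ, 0 < L ∧ ∀ a L' : ℝ, L ≤ |L'| → ∀ N : ℝ → ℕ, Adm N →
    ∀ᶠ T in atTop, nI k (-(3 * T)) (3 * T) (fun t => (((1 / (J : ℝ)) *
      ∑ m : Fin J, ‖zc (dl (N T)) (a + (m : ℕ) * L') t‖ : ℝ) : ℂ)) ≤ η * SS k N T := by
  obtain ⟨J, hJ, L, hL, H⟩ := decor hk hk4 (half_pos hη)
  refine ⟨J, hJ, L, hL, fun a L' hL' N hN => ?_⟩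
  filter_upwards [H a L' hL' N hN, H (-a) (-L') (by rwa [abs_neg]) N hN, eventually_ge_atTop 1,
    hN.delta.eventually (gt_mem_nhds (show (0 : ℝ) < 1 / 2 by norm_num))] with T h1 h2 h3 h4
  set F : ℝ → ℂ := fun t => (((1 / (J : ℝ)) *
      ∑ m : Fin J, ‖zc (dl (N T)) (a + (m : ℕ) * L') t‖ : ℝ) : ℂ) with hF
  have hc : Continuous F := Complex.continuous_ofReal.comp (continuous_const.mul
    (continuous_finsetSum _ fun m _ => (zc_cont h4 _).norm))
  have h5 := nI_split hk.le (a := -(3 * T)) (b := 0) (c := 3 * T) (by linarith) (by linarith) hc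
  have h6 : nI k (-(3 * T)) 0 F = nI k 0 (3 * T) (fun t => (((1 / (J : ℝ)) *
      ∑ m : Fin J, ‖zc (dl (N T)) (-a + (m : ℕ) * -L') t‖ : ℝ) : ℂ)) := by
    have h8 := nI_reflect k 0 (3 * T) F
    rw [neg_zero] at h8
    rw [h8]
    refine nI_congr fun t _ => ?_
    have e : ∑ m : Fin J, ‖zc (dl (N T)) (a + (m : ℕ) * L') (-t)‖ =
        ∑ m : Fin J, ‖zc (dl (N T)) (-a + (m : ℕ) * -L') t‖ := by
      refine Finset.sum_congr rfl fun m _ => ?_
      rw [zc_reflect]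
      congr 2
      ring
    simp only [hF]
    rw [e]
  rw [h6] at h5
  linarith

/-- norm of combinations -/
theorem zc_up {k : ℝ} (hk : 1 < k) (hk4 : k ≤ 4) : ∃ C : ℝ, 0 ≤ C ∧ ∀ (a : ℝ) (N : ℝ → ℕ),
    Adm N → ∀ᶠ T in atTop, nI k (-(2 * T)) (2 * T) (zc (dl (N T)) a) ≤ C * SS k N T := by
  obtain ⟨C, hC, H⟩ := Zup hk hk4
  refine ⟨C, hC, fun a N hN => ?_⟩
  filter_upwards [H N hN, eventually_ge_atTop |a|, eventually_ge_atTop 1, hN.pos,
    hN.delta.eventually (gt_mem_nhds (show (0 : ℝ) < 1 / 2 by norm_num))] with T h1 h2 h3 h4 h5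
  refine le_trans ?_ h1
  have e : zc (dl (N T)) a = fun t => zc (dl (N T)) 0 (t + a * dl (N T)) := by
    funext t
    rw [zc_shift, zero_add]
  rw [e, nI_shift]
  have h6 : |a * dl (N T)| ≤ T := by
    rw [abs_mul, abs_of_pos h4]
    have := abs_nonneg a
    nlinarith
  obtain ⟨h7, h8⟩ := abs_le.1 h6
  exact nI_mono_set (by linarith) (zc_cont h5 0) (by linarith) (by linarith)

theorem VV_up {k : ℝ} (hk : 1 < k) (hk4 : k ≤ 4) (j : ℕ) : ∃ C : ℝ, 0 ≤ C ∧ ∀ (N : ℝ → ℕ),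
    Adm N → ∀ᶠ T in atTop, nI k (-(2 * T)) (2 * T) (VV (gw j) (N T)) ≤ C * SS k N T := by
  have hk0 : 0 < k := by linarith
  obtain ⟨n, w, a, H⟩ := approx_V hk hk4 (gw_smooth j) (gw_supp j) (gw_zero j) one_pos
  obtain ⟨C, hC, HC⟩ := zc_up hk hk4
  refine ⟨1 + ∑ i, ‖w i‖ * C, by positivity, fun N hN => ?_⟩
  have h1 : ∀ᶠ T in atTop, ∀ i : Fin n, nI k (-(2 * T)) (2 * T) (zc (dl (N T)) (a i)) ≤
      C * SS k N T := Filter.eventually_all.2 fun i => HC (a i) N hN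
  filter_upwards [H N hN, h1, eventually_ge_atTop 1,
    hN.delta.eventually (gt_mem_nhds (show (0 : ℝ) < 1 / 2 by norm_num))] with T h2 h3 h4 h5
  have hS := SS_nonneg k N (show 0 ≤ T by linarith)
  have h6 := nI_sub_le hk.le (-(2 * T)) (2 * T) (VV_cont (gw j) (N T)) (cmb_cont w a h5)
  have h7 : nI k (-(2 * T)) (2 * T) (cmb w a (dl (N T))) ≤ ∑ i, ‖w i‖ * (C * SS k N T) := by
    unfold cmb
    refine (nI_sum_le hk.le _ _ Finset.univ (fun i t => w i * zc (dl (N T)) (a i) t)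
      fun i _ => cmulc _ (zc_cont h5 _)).trans ?_
    refine Finset.sum_le_sum fun i _ => ?_
    rw [nI_const_mul hk0]
    exact mul_le_mul_of_nonneg_left (h3 i) (norm_nonneg _)
  have h8 : ∑ i, ‖w i‖ * (C * SS k N T) = (∑ i, ‖w i‖ * C) * SS k N T := by
    rw [Finset.sum_mul]
    exact Finset.sum_congr rfl fun i _ => by ring
  rw [h8] at h7
  calc _ ≤ _ := h6
    _ ≤ 1 * SS k N T + (∑ i, ‖w i‖ * C) * SS k N T := add_le_add h2 h7
    _ = _ := by ring

/-- averages of translates of a smooth sum are small -/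
theorem avg_small {k : ℝ} (hk : 1 < k) (hk4 : k ≤ 4) (j : ℕ) {η : ℝ} (hη : 0 < η) :
    ∃ (n : ℕ) (w : Fin n → ℂ) (a : Fin n → ℝ), ∀ (η' : ℝ), 0 < η' → (∑ i, ‖w i‖) * η' ≤ η / 2 →
    ∀ (J : ℕ), 1 ≤ J → ∀ (L : ℝ), (∀ (i : Fin n) (N : ℝ → ℕ), Adm N →
      ∀ᶠ T in atTop, nI k (-(3 * T)) (3 * T) (fun t => (((1 / (J : ℝ)) *
        ∑ m : Fin J, ‖zc (dl (N T)) (a i + (m : ℕ) * L) t‖ : ℝ) : ℂ)) ≤ η' * SS k N T) →
    ∀ N : ℝ → ℕ, Adm N → ∀ᶠ T in atTop, nI k (-(T + 1) / 2) (3 / 2 * T) (fun t => (((1 / (J : ℝ)) *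
        ∑ m : Fin J, ‖VV (gw j) (N T) (t + (m : ℕ) * L * dl (N T))‖ : ℝ) : ℂ)) ≤ η * SS k N T := by
  have hk0 : 0 < k := by linarith
  obtain ⟨n, w, a, H⟩ := approx_V hk hk4 (gw_smooth j) (gw_supp j) (gw_zero j) (half_pos hη)
  refine ⟨n, w, a, fun η' hη' hs J hJ L hD N hN => ?_⟩
  have hD' : ∀ᶠ T in atTop, ∀ i : Fin n, nI k (-(3 * T)) (3 * T) (fun t => (((1 / (J : ℝ)) *
        ∑ m : Fin J, ‖zc (dl (N T)) (a i + (m : ℕ) * L) t‖ : ℝ) : ℂ)) ≤ η' * SS k N T :=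
    Filter.eventually_all.2 fun i => hD i N hN
  have hJ0 : (0 : ℝ) < J := by exact_mod_cast hJ
  filter_upwards [H N hN, hD', eventually_ge_atTop (2 * (J * |L| + 1)), hN.pos,
    hN.delta.eventually (gt_mem_nhds (show (0 : ℝ) < 1 / 2 by norm_num))] with T h1 h2 h3 h4 h5
  set δ := dl (N T) with hδ
  have hJL : 0 ≤ (J : ℝ) * |L| := by positivity
  have hT0 : 0 < T := by linarith
  have hS := SS_nonneg k N hT0.le
  have hVc := VV_cont (gw j) (N T)
  have hcc := cmb_cont w a h5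
  set D : ℝ → ℂ := fun t => VV (gw j) (N T) t - cmb w a δ t with hDdef
  have hDc : Continuous D := hVc.sub hcc
  -- shifts
  have hsh : ∀ m : Fin J, |(m : ℕ) * L * δ| ≤ T / 2 - 1 := by
    intro m
    rw [abs_mul, abs_mul, abs_of_pos h4, Nat.abs_cast]
    have hm : ((m : ℕ) : ℝ) ≤ J := by exact_mod_cast m.2.le
    have : ((m : ℕ) : ℝ) * |L| * δ ≤ J * |L| * 1 := by gcongr; linarith
    linarith
  set A1 : ℝ → ℝ := fun t => (1 / (J : ℝ)) * ∑ m : Fin J, ‖D (t + (m : ℕ) * L * δ)‖ with hA1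
  set A2 : Fin n → ℝ → ℝ := fun i t => (1 / (J : ℝ)) *
    ∑ m : Fin J, ‖zc δ (a i + (m : ℕ) * L) t‖ with hA2
  have hA1c : Continuous A1 := continuous_const.mul (continuous_finsetSum _ fun m _ =>
    (hDc.comp (continuous_id.add continuous_const)).norm)
  have hA2c : ∀ i, Continuous (A2 i) := fun i => continuous_const.mul
    (continuous_finsetSum _ fun m _ => (zc_cont h5 _).norm)
  have hA10 : ∀ t, 0 ≤ A1 t := fun t => by positivity
  have hA20 : ∀ i t, 0 ≤ A2 i t := fun i t => by positivity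
  have hpt : ∀ t, (1 / (J : ℝ)) * ∑ m : Fin J, ‖VV (gw j) (N T) (t + (m : ℕ) * L * δ)‖ ≤
      A1 t + ∑ i, ‖w i‖ * A2 i t := by
    intro t
    have e1 : ∑ i, ‖w i‖ * A2 i t = (1 / (J : ℝ)) * ∑ m : Fin J, ∑ i, ‖w i‖ *
        ‖zc δ (a i + (m : ℕ) * L) t‖ := by
      rw [Finset.sum_comm, Finset.mul_sum]
      refine Finset.sum_congr rfl fun i _ => ?_
      simp only [hA2]
      rw [← Finset.mul_sum]
      ring
    rw [e1, hA1]
    simp only
    rw [← mul_add, ← Finset.sum_add_distrib]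
    refine mul_le_mul_of_nonneg_left (Finset.sum_le_sum fun m _ => ?_) (by positivity)
    have e2 : VV (gw j) (N T) (t + (m : ℕ) * L * δ) = D (t + (m : ℕ) * L * δ) +
        cmb w a δ (t + (m : ℕ) * L * δ) := by simp only [hDdef]; ring
    rw [e2]
    refine (norm_add_le _ _).trans (add_le_add le_rfl ?_)
    unfold cmb
    refine (norm_sum_le _ _).trans (Finset.sum_le_sum fun i _ => ?_)
    rw [norm_mul, zc_shift]
  have hVVc : Continuous fun t => (((1 / (J : ℝ)) *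
      ∑ m : Fin J, ‖VV (gw j) (N T) (t + (m : ℕ) * L * δ)‖ : ℝ) : ℂ) :=
    Complex.continuous_ofReal.comp (continuous_const.mul (continuous_finsetSum _ fun m _ =>
      (hVc.comp (continuous_id.add continuous_const)).norm))
  have hc1 : Continuous fun t => (A1 t : ℂ) := Complex.continuous_ofReal.comp hA1c
  have hc2 : ∀ i, Continuous fun t => (‖w i‖ : ℂ) * (A2 i t : ℂ) := fun i =>
    cmulc _ (Complex.continuous_ofReal.comp (hA2c i))
  have m1 := nI_mono hk0 (a := -(T + 1) / 2) (b := 3 / 2 * T) hVVc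
    (addc hc1 (sumc Finset.univ fun i _ => hc2 i)) fun t _ => by
      have h6 := hpt t
      have h7 : 0 ≤ A1 t + ∑ i, ‖w i‖ * A2 i t := by
        have := hA10 t
        have : 0 ≤ ∑ i, ‖w i‖ * A2 i t :=
          Finset.sum_nonneg fun i _ => mul_nonneg (norm_nonneg _) (hA20 i t)
        linarith
      have e3 : (A1 t : ℂ) + ∑ i, (‖w i‖ : ℂ) * (A2 i t : ℂ) =
          ((A1 t + ∑ i, ‖w i‖ * A2 i t : ℝ) : ℂ) := by push_cast; rfl
      rw [e3, Complex.norm_real, Complex.norm_real, Real.norm_of_nonneg h7,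
        Real.norm_of_nonneg (by positivity)]
      exact h6
  have m2 := nI_add_le hk.le (-(T + 1) / 2) (3 / 2 * T) hc1 (sumc Finset.univ fun i _ => hc2 i)
  have m3 := nI_sum_le hk.le (-(T + 1) / 2) (3 / 2 * T) Finset.univ
    (fun i t => (‖w i‖ : ℂ) * (A2 i t : ℂ)) fun i _ => hc2 i
  have m4 : ∑ i, nI k (-(T + 1) / 2) (3 / 2 * T) (fun t => (‖w i‖ : ℂ) * (A2 i t : ℂ)) ≤
      (∑ i, ‖w i‖) * (η' * SS k N T) := by
    rw [Finset.sum_mul]
    refine Finset.sum_le_sum fun i _ => ?_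
    rw [nI_const_mul hk0, Complex.norm_real, norm_norm]
    refine mul_le_mul_of_nonneg_left ?_ (norm_nonneg _)
    refine le_trans (nI_mono_set hk0 (Complex.continuous_ofReal.comp (hA2c i)) ?_ ?_) (h2 i)
    · linarith
    · linarith
  have m5 : nI k (-(T + 1) / 2) (3 / 2 * T) (fun t => (A1 t : ℂ)) ≤ η / 2 * SS k N T := by
    have e4 : (fun t => (A1 t : ℂ)) = fun t => (1 / (J : ℂ)) *
        ∑ m : Fin J, ((‖D (t + (m : ℕ) * L * δ)‖ : ℝ) : ℂ) := by
      funext t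
      simp only [hA1]
      push_cast
      rfl
    rw [e4, nI_const_mul hk0]
    have hDm : ∀ m : Fin J, Continuous fun t => ((‖D (t + (m : ℕ) * L * δ)‖ : ℝ) : ℂ) := fun m =>
      Complex.continuous_ofReal.comp (hDc.comp (continuous_id.add continuous_const)).norm
    have h8 := nI_sum_le hk.le (-(T + 1) / 2) (3 / 2 * T) Finset.univ
      (fun (m : Fin J) t => ((‖D (t + (m : ℕ) * L * δ)‖ : ℝ) : ℂ)) fun m _ => hDm m
    have h9 : ∀ m : Fin J, nI k (-(T + 1) / 2) (3 / 2 * T)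
        (fun t => ((‖D (t + (m : ℕ) * L * δ)‖ : ℝ) : ℂ)) ≤ η / 2 * SS k N T := by
      intro m
      have e5 : nI k (-(T + 1) / 2) (3 / 2 * T)
          (fun t => ((‖D (t + (m : ℕ) * L * δ)‖ : ℝ) : ℂ)) =
          nI k (-(T + 1) / 2) (3 / 2 * T) (fun t => D (t + (m : ℕ) * L * δ)) :=
        nI_congr fun t _ => by rw [Complex.norm_real, norm_norm]
      rw [e5, nI_shift]
      obtain ⟨h10, h11⟩ := abs_le.1 (hsh m)
      exact (nI_mono_set hk0 hDc (by linarith) (by linarith)).trans h1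
    have e6 : ‖(1 / (J : ℂ))‖ = 1 / J := by simp
    rw [e6]
    calc 1 / (J : ℝ) * _ ≤ 1 / (J : ℝ) * ∑ _m : Fin J, η / 2 * SS k N T :=
          mul_le_mul_of_nonneg_left (h8.trans (Finset.sum_le_sum fun m _ => h9 m))
            (by positivity)
      _ = _ := by
          rw [Finset.sum_const, Finset.card_univ, Fintype.card_fin, nsmul_eq_mul]
          field_simp
  have m6 : (∑ i, ‖w i‖) * (η' * SS k N T) ≤ η / 2 * SS k N T := by
    rw [← mul_assoc]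
    exact mul_le_mul_of_nonneg_right hs hS
  linarith

end Pool.Agent.H7.PT
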