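import Pool.Agent.H7.PM.E4
import Pool.Agent.H7.PT.P8

set_option autoImplicit false
open MeasureTheory Metric Filter ProbabilityTheory
open scoped ComplexConjugate ENNReal Topology ContDiff

/-! Approximation of the partial sums by combinations of shifted zeta values. -/

namespace Pool.Agent.H7.PT

open Pool.Agent.H7.PM (dl dl_pos dl_nonneg dl_tendsto log_dl stf nat_cpow yn yn_pos yn_le_one
  yn_ge_iff DPol DN fJ fa bp bp_re EE_c approx_fJ)
open Pool.Agent.Helper873.OneVar Pool.Agent.Helper873.Product Pool.Agent.Helper873.Embed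
  Pool.Agent.Helper873.Mean Pool.Agent.Helper873.Alg
open Pool.Agent.V11128.CXL

/-- families of combinations -/
def IsC (G : ℝ → ℝ → ℂ) : Prop := ∃ (n : ℕ) (w : Fin n → ℂ) (a : Fin n → ℝ), G = cmb w a

lemma isC_zero : IsC (fun _ _ => 0) :=
  ⟨0, fun _ => 0, fun _ => 0, by funext δ t; simp [cmb]⟩

lemma isC_smul (c : ℂ) {G : ℝ → ℝ → ℂ} (h : IsC G) : IsC (fun δ t => c * G δ t) := by
  obtain ⟨n, w, a, rfl⟩ := h
  refine ⟨n, fun j => c * w j, a, ?_⟩
  funext δ t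
  unfold cmb
  rw [Finset.mul_sum]
  exact Finset.sum_congr rfl fun j _ => by ring

lemma isC_add {G H : ℝ → ℝ → ℂ} (h : IsC G) (h' : IsC H) : IsC (fun δ t => G δ t + H δ t) := by
  obtain ⟨n, w, a, rfl⟩ := h
  obtain ⟨n', w', a', rfl⟩ := h'
  refine ⟨n + n', Fin.append w w', Fin.append a a', ?_⟩
  funext δ t
  unfold cmb
  rw [Fin.sum_univ_add]
  simp

lemma isC_sum {ι : Type*} (s : Finset ι) {G : ι → ℝ → ℝ → ℂ} (h : ∀ i ∈ s, IsC (G i)) :
    IsC (fun δ t => ∑ i ∈ s, G i δ t) := by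
  classical
  induction s using Finset.induction_on with
  | empty => simpa using isC_zero
  | insert i s hi ih =>
    have h1 := isC_add (h i (Finset.mem_insert_self i s))
      (ih fun j hj => h j (Finset.mem_insert_of_mem hj))
    simp_rw [Finset.sum_insert hi]
    exact h1

/-- families which are approximated by combinations -/
def App (k : ℝ) (V : ℕ → ℝ → ℂ) : Prop := ∀ ε : ℝ, 0 < ε → ∃ (n : ℕ) (w : Fin n → ℂ)
  (a : Fin n → ℝ), ∀ N : ℝ → ℕ, Adm N → ∀ᶠ T in atTop,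
    nI k 0 T (fun t => V (N T) t - cmb w a (dl (N T)) t) ≤ ε * SS k N T

lemma app_VV {k : ℝ} (hk : 1 < k) (hk4 : k ≤ 4) (j : ℕ) : App k (fun N t => VV (gw j) N t) := by
  intro ε hε
  obtain ⟨n, w, a, H⟩ := approx_V hk hk4 (gw_smooth j) (gw_supp j) (gw_zero j) hε
  refine ⟨n, w, a, fun N hN => ?_⟩
  filter_upwards [H N hN, eventually_ge_atTop 0,
    hN.delta.eventually (gt_mem_nhds (show (0 : ℝ) < 1 / 2 by norm_num))] with T h1 h2 h3
  exact (nI_mono_set (by linarith) ((VV_cont _ _).sub (cmb_cont w a h3)) (by linarith)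
    (by linarith)).trans h1

lemma app_lin {k : ℝ} (hk : 1 < k) {ι : Type*} (s : Finset ι) (c : ι → ℂ)
    {V : ι → ℕ → ℝ → ℂ} (hc : ∀ i N, Continuous (V i N)) (h : ∀ i, App k (V i)) :
    App k (fun N t => ∑ i ∈ s, c i * V i N t) := by
  classical
  intro ε hε
  have hk0 : 0 < k := by linarith
  set B : ℝ := ∑ i ∈ s, ‖c i‖ with hB
  have hB0 : 0 ≤ B := Finset.sum_nonneg fun i _ => norm_nonneg _
  have hε1 : 0 < ε / (B + 1) := by positivity
  choose n w a H using fun i => h i (ε / (B + 1)) hε1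
  obtain ⟨n', w', a', e⟩ : IsC (fun δ t => ∑ i ∈ s, c i * cmb (w i) (a i) δ t) :=
    isC_sum s fun i _ => isC_smul (c i) ⟨n i, w i, a i, rfl⟩
  refine ⟨n', w', a', fun N hN => ?_⟩
  have h1 : ∀ᶠ T in atTop, ∀ i ∈ s, nI k 0 T (fun t => V i (N T) t -
      cmb (w i) (a i) (dl (N T)) t) ≤ ε / (B + 1) * SS k N T :=
    (Filter.eventually_all_finset s).2 fun i _ => H i N hN
  filter_upwards [h1, eventually_ge_atTop 0,
    hN.delta.eventually (gt_mem_nhds (show (0 : ℝ) < 1 / 2 by norm_num))] with T h1 h2 h3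
  have hS := SS_nonneg k N h2
  have e1 : (fun t => ∑ i ∈ s, c i * V i (N T) t - cmb w' a' (dl (N T)) t) =
      fun t => ∑ i ∈ s, c i * (V i (N T) t - cmb (w i) (a i) (dl (N T)) t) := by
    funext t
    have e2 := congrFun (congrFun e (dl (N T))) t
    rw [← e2, ← Finset.sum_sub_distrib]
    exact Finset.sum_congr rfl fun i _ => by ring
  rw [e1]
  have hcc : ∀ i, Continuous fun t => V i (N T) t - cmb (w i) (a i) (dl (N T)) t := fun i =>
    (hc i (N T)).sub (cmb_cont (w i) (a i) h3)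
  refine (nI_sum_le hk.le 0 T s (fun i t => c i * (V i (N T) t -
    cmb (w i) (a i) (dl (N T)) t)) fun i _ => cmulc _ (hcc i)).trans ?_
  have h4 : ∀ i ∈ s, nI k 0 T (fun t => c i * (V i (N T) t -
      cmb (w i) (a i) (dl (N T)) t)) ≤ ‖c i‖ * (ε / (B + 1) * SS k N T) := by
    intro i hi
    rw [nI_const_mul hk0]
    exact mul_le_mul_of_nonneg_left (h1 i hi) (norm_nonneg _)
  refine (Finset.sum_le_sum h4).trans ?_
  rw [← Finset.sum_mul, ← hB, ← mul_assoc]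
  refine mul_le_mul_of_nonneg_right ?_ hS
  rw [mul_div_assoc', div_le_iff₀ (by positivity)]
  nlinarith

lemma app_of {k : ℝ} (hk : 1 < k) {V : ℕ → ℝ → ℂ} (hc : ∀ N, Continuous (V N))
    (h : ∀ ε : ℝ, 0 < ε → ∃ U : ℕ → ℝ → ℂ, App k U ∧ (∀ N, Continuous (U N)) ∧
      ∀ N : ℝ → ℕ, Adm N → ∀ᶠ T in atTop,
        nI k 0 T (fun t => V (N T) t - U (N T) t) ≤ ε * SS k N T) : App k V := by
  intro ε hε
  obtain ⟨U, hU, hUc, H⟩ := h (ε / 2) (by positivity)
  obtain ⟨n, w, a, H'⟩ := hU (ε / 2) (by positivity)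
  refine ⟨n, w, a, fun N hN => ?_⟩
  filter_upwards [H N hN, H' N hN,
    hN.delta.eventually (gt_mem_nhds (show (0 : ℝ) < 1 / 2 by norm_num))] with T h1 h2 h3
  have h4 := nI_tri hk.le 0 T (hc (N T)) (hUc (N T)) (cmb_cont w a h3)
  linarith

/-- the twist -/
noncomputable def tw (u : ℝ) (N n : ℕ) : ℂ :=
  Complex.exp (-((u : ℂ) * Complex.I * ((dl N * Real.log n : ℝ) : ℂ)))

lemma norm_tw (u : ℝ) (N n : ℕ) : ‖tw u N n‖ = 1 := by
  unfold tw
  have e : -((u : ℂ) * Complex.I * ((dl N * Real.log n : ℝ) : ℂ)) =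
      ((-(u * (dl N * Real.log n)) : ℝ) : ℂ) * Complex.I := by
    push_cast
    ring
  rw [e, Complex.norm_exp_ofReal_mul_I]

lemma VV_tw (j N : ℕ) (u t : ℝ) : VV (gw j) N (t + u * dl N) = QP (Finset.Icc 1 (N ^ 2))
    (fun n => tw u N n * ((yn N n : ℂ) ^ j * bc N n)) t := by
  rw [VV_eq, QP_eq, QP_eq]
  refine Finset.sum_congr rfl fun n hn => ?_
  have hn0 : n ≠ 0 := by have := (Finset.mem_Icc.1 hn).1; omega
  rw [nat_cpow n hn0, nat_cpow n hn0]
  have e : Complex.exp ((Real.log n : ℂ) * -(((t + u * dl N : ℝ) : ℂ) * Complex.I)) =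
      tw u N n * Complex.exp ((Real.log n : ℂ) * -((t : ℂ) * Complex.I)) := by
    unfold tw
    rw [← Complex.exp_add]
    congr 1
    push_cast
    ring
  rw [e]
  ring

/-- the coefficients close to the cut -/
noncomputable def wc {J : ℕ} (u : Fin J → ℝ) (N n : ℕ) : ℂ :=
  1 / (J : ℂ) * ∑ m, (2 * Complex.exp (bp 1 (u m)) * (tw (u m) N n * ((yn N n : ℂ) ^ 0 * bc N n)) -
    Complex.exp (bp 2 (u m)) * (tw (2 * u m) N n * ((yn N n : ℂ) ^ 1 * bc N n)))

lemma QP_smul (S : Finset ℕ) (b : ℂ) (c : ℕ → ℂ) (t : ℝ) :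
    QP S (fun n => b * c n) t = b * QP S c t := by
  unfold QP DPol
  rw [Finset.mul_sum]
  exact Finset.sum_congr rfl fun n _ => by ring

lemma QP_add (S : Finset ℕ) (b c : ℕ → ℂ) (t : ℝ) :
    QP S (fun n => b n + c n) t = QP S b t + QP S c t := by
  unfold QP DPol
  rw [← Finset.sum_add_distrib]
  exact Finset.sum_congr rfl fun n _ => by ring

lemma QP_sub (S : Finset ℕ) (b c : ℕ → ℂ) (t : ℝ) :
    QP S (fun n => b n - c n) t = QP S b t - QP S c t := by
  unfold QP DPol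
  rw [← Finset.sum_sub_distrib]
  exact Finset.sum_congr rfl fun n _ => by ring

lemma QP_sum {ι : Type*} (S : Finset ℕ) (s : Finset ι) (c : ι → ℕ → ℂ) (t : ℝ) :
    QP S (fun n => ∑ i ∈ s, c i n) t = ∑ i ∈ s, QP S (c i) t := by
  unfold QP DPol
  rw [Finset.sum_comm]
  exact Finset.sum_congr rfl fun n _ => by rw [Finset.sum_mul]

lemma QP_congr {S : Finset ℕ} {b c : ℕ → ℂ} (h : ∀ n ∈ S, b n = c n) (t : ℝ) :
    QP S b t = QP S c t := by
  unfold QP DPol
  exact Finset.sum_congr rfl fun n hn => by rw [h n hn]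

lemma QP_wc {J : ℕ} (u : Fin J → ℝ) (N : ℕ) (t : ℝ) : QP (Finset.Icc 1 (N ^ 2)) (wc u N) t =
    1 / (J : ℂ) * ∑ m, (2 * Complex.exp (bp 1 (u m)) * VV (gw 0) N (t + u m * dl N) -
      Complex.exp (bp 2 (u m)) * VV (gw 1) N (t + (2 * u m) * dl N)) := by
  unfold wc
  rw [QP_smul, QP_sum]
  congr 1
  refine Finset.sum_congr rfl fun m _ => ?_
  rw [QP_sub, QP_smul, QP_smul, ← VV_tw, ← VV_tw]

lemma norm_wc {J : ℕ} (hJ : 1 ≤ J) (u : Fin J → ℝ) (N n : ℕ) (hn : n ≠ 0) :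
    ‖wc u N n‖ ≤ 2 * Real.exp 1 + Real.exp 2 := by
  unfold wc
  have hJ0 : (0 : ℝ) < J := by exact_mod_cast hJ
  have hb := norm_bc N n hn
  have hy : ‖(yn N n : ℂ)‖ ≤ 1 := by
    rw [Complex.norm_real, Real.norm_of_nonneg (yn_pos N n).le]; exact yn_le_one N n
  have h1 : ∀ m : Fin J, ‖2 * Complex.exp (bp 1 (u m)) *
      (tw (u m) N n * ((yn N n : ℂ) ^ 0 * bc N n)) -
      Complex.exp (bp 2 (u m)) * (tw (2 * u m) N n * ((yn N n : ℂ) ^ 1 * bc N n))‖ ≤
      2 * Real.exp 1 + Real.exp 2 := by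
    intro m
    refine (norm_sub_le _ _).trans ?_
    rw [norm_mul, norm_mul, norm_mul, norm_mul, norm_mul, norm_mul, norm_mul, norm_tw, norm_tw,
      Complex.norm_exp, Complex.norm_exp, bp_re, bp_re, pow_zero, pow_one, norm_one]
    have n2 : ‖(2 : ℂ)‖ = 2 := by simp
    rw [n2, one_mul, one_mul, one_mul]
    have e1 := Real.exp_pos 1
    have e2 := Real.exp_pos 2
    have h3 : ‖(yn N n : ℂ)‖ * ‖bc N n‖ ≤ 1 := mul_le_one₀ hy (norm_nonneg _) hb
    have h4 : 2 * Real.exp 1 * ‖bc N n‖ ≤ 2 * Real.exp 1 * 1 :=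
      mul_le_mul_of_nonneg_left hb (by positivity)
    have h5 : Real.exp 2 * (‖(yn N n : ℂ)‖ * ‖bc N n‖) ≤ Real.exp 2 * 1 :=
      mul_le_mul_of_nonneg_left h3 (by positivity)
    linarith
  rw [norm_mul]
  have e6 : ‖(1 / (J : ℂ))‖ = 1 / J := by simp
  rw [e6]
  calc 1 / (J : ℝ) * _ ≤ 1 / (J : ℝ) * ∑ _m : Fin J, (2 * Real.exp 1 + Real.exp 2) :=
        mul_le_mul_of_nonneg_left ((norm_sum_le _ _).trans (Finset.sum_le_sum fun m _ => h1 m))
          (by positivity)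
    _ = _ := by
        rw [Finset.sum_const, Finset.card_univ, Fintype.card_fin, nsmul_eq_mul]
        field_simp

/-- the identity between coefficients -/
lemma key_id' {J : ℕ} (hJ : 1 ≤ J) (u : Fin J → ℝ) {N : ℕ} (hN : 2 ≤ N) (n : ℕ) (hn : n ≠ 0) :
    (if n ≤ N then (n : ℂ) ^ (-(1 / 2) : ℂ) else 0) =
      (if yn N n ≤ Real.exp (-1) then 0 else fJ (fun m => bp 1 (u m)) (yn N n)) * bc N n +
        (if n ≤ N then wc u N n else 0) := by
  have hn1 : (1 : ℝ) ≤ n := by exact_mod_cast Nat.one_le_iff_ne_zero.2 hn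
  by_cases h : n ≤ N
  · rw [if_pos h, if_pos h]
    have hy := (yn_ge_iff hN n hn).2 h
    have hφ : (if yn N n ≤ Real.exp (-1) then 0 else fJ (fun m => bp 1 (u m)) (yn N n)) =
        fJ (fun m => bp 1 (u m)) (yn N n) := by
      rcases hy.lt_or_eq with h1 | h1
      · rw [if_neg (not_le.2 h1)]
      · rw [← h1, if_pos le_rfl]
        unfold fJ fa
        simp [EE_c]
    rw [hφ]
    have hy0 : (yn N n : ℂ) ≠ 0 := by exact_mod_cast (yn_pos N n).ne'
    have hlog : Real.log (yn N n) = -(dl N * Real.log n) := by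
      rw [yn_eq N n hn, Real.log_exp]
    have hx0 : 0 ≤ dl N * Real.log n := mul_nonneg (dl_nonneg N) (Real.log_nonneg hn1)
    have hx1 : dl N * Real.log n ≤ 1 := by
      have h2 : Real.exp (-1) ≤ Real.exp (-(dl N * Real.log n)) := by
        rw [← yn_eq N n hn]; exact hy
      have := Real.exp_le_exp.1 h2
      linarith
    have hbc : bc N n = (yn N n : ℂ) * (n : ℂ) ^ (-(1 / 2) : ℂ) := by
      unfold bc
      rw [chi_one hx0 hx1, yn_eq N n hn, Complex.ofReal_one, one_mul, nat_cpow n hn,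
        nat_cpow n hn, Complex.ofReal_exp, ← Complex.exp_add]
      congr 1
      push_cast
      ring
    set B := (n : ℂ) ^ (-(1 / 2) : ℂ) with hB
    set y : ℂ := (yn N n : ℂ) with hydef
    have hyexp : y = Complex.exp (-((dl N * Real.log n : ℝ) : ℂ)) := by
      rw [hydef, yn_eq N n hn]
      push_cast
      rfl
    have e2 : ∀ m, Complex.exp (bp 1 (u m)) * (tw (u m) N n * (y ^ 0 * bc N n)) =
        Pool.Agent.H7.PM.EE (bp 1 (u m)) (yn N n) * B := by
      intro m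
      rw [hbc]
      unfold Pool.Agent.H7.PM.EE tw
      rw [hlog, hyexp, pow_zero, one_mul, ← mul_assoc, ← mul_assoc, ← Complex.exp_add,
        ← Complex.exp_add]
      congr 2
      unfold bp
      push_cast
      ring
    have e3 : ∀ m, Complex.exp (bp 2 (u m)) * (tw (2 * u m) N n * (y ^ 1 * bc N n)) =
        Pool.Agent.H7.PM.EE (bp 1 (u m)) (yn N n) ^ 2 * B := by
      intro m
      rw [hbc]
      unfold Pool.Agent.H7.PM.EE tw
      rw [hlog, hyexp, pow_one, ← mul_assoc, ← mul_assoc, ← mul_assoc, ← Complex.exp_add,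
        ← Complex.exp_add, ← Complex.exp_add, ← Complex.exp_nat_mul]
      congr 2
      unfold bp
      push_cast
      ring
    unfold fJ fa
    have e5 : ∀ m, 2 * Complex.exp (bp 1 (u m)) * (tw (u m) N n * (y ^ 0 * bc N n)) =
        2 * (Pool.Agent.H7.PM.EE (bp 1 (u m)) (yn N n) * B) := by
      intro m
      rw [mul_assoc, e2]
    have hw : wc u N n = 1 / (J : ℂ) * ∑ m,
        (2 * (Pool.Agent.H7.PM.EE (bp 1 (u m)) (yn N n) * B) -
          Pool.Agent.H7.PM.EE (bp 1 (u m)) (yn N n) ^ 2 * B) := by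
      unfold wc
      congr 1
      refine Finset.sum_congr rfl fun m _ => ?_
      exact congrArg₂ (· - ·) (e5 m) (e3 m)
    rw [hw, hbc]
    have hJ0 : (J : ℂ) ≠ 0 := by exact_mod_cast (by omega : J ≠ 0)
    have e4 : ∑ m, (1 - Pool.Agent.H7.PM.EE (bp 1 (u m)) (yn N n)) ^ 2 / y = ((J : ℂ) -
        2 * ∑ m, Pool.Agent.H7.PM.EE (bp 1 (u m)) (yn N n) +
          ∑ m, Pool.Agent.H7.PM.EE (bp 1 (u m)) (yn N n) ^ 2) / y := by
      rw [← Finset.sum_div]
      congr 1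
      have : ∀ m, (1 - Pool.Agent.H7.PM.EE (bp 1 (u m)) (yn N n)) ^ 2 =
          1 - 2 * Pool.Agent.H7.PM.EE (bp 1 (u m)) (yn N n) +
            Pool.Agent.H7.PM.EE (bp 1 (u m)) (yn N n) ^ 2 := fun m => by ring
      simp_rw [this]
      rw [Finset.sum_add_distrib, Finset.sum_sub_distrib, ← Finset.mul_sum]
      simp
    rw [e4, Finset.sum_sub_distrib, ← Finset.mul_sum, ← Finset.sum_mul, ← Finset.sum_mul]
    field_simp
    ring
  · rw [if_neg h, if_neg h]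
    have hy : ¬ Real.exp (-1) ≤ yn N n := fun h1 => h ((yn_ge_iff hN n hn).1 h1)
    rw [if_pos (not_le.1 hy).le]
    simp

lemma DN_QP {N : ℕ} (hN : 1 ≤ N) (t : ℝ) : DN N t = QP (Finset.Icc 1 (N ^ 2))
    (fun n => if n ≤ N then (n : ℂ) ^ (-(1 / 2) : ℂ) else 0) t := by
  rw [QP_eq]
  unfold DN
  have hsub : Finset.Icc 1 N ⊆ Finset.Icc 1 (N ^ 2) :=
    Finset.Icc_subset_Icc_right (by nlinarith)
  rw [← Finset.sum_subset hsub]
  · refine Finset.sum_congr rfl fun n hn => ?_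
    have hn0 : n ≠ 0 := by have := (Finset.mem_Icc.1 hn).1; omega
    have hnc : (n : ℂ) ≠ 0 := by exact_mod_cast hn0
    rw [if_pos (Finset.mem_Icc.1 hn).2, ← Complex.cpow_add _ _ hnc]
    congr 1
    ring
  · intro n hn hn'
    have : ¬ n ≤ N := fun h => hn' (Finset.mem_Icc.2 ⟨(Finset.mem_Icc.1 hn).1, h⟩)
    rw [if_neg this, zero_mul]

lemma err_small {k : ℝ} (hk : 1 < k) {N : ℝ → ℕ} (hN : Adm N) {ε : ℝ} (hε : 0 < ε) :
    ∀ᶠ T in atTop, 1000 * ((N T ^ 2 : ℕ) : ℝ) ^ 2 / Real.sqrt T *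
      (T - 0 + Real.sqrt T) ^ (1 / k) ≤ ε * SS k N T := by
  have h1 := (hN.small 4 (1 / 2) (by norm_num)).const_mul (1000 * 2)
  rw [mul_zero] at h1
  filter_upwards [h1.eventually (gt_mem_nhds hε), SS_ge (by linarith : 0 < k) hN,
    eventually_ge_atTop 1] with T h2 h3 h4
  have hT0 : 0 < T := by linarith
  have hk1 : 1 / k ≤ 1 := by rw [div_le_one (by linarith)]; exact hk.le
  have hk2 : 0 ≤ 1 / k := by have : 0 < k := by linarith
                             positivity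
  have hs : Real.sqrt T ≤ T := by
    rw [Real.sqrt_le_left hT0.le]
    nlinarith
  have hs0 : 0 < Real.sqrt T := Real.sqrt_pos.2 hT0
  have h5 : (T - 0 + Real.sqrt T) ^ (1 / k) ≤ 2 * T ^ (1 / k) := by
    calc (T - 0 + Real.sqrt T) ^ (1 / k) ≤ (2 * T) ^ (1 / k) :=
          Real.rpow_le_rpow (by positivity) (by linarith) hk2
      _ = 2 ^ (1 / k) * T ^ (1 / k) := Real.mul_rpow (by norm_num) hT0.le
      _ ≤ 2 ^ (1 : ℝ) * T ^ (1 / k) := by
          refine mul_le_mul_of_nonneg_right ?_ (by positivity)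
          exact Real.rpow_le_rpow_of_exponent_le (by norm_num) hk1
      _ = _ := by rw [Real.rpow_one]
  have e1 : (((N T ^ 2 : ℕ) : ℝ)) ^ 2 = (N T : ℝ) ^ (4 : ℝ) := by
    push_cast
    rw [← pow_mul]
    norm_cast
  rw [e1, Real.sqrt_eq_rpow]
  rw [Real.sqrt_eq_rpow] at h5
  have h6 : 0 ≤ 1000 * (N T : ℝ) ^ (4 : ℝ) / T ^ (1 / 2 : ℝ) := by positivity
  calc 1000 * (N T : ℝ) ^ (4 : ℝ) / T ^ (1 / 2 : ℝ) * (T - 0 + T ^ (1 / 2 : ℝ)) ^ (1 / k) ≤
        1000 * (N T : ℝ) ^ (4 : ℝ) / T ^ (1 / 2 : ℝ) * (2 * T ^ (1 / k)) :=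
        mul_le_mul_of_nonneg_left h5 h6
    _ = (1000 * 2 * ((N T : ℝ) ^ (4 : ℝ) / T ^ (1 / 2 : ℝ))) * T ^ (1 / k) := by ring
    _ ≤ ε * T ^ (1 / k) := mul_le_mul_of_nonneg_right h2.le (by positivity)
    _ ≤ ε * SS k N T := mul_le_mul_of_nonneg_left h3 hε.le

end Pool.Agent.H7.PT
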